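import Mathlib
import Pool.Agent.L0h11.Vg

/-!
# Euler products over sets of closed points and sums over the points with values in finite fields

The traces are complex numbers, and only the sums of their absolute values are bounded.
-/

set_option autoImplicit false
set_option linter.all false
set_option maxHeartbeats 1000000

open Polynomial

namespace Pool.Agent.L0h11.TF

open Pool.Agent.H126R3 (pair_unique Qc Qc_pos Qc_rpow summable_Q exists_F)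
open Pool.Agent.TH958.An
open Pool.Agent.L0h11 (card_emb)

section
variable {R : Type} [CommRing R] [hR : Algebra.FiniteType ℤ R] (τ : Pt R → ℕ → ℂ) (P : Pt R → Prop)

/-- the closed points with a point with values in the field with `Qc c` elements -/
abbrev Yc (c : Nat.Primes × ℕ) : Type :=
  {y : Pt R // P y ∧ (pk y).1 = c.1 ∧ ((pk y).2 + 1) ∣ (c.2 + 1)}

variable {P} {c : Nat.Primes × ℕ}

theorem card_fib {F : Type} [Field F] [Finite F] (hF : Nat.card F = Qc c) (y : Yc P c) :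
    Nat.card {φ : R →+* F // ptOf φ = y.1} = (pk y.1).2 + 1 := by
  have hp : Fact ((c.1 : ℕ)).Prime := ⟨c.1.2⟩
  rw [Nat.card_congr (fiberEquiv (F := F) y.1)]
  refine card_emb (p := (c.1 : ℕ)) (n := c.2 + 1) ?_ hF (Nat.succ_ne_zero _) (Nat.succ_ne_zero _) y.2.2.2
  have h := qy_eq y.1
  rw [y.2.2.1] at h
  exact h

/-- the points with values in the field with `Qc c` elements -/
noncomputable def homEq {F : Type} [Field F] [Finite F] (hF : Nat.card F = Qc c) :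
    {φ : R →+* F // P (ptOf φ)} ≃ Σ y : Yc P c, {φ : R →+* F // ptOf φ = y.1} where
  toFun φ := ⟨⟨ptOf φ.1, φ.2, by
    have := Fintype.ofFinite F
    exact pk_ptOf F φ.1 c.1 c.2 (by rw [← Nat.card_eq_fintype_card]; exact hF)⟩, ⟨φ.1, rfl⟩⟩
  invFun w := ⟨w.2.1, by
    rw [w.2.2]
    exact w.1.2.1⟩
  left_inv φ := rfl
  right_inv w := by
    have gen : ∀ (y : Pt R) (hy : P y ∧ (pk y).1 = c.1 ∧ ((pk y).2 + 1) ∣ (c.2 + 1))
        (φ : R →+* F) (hφ : ptOf φ = y)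
        (h1 : P (ptOf φ) ∧ (pk (ptOf φ)).1 = c.1 ∧ ((pk (ptOf φ)).2 + 1) ∣ (c.2 + 1)),
        (⟨⟨ptOf φ, h1⟩, ⟨φ, rfl⟩⟩ : Σ y : Yc P c, {φ : R →+* F // ptOf φ = y.1}) =
          ⟨⟨y, hy⟩, ⟨φ, hφ⟩⟩ := by
      intro y hy φ hφ h1
      subst hφ
      rfl
    exact gen w.1.1 w.1.2 w.2.1 w.2.2 _

theorem finite_Yc : Finite (Yc P c) := by
  obtain ⟨F, _, _, hF⟩ := exists_F c
  have hF' : Nat.card F = Qc c := by rw [Nat.card_eq_fintype_card]; exact hF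
  have hs : Function.Surjective fun φ : {φ : R →+* F // P (ptOf φ)} => (homEq hF' φ).1 := by
    intro y
    have h1 : 0 < Nat.card {φ : R →+* F // ptOf φ = y.1} := by
      rw [card_fib hF' y]
      omega
    obtain ⟨φ⟩ := (Nat.card_pos_iff.1 h1).1
    refine ⟨(homEq hF').symm ⟨y, φ⟩, ?_⟩
    show (homEq hF' ((homEq hF').symm ⟨y, φ⟩)).1 = y
    rw [Equiv.apply_symm_apply]
  exact Finite.of_surjective _ hs

/-- the sum over the points and the sum over the closed points -/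
theorem sum_Yc {E : Type} [NormedAddCommGroup E] [NormedSpace ℝ E] {F : Type} [Field F] [Finite F]
    (hF : Nat.card F = Qc c) [Fintype (Yc P c)]
    (w : Pt R → E) : ∑ᶠ φ : {φ : R →+* F // P (ptOf φ)}, w (ptOf φ.1) =
      ∑ y : Yc P c, (((pk y.1).2 + 1 : ℕ) : ℝ) • w y.1 := by
  classical
  let _ : ∀ y : Yc P c, Fintype {φ : R →+* F // ptOf φ = y.1} := fun y => Fintype.ofFinite _
  let _ : Fintype {φ : R →+* F // P (ptOf φ)} := Fintype.ofFinite _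
  rw [finsum_eq_sum_of_fintype, Fintype.sum_equiv (homEq (P := P) hF) (fun φ => w (ptOf φ.1))
    (fun z => w z.1.1) (fun φ => rfl), Fintype.sum_sigma]
  refine Finset.sum_congr rfl fun y _ => ?_
  show ∑ _z : {φ : R →+* F // ptOf φ = y.1}, w y.1 = _
  rw [Finset.sum_const, Finset.card_univ, ← Nat.card_eq_fintype_card, card_fib hF y,
    ← Nat.cast_smul_eq_nsmul ℝ]

/-- the pair of the power of the norm -/
noncomputable def pi (P : Pt R → Prop) (x : {y : Pt R // P y} × ℕ) : Nat.Primes × ℕ :=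
  ((pk x.1.1).1, ((pk x.1.1).2 + 1) * (x.2 + 1) - 1)

theorem pi_eq (x : {y : Pt R // P y} × ℕ) : pi P x = c ↔
    (pk x.1.1).1 = c.1 ∧ ((pk x.1.1).2 + 1) * (x.2 + 1) = c.2 + 1 := by
  have h0 : 0 < ((pk x.1.1).2 + 1) * (x.2 + 1) := by positivity
  unfold pi
  rw [Prod.ext_iff]
  constructor
  · rintro ⟨h1, h2⟩
    refine ⟨h1, ?_⟩
    simp only at h2
    omega
  · rintro ⟨h1, h2⟩
    refine ⟨h1, ?_⟩
    simp only
    omega

theorem pi_qy (x : {y : Pt R // P y} × ℕ) (h : pi P x = c) :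
    qy x.1.1 ^ (x.2 + 1) = Qc c := by
  obtain ⟨h1, h2⟩ := (pi_eq x).1 h
  rw [qy_eq, ← pow_mul, h2, h1]
  rfl

/-- the fibre -/
noncomputable def fibEq (P : Pt R → Prop) (c : Nat.Primes × ℕ) :
    {x : {y : Pt R // P y} × ℕ // pi P x = c} ≃ Yc P c where
  toFun x := ⟨x.1.1.1, x.1.1.2, ((pi_eq x.1).1 x.2).1, Dvd.intro _ ((pi_eq x.1).1 x.2).2⟩
  invFun y := ⟨(⟨y.1, y.2.1⟩, (c.2 + 1) / ((pk y.1).2 + 1) - 1), (pi_eq _).2 ⟨y.2.2.1, by
    have h1 : 0 < (c.2 + 1) / ((pk y.1).2 + 1) :=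
      Nat.div_pos (Nat.le_of_dvd (Nat.succ_pos _) y.2.2.2) (Nat.succ_pos _)
    show ((pk y.1).2 + 1) * ((c.2 + 1) / ((pk y.1).2 + 1) - 1 + 1) = c.2 + 1
    rw [Nat.sub_add_cancel h1]
    exact Nat.mul_div_cancel' y.2.2.2⟩⟩
  left_inv x := by
    apply Subtype.ext
    refine Prod.ext rfl ?_
    show (c.2 + 1) / ((pk x.1.1.1).2 + 1) - 1 = x.1.2
    rw [← ((pi_eq x.1).1 x.2).2, Nat.mul_div_cancel_left _ (Nat.succ_pos _)]
    rfl
  right_inv y := rfl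

variable (P)

/-- the terms -/
noncomputable def tmG (s : ℂ) (x : {y : Pt R // P y} × ℕ) : ℂ :=
  (τ x.1.1 (qy x.1.1 ^ (x.2 + 1)) / ((x.2 + 1 : ℕ) : ℂ)) *
    ((qy x.1.1 ^ (x.2 + 1) : ℕ) : ℂ) ^ (-s)

variable {P} {c : Nat.Primes × ℕ}

theorem tmG_fib (s : ℂ) (x : {x : {y : Pt R // P y} × ℕ // pi P x = c}) :
    tmG τ P s x.1 = ((((pk (fibEq P c x).1).2 + 1 : ℕ) : ℝ) • τ (fibEq P c x).1 (Qc c)) *
      ((((c.2 + 1 : ℕ) : ℂ)⁻¹) * ((Qc c : ℕ) : ℂ) ^ (-s)) := by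
  unfold tmG
  rw [pi_qy x.1 x.2]
  have h1 : fibEq P c x = ⟨x.1.1.1, x.1.1.2, ((pi_eq x.1).1 x.2).1, Dvd.intro _ ((pi_eq x.1).1 x.2).2⟩ :=
    rfl
  rw [h1, ← mul_assoc, Complex.real_smul]
  congr 1
  have h2 := ((pi_eq x.1).1 x.2).2
  have h3 : (((pk x.1.1.1).2 + 1 : ℕ) : ℂ) * ((x.1.2 + 1 : ℕ) : ℂ) = ((c.2 + 1 : ℕ) : ℂ) := by
    rw [← h2]
    push_cast
    ring
  rw [← h3, Complex.ofReal_natCast]
  have h4 : (((pk x.1.1.1).2 + 1 : ℕ) : ℂ) ≠ 0 := Nat.cast_ne_zero.2 (Nat.succ_ne_zero _)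
  have h5 : ((x.1.2 + 1 : ℕ) : ℂ) ≠ 0 := Nat.cast_ne_zero.2 (Nat.succ_ne_zero _)
  field_simp

/-- the sum of a function over all points with values in the field with `Qc c` elements -/
noncomputable def SG {E : Type} [AddCommMonoid E] (w : Pt R → ℕ → E) (P : Pt R → Prop)
    (c : Nat.Primes × ℕ) : E :=
  letI : Field (exists_F c).choose := (exists_F c).choose_spec.choose
  letI : Fintype (exists_F c).choose := (exists_F c).choose_spec.choose_spec.choose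
  ∑ᶠ φ : {φ : R →+* (exists_F c).choose // P (ptOf φ)}, w (ptOf φ.1) (Qc c)

theorem sg_eq {E : Type} [NormedAddCommGroup E] [NormedSpace ℝ E] (w : Pt R → ℕ → E)
    [Fintype (Yc P c)] : SG w P c =
    ∑ y : Yc P c, (((pk y.1).2 + 1 : ℕ) : ℝ) • w y.1 (Qc c) := by
  letI : Field (exists_F c).choose := (exists_F c).choose_spec.choose
  letI : Fintype (exists_F c).choose := (exists_F c).choose_spec.choose_spec.choose
  have hF : Nat.card (exists_F c).choose = Qc c := by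
    rw [Nat.card_eq_fintype_card]
    exact (exists_F c).choose_spec.choose_spec.choose_spec
  rw [← sum_Yc hF (fun y => w y (Qc c))]
  rfl

/-- the sum for any field with `Qc c` elements -/
theorem sg_eq' {E : Type} [NormedAddCommGroup E] [NormedSpace ℝ E] (w : Pt R → ℕ → E)
    {F : Type} [Field F] [Finite F] (hF : Nat.card F = Qc c) :
    SG w P c = ∑ᶠ φ : {φ : R →+* F // P (ptOf φ)}, w (ptOf φ.1) (Qc c) := by
  have := finite_Yc (P := P) (c := c)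
  let _ := Fintype.ofFinite (Yc P c)
  rw [sg_eq, sum_Yc hF (fun y => w y (Qc c))]

/-- **Absolute convergence.** -/
theorem summable_tmG {s : ℂ}
    (hsm : Summable fun c : Nat.Primes × ℕ => SG (fun y q => ‖τ y q‖) P c * (Qc c : ℝ) ^ (-s.re)) :
    Summable (fun x => ‖tmG τ P s x‖) := by
  classical
  have hfin : ∀ c : Nat.Primes × ℕ, Finite (Yc P c) := fun c => finite_Yc
  let _ : ∀ c : Nat.Primes × ℕ, Fintype (Yc P c) := fun c => Fintype.ofFinite _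
  let _ : ∀ c : Nat.Primes × ℕ, Fintype {x : {y : Pt R // P y} × ℕ // pi P x = c} :=
    fun c => Fintype.ofEquiv _ (fibEq P c).symm
  -- summability
  have hn : ∀ (c : Nat.Primes × ℕ) (x : {x : {y : Pt R // P y} × ℕ // pi P x = c}),
      ‖tmG τ P s x.1‖ = ((((pk (fibEq P c x).1).2 + 1 : ℕ) : ℝ) • ‖τ (fibEq P c x).1 (Qc c)‖) *
        (((c.2 + 1 : ℕ) : ℝ)⁻¹ * (Qc c : ℝ) ^ (-s.re)) := by
    intro c x
    rw [tmG_fib, norm_mul, norm_mul, norm_smul, norm_inv, Complex.norm_natCast,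
      Complex.norm_natCast_cpow_of_pos (Qc_pos c), Complex.neg_re, Real.norm_eq_abs,
      Nat.abs_cast, smul_eq_mul]
  rw [← (Equiv.sigmaFiberEquiv (pi P)).summable_iff]
  refine (summable_sigma_of_nonneg (f := (fun x => ‖tmG τ P s x‖) ∘ (Equiv.sigmaFiberEquiv (pi P)))
    (fun x => norm_nonneg _)).2 ⟨fun c => ?_, ?_⟩
  · exact (hasSum_fintype _).summable
  · refine Summable.of_nonneg_of_le (fun c => tsum_nonneg fun x => norm_nonneg _) (fun c => ?_) hsm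
    rw [tsum_fintype]
    have h2 : ∀ x : {x : {y : Pt R // P y} × ℕ // pi P x = c},
        ((fun x => ‖tmG τ P s x‖) ∘ (Equiv.sigmaFiberEquiv (pi P))) ⟨c, x⟩ =
        ((((pk (fibEq P c x).1).2 + 1 : ℕ) : ℝ) • ‖τ (fibEq P c x).1 (Qc c)‖) *
          (((c.2 + 1 : ℕ) : ℝ)⁻¹ * (Qc c : ℝ) ^ (-s.re)) := fun x => hn c x
    rw [Finset.sum_congr rfl fun x _ => h2 x, ← Finset.sum_mul]
    rw [(fibEq P c).sum_comp (fun y => (((pk y.1).2 + 1 : ℕ) : ℝ) • ‖τ y.1 (Qc c)‖)]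
    have h3 : SG (fun y q => ‖τ y q‖) P c =
        ∑ y : Yc P c, (((pk y.1).2 + 1 : ℕ) : ℝ) • ‖τ y.1 (Qc c)‖ := sg_eq (fun y q => ‖τ y q‖)
    rw [← h3]
    have hQ : (0 : ℝ) < (Qc c : ℝ) := by exact_mod_cast Qc_pos c
    have h4 : ((c.2 + 1 : ℕ) : ℝ)⁻¹ ≤ 1 := inv_le_one_of_one_le₀ (by
      push_cast
      have : (0 : ℝ) ≤ c.2 := Nat.cast_nonneg _
      linarith)
    have hnn : 0 ≤ SG (fun y q => ‖τ y q‖) P c := by
      rw [h3]
      exact Finset.sum_nonneg fun y _ => mul_nonneg (Nat.cast_nonneg _) (norm_nonneg _)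
    refine mul_le_mul_of_nonneg_left ?_ hnn
    exact mul_le_of_le_one_left (by positivity) h4

/-- **The sum over the closed points.** -/
theorem hasSum_ptsG {s : ℂ}
    (hsm : Summable fun c : Nat.Primes × ℕ => SG (fun y q => ‖τ y q‖) P c * (Qc c : ℝ) ^ (-s.re)) :
    HasSum (fun y : {y : Pt R // P y} => ∑' j : ℕ, tmG τ P s (y, j))
      (∑' c : Nat.Primes × ℕ, (SG τ P c * ((c.2 + 1 : ℕ) : ℂ)⁻¹) * ((Qc c : ℕ) : ℂ) ^ (-s)) := by
  classical
  have hfin : ∀ c : Nat.Primes × ℕ, Finite (Yc P c) := fun c => finite_Yc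
  let _ : ∀ c : Nat.Primes × ℕ, Fintype (Yc P c) := fun c => Fintype.ofFinite _
  let _ : ∀ c : Nat.Primes × ℕ, Fintype {x : {y : Pt R // P y} × ℕ // pi P x = c} :=
    fun c => Fintype.ofEquiv _ (fibEq P c).symm
  have hS : Summable (tmG τ P s) := (summable_tmG τ hsm).of_norm
  obtain ⟨S, hS⟩ := hS
  -- the fibres
  have h1 : HasSum ((tmG τ P s) ∘ (Equiv.sigmaFiberEquiv (pi P))) S :=
    (Equiv.sigmaFiberEquiv (pi P)).hasSum_iff.2 hS
  have h2 : HasSum (fun c : Nat.Primes × ℕ => (SG τ P c * ((c.2 + 1 : ℕ) : ℂ)⁻¹) *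
      ((Qc c : ℕ) : ℂ) ^ (-s)) S := by
    refine h1.sigma fun c => ?_
    have h3 := hasSum_fintype (fun x : {x : {y : Pt R // P y} × ℕ // pi P x = c} =>
      ((tmG τ P s) ∘ (Equiv.sigmaFiberEquiv (pi P))) ⟨c, x⟩)
    have h4 : ∀ x : {x : {y : Pt R // P y} × ℕ // pi P x = c},
        ((tmG τ P s) ∘ (Equiv.sigmaFiberEquiv (pi P))) ⟨c, x⟩ =
        ((((pk (fibEq P c x).1).2 + 1 : ℕ) : ℝ) • τ (fibEq P c x).1 (Qc c)) *
      ((((c.2 + 1 : ℕ) : ℂ)⁻¹) * ((Qc c : ℕ) : ℂ) ^ (-s)) := fun x => tmG_fib τ s x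
    rw [Finset.sum_congr rfl fun x _ => h4 x, ← Finset.sum_mul,
      (fibEq P c).sum_comp (fun y => (((pk y.1).2 + 1 : ℕ) : ℝ) • τ y.1 (Qc c)), ← sg_eq τ,
      ← mul_assoc] at h3
    exact h3
  rw [h2.tsum_eq]
  refine hS.prod_fiberwise fun y => ?_
  exact (hS.summable.prod_factor y).hasSum

/-- the terms -/
theorem tmG_eq (s : ℂ) (x : {y : Pt R // P y} × ℕ) : tmG τ P s x =
    τ x.1.1 (qy x.1.1 ^ (x.2 + 1)) * (qy x.1.1 : ℂ) ^ (-(((x.2 + 1 : ℕ) : ℂ) * s)) /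
      ((x.2 + 1 : ℕ) : ℂ) := by
  unfold tmG
  have h3 : ((qy x.1.1 ^ (x.2 + 1) : ℕ) : ℂ) ^ (-s) =
      (qy x.1.1 : ℂ) ^ (-(((x.2 + 1 : ℕ) : ℂ) * s)) := by
    rw [Nat.cast_pow, ← Complex.natCast_cpow_natCast_mul]
    congr 1
    ring
  rw [h3]
  ring

/-- the factor of the Euler product -/
noncomputable def ZG (τ : Pt R → ℕ → ℂ) (y : Pt R) (s : ℂ) : ℂ :=
  Complex.exp (∑' j : ℕ, τ y (qy y ^ (j + 1)) *
    (qy y : ℂ) ^ (-(((j + 1 : ℕ) : ℂ) * s)) / ((j + 1 : ℕ) : ℂ))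

/-- **The Euler product.** -/
theorem hasProd_ptsG {s : ℂ}
    (hsm : Summable fun c : Nat.Primes × ℕ => SG (fun y q => ‖τ y q‖) P c * (Qc c : ℝ) ^ (-s.re)) :
    HasProd (fun y : {y : Pt R // P y} => ZG τ y.1 s)
      (Complex.exp (∑' c : Nat.Primes × ℕ, (SG τ P c * ((c.2 + 1 : ℕ) : ℂ)⁻¹) *
        ((Qc c : ℕ) : ℂ) ^ (-s))) := by
  have h1 := (hasSum_ptsG τ (P := P) hsm).cexp
  have h2 : (fun y : {y : Pt R // P y} => ZG τ y.1 s) =
      Complex.exp ∘ fun y : {y : Pt R // P y} => ∑' j : ℕ, tmG τ P s (y, j) := by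
    funext y
    unfold ZG
    show _ = Complex.exp (∑' j : ℕ, tmG τ P s (y, j))
    congr 1
    refine tsum_congr fun j => ?_
    unfold tmG
    show _ = (τ y.1 (qy y.1 ^ (j + 1)) / ((j + 1 : ℕ) : ℂ)) *
      ((qy y.1 ^ (j + 1) : ℕ) : ℂ) ^ (-s)
    have h3 : ((qy y.1 ^ (j + 1) : ℕ) : ℂ) ^ (-s) = (qy y.1 : ℂ) ^ (-(((j + 1 : ℕ) : ℂ) * s)) := by
      rw [Nat.cast_pow, ← Complex.natCast_cpow_natCast_mul]
      congr 1
      ring
    rw [h3]
    ring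
  rw [h2]
  exact h1

end

end Pool.Agent.L0h11.TF
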