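import Mathlib

/-!
# Powers of generic hypersurface sections over finitely generated fields: definitions

`A` is a finitely generated domain of any characteristic with field of fractions `k`. Varieties over `k`
are given by homogeneous equations over `A`, together with their Frobenius eigenvalues at the closed
points of an open subscheme of `Spec A`.
-/

set_option autoImplicit false

namespace Pool.Agent.L0h11

open Polynomial

/-- The number of the points, with coordinates in the field with `q` elements, of the projective scheme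
over the field `k` defined by a set of homogeneous polynomials. -/
noncomputable def projCount (k : Type) [Field k] {ι : Type} (S : Set (MvPolynomial ι k)) (q : ℕ) : ℝ :=
  ((Nat.card {x : ι → AlgebraicClosure k // (∀ i, x i ^ q = x i) ∧
    ∀ f ∈ S, MvPolynomial.aeval x f = 0} : ℝ) - 1) / ((q : ℝ) - 1)

/-- The same for the fibre at the maximal ideal `I` of a family over a ring `A`. -/
noncomputable def fibreCount {A : Type} [CommRing A] (I : Ideal A) (hI : I.IsMaximal) {ι : Type}
    (S : Set (MvPolynomial ι A)) (q : ℕ) : ℝ :=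
  letI : Field (A ⧸ I) := Ideal.Quotient.field I
  projCount (A ⧸ I) (MvPolynomial.map (Ideal.Quotient.mk I) '' S) q

/-- The absolute dimension of the field of fractions of `A`: its transcendence degree over the prime
field, plus one in characteristic zero. -/
def IsArithmeticDim (A : Type) [CommRing A] [IsDomain A] (δ : ℕ) : Prop :=
  ∃ n : ℕ, Algebra.trdeg (⊥ : Subfield (FractionRing A)) (FractionRing A) = n ∧
    ((CharZero A ∧ δ = n + 1) ∨ (¬ CharZero A ∧ δ = n))

/-- The multisets `E a` consist of the eigenvalues of the Frobenius on the `a`-th cohomology group of the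
fibre at the maximal ideal `I`, with residue field of `q` elements, of a family of smooth projective
varieties of dimension `dim` with the equations `eqs`: there are `betti a` of them, of absolute value
`q ^ (a / 2)`, they satisfy the hard Lefschetz theorem, and they give the numbers of the points over all
finite extensions of the residue field. These properties determine them. -/
structure IsFrobenius {A : Type} [CommRing A] (I : Ideal A) (hI : I.IsMaximal) {M : ℕ}
    (eqs : Set (MvPolynomial (Fin (M + 1)) A)) (dim : ℕ) (betti : ℕ → ℕ) (E : ℕ → Multiset ℂ) :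
    Prop where
  card : ∀ a, Multiset.card (E a) = betti a
  norm : ∀ a, ∀ z ∈ E a, ‖z‖ = √(Nat.card (A ⧸ I) : ℝ) ^ a
  zero : E 0 = {1}
  large : ∀ a, 2 * dim < a → E a = 0
  lefschetz : ∀ j ≤ dim, E (dim + j) = (E (dim - j)).map fun z => (Nat.card (A ⧸ I) : ℂ) ^ j * z
  points : ∀ l : ℕ, 0 < l → (fibreCount I hI eqs (Nat.card (A ⧸ I) ^ l) : ℂ) =
    ∑ a ∈ Finset.range (2 * dim + 1), (-1) ^ a * ((E a).map fun z => z ^ l).sum

/-- A smooth projective geometrically connected variety over the field of fractions `k` of `A`, of
dimension `dim`, with the homogeneous equations `eqs` in `M + 1` variables, with good reduction at the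
closed points of `Spec A` where `good` is not zero; at such a point `I` the `eig a I` are the eigenvalues
of the Frobenius on the `a`-th cohomology group. -/
structure FrobVariety (A : Type) [CommRing A] where
  M : ℕ
  eqs : Set (MvPolynomial (Fin (M + 1)) A)
  dim : ℕ
  betti : ℕ → ℕ
  good : A
  eig : ℕ → Ideal A → Multiset ℂ
  good_ne : good ≠ 0
  homogeneous : ∀ f ∈ eqs, ∃ e : ℕ, 0 < e ∧ f.IsHomogeneous e
  frob : ∀ (I : Ideal A) (hI : I.IsMaximal), good ∉ I →
    IsFrobenius I hI eqs dim betti fun a => eig a I

namespace FrobVariety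

variable {A : Type} [CommRing A] (X : FrobVariety A)

/-- The trace on the `a`-th cohomology of the fibre at `I` of the power of the Frobenius with the field
of definition with `q` elements, where `q` is a power of the norm of `I`. -/
noncomputable def tr (a : ℕ) (I : Ideal A) (q : ℕ) : ℂ :=
  ((X.eig a I).map (fun z => z ^ Nat.log (Nat.card (A ⧸ I)) q)).sum

/-- the polynomial with these traces as coefficients -/
noncomputable def poly (I : Ideal A) (q : ℕ) : ℂ[X] :=
  ∑ a ∈ Finset.range (2 * X.dim + 1), C (X.tr a I q) * Polynomial.X ^ a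

/-- For `dim X = n + 1`: the polynomial with the traces on the image of the cohomology of `X` in the
cohomology of a smooth hypersurface section of `X`, of dimension `n`, as coefficients: by the
theorems of Lefschetz the image is `H ^ b (X)` in the degrees `b ≤ n`, and `H ^ b (X) (b - n)` in the
degrees `2 * n - b`, `b < n`. -/
noncomputable def ambient (I : Ideal A) (q : ℕ) : ℂ[X] :=
  ∑ b ∈ Finset.range (X.dim - 1), C (X.tr b I q) *
    (Polynomial.X ^ b + C ((q : ℂ) ^ (X.dim - 1 - b)) * Polynomial.X ^ (2 * (X.dim - 1) - b)) +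
  C (X.tr (X.dim - 1) I q) * Polynomial.X ^ (X.dim - 1)

/-- The cohomology is of Tate type: it is zero in the odd degrees, and in the degree `2 * j` the
eigenvalues of the Frobenius at the closed points are `q ^ j`. (For instance if `X` is cellular.) -/
def IsTateType : Prop :=
  ∀ (a : ℕ) (I : Ideal A), I.IsMaximal → X.good ∉ I → ∀ z ∈ X.eig a I,
    ∃ j : ℕ, a = 2 * j ∧ z = (Nat.card (A ⧸ I) : ℂ) ^ j

/-- the polynomial with the Betti numbers as coefficients -/
noncomputable def bettiPoly : ℕ[X] :=
  ∑ a ∈ Finset.range (2 * X.dim + 1), C (X.betti a) * Polynomial.X ^ a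

/-- the polynomial with the dimensions of the images of the cohomology of `X` in the cohomology of its
smooth hypersurface sections as coefficients -/
noncomputable def ambientBetti : ℕ[X] :=
  ∑ b ∈ Finset.range (X.dim - 1), C (X.betti b) *
    (Polynomial.X ^ b + Polynomial.X ^ (2 * (X.dim - 1) - b)) +
  C (X.betti (X.dim - 1)) * Polynomial.X ^ (X.dim - 1)

end FrobVariety

/-- the terms of the logarithm of the Euler factor with given traces `τ` at a closed point: for `l ≥ 1`
(here `l + 1`) the trace of the `l`-th power, times `N(y) ^ (- l * s) / l` -/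
noncomputable def logTerm {R : Type} [CommRing R] (τ : MaximalSpectrum R → ℕ → ℂ)
    (y : MaximalSpectrum R) (s : ℂ) (l : ℕ) : ℂ :=
  τ y (Nat.card (R ⧸ y.asIdeal) ^ (l + 1)) *
    (Nat.card (R ⧸ y.asIdeal) : ℂ) ^ (-(((l + 1 : ℕ) : ℂ) * s)) / ((l + 1 : ℕ) : ℂ)

/-- the Euler factor with given traces `τ` at a closed point -/
noncomputable def factor {R : Type} [CommRing R] (τ : MaximalSpectrum R → ℕ → ℂ)
    (y : MaximalSpectrum R) (s : ℂ) : ℂ :=
  Complex.exp (∑' l : ℕ, logTerm τ y s l)

/-- the Euler product over the closed points with the property `P` -/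
noncomputable def eulerProduct {R : Type} [CommRing R] (τ : MaximalSpectrum R → ℕ → ℂ)
    (P : MaximalSpectrum R → Prop) (s : ℂ) : ℂ :=
  ∏' y : {y : MaximalSpectrum R // P y}, factor τ y.1 s

/-- The Euler product converges absolutely at `s`: the double series of the logarithms of the factors
converges absolutely, and the product is convergent. -/
def Converges {R : Type} [CommRing R] (τ : MaximalSpectrum R → ℕ → ℂ)
    (P : MaximalSpectrum R → Prop) (s : ℂ) : Prop :=
  (Summable fun x : {y : MaximalSpectrum R // P y} × ℕ => ‖logTerm τ x.1.1 s x.2‖) ∧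
    Multipliable fun y : {y : MaximalSpectrum R // P y} => factor τ y.1 s

/-- The order of the pole of `L` at the real number `s₀` is `ρ`: `(s - s₀) ^ ρ * L(s)` has a finite nonzero
limit for `s → s₀` from the right. -/
def HasPoleOrder (L : ℂ → ℂ) (s₀ : ℝ) (ρ : ℤ) : Prop :=
  ∃ c : ℂ, c ≠ 0 ∧ Filter.Tendsto (fun s : ℝ => ((s : ℂ) - (s₀ : ℂ)) ^ ρ * L s)
    (nhdsWithin s₀ (Set.Ioi s₀)) (nhds c)

/-- the monomials of degree `d` in `M + 1` variables -/
abbrev Monomials (M d : ℕ) : Type := {α : Fin (M + 1) → Fin (d + 1) // ∑ i, (α i : ℕ) = d}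

/-- The powers `X × Y ^ r`: here `X` and `Z` are varieties over `k`, `Y` is the section of `Z` with the
generic hypersurface of degree `d`, a variety over the field `K` of rational functions over `k` in the
coefficients of this hypersurface. It is required that `r < 2 * u` and `2 * u ≤ d + 1` for some `u`. -/
structure SectionPower (A : Type) [CommRing A] where
  X : FrobVariety A
  Z : FrobVariety A
  d : ℕ
  r : ℕ
  u : ℕ
  two_le : 2 ≤ Z.dim
  r_lt : r < 2 * u
  u_le : 2 * u ≤ d + 1

namespace SectionPower

variable {A : Type} [CommRing A] (T : SectionPower A)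

/-- the number of the coefficients -/
def N : ℕ := Fintype.card (Monomials T.Z.M T.d)

/-- the ring of polynomials in the coefficients; its field of fractions is `K` -/
abbrev B : Type := MvPolynomial (Monomials T.Z.M T.d) A

/-- the generic form of degree `d` -/
noncomputable def form : MvPolynomial (Fin (T.Z.M + 1)) T.B :=
  ∑ α : Monomials T.Z.M T.d, MvPolynomial.C (MvPolynomial.X α) *
    ∏ i, MvPolynomial.X i ^ (α.1 i : ℕ)

/-- The open subscheme `N₁ ≠ 0` of `Spec B` is nonempty, and `X` and `Z` have good reduction at its
points. -/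
def IsModel (N₁ : T.B) : Prop :=
  N₁ ≠ 0 ∧ ∀ y : MaximalSpectrum T.B, N₁ ∉ y.asIdeal →
    T.X.good ∉ y.asIdeal.comap MvPolynomial.C ∧ T.Z.good ∉ y.asIdeal.comap MvPolynomial.C

/-- the number of the points of the fibre of `Y` at `y` with values in the field with `q` elements -/
noncomputable def sectionCount (y : MaximalSpectrum T.B) (q : ℕ) : ℝ :=
  fibreCount y.asIdeal y.isMaximal
    (insert T.form (MvPolynomial.map (MvPolynomial.C : A →+* T.B) '' T.Z.eqs)) q

/-- The polynomial with the traces on the cohomology of the fibre of `Y` at `y` as coefficients, when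
this fibre is smooth: by the theorems of Lefschetz the coefficients outside the middle degree
`n = dim Z - 1` are those of `T.Z.ambient`, and the value at `-1` is the number of the points. -/
noncomputable def sectionPoly (y : MaximalSpectrum T.B) (q : ℕ) : ℂ[X] :=
  T.Z.ambient (y.asIdeal.comap MvPolynomial.C) q +
    C ((-1) ^ (T.Z.dim - 1) * ((T.sectionCount y q : ℂ) -
      (T.Z.ambient (y.asIdeal.comap MvPolynomial.C) q).eval (-1))) * Polynomial.X ^ (T.Z.dim - 1)

/-- the trace on `H ^ (2 * i)` of the fibre of `X × Y ^ r` at `y`, by the formula of Künneth -/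
noncomputable def trace (i : ℕ) (y : MaximalSpectrum T.B) (q : ℕ) : ℂ :=
  (T.X.poly (y.asIdeal.comap MvPolynomial.C) q * T.sectionPoly y q ^ T.r).coeff (2 * i)

/-- The trace on the part of degree `2 * i - 2 * n * f` of `H(X) ⊗ H(Z)_amb ^ (r - 2 * f)` at the closed
point `y` of `Spec A`, where `H(Z)_amb` is the image of the cohomology of `Z` in the cohomology of its
smooth hypersurface sections; zero if `n * f > i`. -/
noncomputable def baseTrace (i f : ℕ) (y : MaximalSpectrum A) (q : ℕ) : ℂ :=
  if (T.Z.dim - 1) * f ≤ i then
    (T.X.poly y.asIdeal q * T.Z.ambient y.asIdeal q ^ (T.r - 2 * f)).coeff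
      (2 * (i - (T.Z.dim - 1) * f)) else 0

/-- the closed points of the open subscheme `N₁ ≠ 0` of `Spec B` -/
def Upper (N₁ : T.B) (y : MaximalSpectrum T.B) : Prop := N₁ ∉ y.asIdeal

/-- the closed points of the image of this open subscheme in `Spec A`: those modulo which `N₁` is not
zero -/
def Lower (N₁ : T.B) (y : MaximalSpectrum A) : Prop :=
  MvPolynomial.map (Ideal.Quotient.mk y.asIdeal) N₁ ≠ 0

/-- The L-function of `H ^ (2 * i) (X × Y ^ r)`, the Euler product over the closed points of the open
subscheme `N₁ ≠ 0` of `Spec B`. -/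
noncomputable def LFunction (i : ℕ) (N₁ : T.B) : ℂ → ℂ := eulerProduct (T.trace i) (T.Upper N₁)

/-- The L-function of the part of degree `2 * i - 2 * n * f` of `H(X) ⊗ H(Z)_amb ^ (r - 2 * f)`, the Euler
product over the closed points of the image of this open subscheme in `Spec A`. -/
noncomputable def baseLFunction (i f : ℕ) (N₁ : T.B) : ℂ → ℂ :=
  eulerProduct (T.baseTrace i f) (T.Lower N₁)

/-- the point `i + dim_a(K) = i + N + dim_a(k)`, where `δ = dim_a(k)` -/
noncomputable def edge (δ i : ℕ) : ℝ := T.N + i + δ

/-- the point `i - n * f + dim_a(k)` -/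
noncomputable def baseEdge (δ i f : ℕ) : ℝ := (i : ℝ) - ((T.Z.dim - 1) * f : ℕ) + δ

/-- the `f ≤ r / 2` with `n * f ≤ i`, `n = dim Y` -/
def levels (i : ℕ) : Finset ℕ := {f ∈ Finset.range (T.r / 2 + 1) | (T.Z.dim - 1) * f ≤ i}

/-- the dimension of the part of degree `2 * i - 2 * n * f` of `H(X) ⊗ H(Z)_amb ^ (r - 2 * f)` -/
noncomputable def tateRank (i f : ℕ) : ℕ :=
  (T.X.bettiPoly * T.Z.ambientBetti ^ (T.r - 2 * f)).coeff (2 * (i - (T.Z.dim - 1) * f))

/-- The number of the perfect matchings of the subsets with `2 * f` elements of the set of the `r` factors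
`Y`: `binom(r, 2 f)` times the number of the fixed point free involutions of a set with `2 f` elements,
which is `1 * 3 * ... * (2 f - 1)`. -/
noncomputable def mult (f : ℕ) : ℕ :=
  T.r.choose (2 * f) *
    Nat.card {π : Equiv.Perm (Fin (2 * f)) // (∀ j, π (π j) = j) ∧ ∀ j, π j ≠ j}

/-- The factorization: `L(H ^ (2 * i) (X × Y ^ r), s)` is, to the right of the edge `s₀`, the product of the
`mult f`-th powers of the L-functions over `k`, shifted by `N + n * f`, and of a function that is analytic
and without zeros for `Re s > s₀ - 1 / (2 * u)`. -/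
def Factorizes (δ i : ℕ) (N₁ : T.B) : Prop :=
  ∃ G : ℂ → ℂ, AnalyticOnNhd ℂ G {s : ℂ | T.edge δ i - 1 / (2 * T.u : ℕ) < s.re} ∧
    (∀ s, G s ≠ 0) ∧ ∀ s : ℂ, T.edge δ i < s.re → T.LFunction i N₁ s =
      G s * ∏ f ∈ T.levels i, T.baseLFunction i f N₁ (s - T.N - ((T.Z.dim - 1) * f : ℕ)) ^ T.mult f

end SectionPower

end Pool.Agent.L0h11
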