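import Mathlib
import Pool.Agent.L0h11.Hb

/-!
# Moments of the numbers of zeros
-/

set_option autoImplicit false
set_option linter.all false

namespace Pool.Agent.L0h11.TF

open Finset
open Pool.Agent.L0h11.CC

section surj

variable {V W : Type} [AddCommGroup V] [Fintype V] [AddCommGroup W] [Fintype W]

/-- sums over the fibres of a surjective homomorphism -/
lemma sum_surj {L : V →+ W} (hL : Function.Surjective L) (H : W → ℝ) :
    (Fintype.card W : ℝ) * ∑ t, H (L t) = Fintype.card V * ∑ w, H w := by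
  have h1 : ∀ w₀ : W, ∑ t, H (L t + w₀) = ∑ t, H (L t) := by
    intro w₀
    obtain ⟨t₀, rfl⟩ := hL w₀
    refine Eq.trans ?_ (Equiv.sum_comp (Equiv.addRight t₀) (fun t => H (L t)))
    refine sum_congr rfl fun t _ => ?_
    rw [Equiv.coe_addRight, map_add]
  have h2 : ∑ w₀ : W, ∑ t, H (L t + w₀) = Fintype.card W * ∑ t, H (L t) := by
    rw [sum_congr rfl fun w₀ _ => h1 w₀, sum_const, card_univ, nsmul_eq_mul]
  have h3 : ∑ w₀ : W, ∑ t, H (L t + w₀) = Fintype.card V * ∑ w, H w := by
    rw [sum_comm]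
    have h4 : ∀ t : V, ∑ w₀ : W, H (L t + w₀) = ∑ w, H w := fun t =>
      Equiv.sum_comp (Equiv.addLeft (L t)) H
    rw [sum_congr rfl fun t _ => h4 t, sum_const, card_univ, nsmul_eq_mul]
  rw [← h2, h3]

end surj

section

variable {F : Type} [Field F] [Fintype F] [DecidableEq F] {V S : Type} [AddCommGroup V] [Fintype V]
  [Fintype S] [DecidableEq S] (ev : S → V →+ F)

/-- the values at the points of every set of at most `m` points are independent -/
def Indep (m : ℕ) : Prop :=
  ∀ D : Finset S, D.card ≤ m → ∀ w : S → F, ∃ t : V, ∀ x ∈ D, ev x t = w x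

/-- the centred indicator -/
noncomputable def gg (z : F) : ℝ := (if z = 0 then 1 else 0) - (Fintype.card F : ℝ)⁻¹

/-- its moments -/
noncomputable def mm (F : Type) [Field F] [Fintype F] [DecidableEq F] (k : ℕ) : ℝ :=
  (Fintype.card F : ℝ)⁻¹ * ∑ z : F, gg z ^ k

lemma card_pos' : (0 : ℝ) < Fintype.card F := Nat.cast_pos.2 Fintype.card_pos

lemma two_le_card : (2 : ℝ) ≤ Fintype.card F := by
  have := Fintype.one_lt_card (α := F)
  exact_mod_cast this

lemma mm_eq (k : ℕ) : mm F k = (Fintype.card F : ℝ)⁻¹ * (1 - (Fintype.card F : ℝ)⁻¹) ^ k +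
    (1 - (Fintype.card F : ℝ)⁻¹) * (-(Fintype.card F : ℝ)⁻¹) ^ k := by
  have hq := card_pos' (F := F)
  unfold mm
  rw [← add_sum_erase univ _ (mem_univ (0 : F))]
  have h1 : ∀ z ∈ univ.erase (0 : F), gg z ^ k = (-(Fintype.card F : ℝ)⁻¹) ^ k := by
    intro z hz
    unfold gg
    rw [if_neg (ne_of_mem_erase hz), zero_sub]
  rw [sum_congr rfl h1, sum_const, card_erase_of_mem (mem_univ _), card_univ, nsmul_eq_mul,
    Nat.cast_sub Fintype.card_pos]
  unfold gg
  rw [if_pos rfl, Nat.cast_one]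
  field_simp

lemma mm_one : mm F 1 = 0 := by
  rw [mm_eq]
  ring

lemma mm_two : mm F 2 = (Fintype.card F : ℝ)⁻¹ * (1 - (Fintype.card F : ℝ)⁻¹) := by
  rw [mm_eq]
  have hq := card_pos' (F := F)
  ring

lemma mm_le {k : ℕ} (hk : 2 ≤ k) : |mm F k| ≤ (Fintype.card F : ℝ)⁻¹ := by
  have hq := card_pos' (F := F)
  have hq2 := two_le_card (F := F)
  set a := (Fintype.card F : ℝ)⁻¹ with ha
  have ha0 : 0 < a := inv_pos.2 hq
  have ha1 : a ≤ 1 := inv_le_one_of_one_le₀ (by linarith)
  rw [mm_eq, ← ha]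
  have h1 : |a * (1 - a) ^ k + (1 - a) * (-a) ^ k| ≤ a * (1 - a) ^ k + (1 - a) * a ^ k := by
    refine (abs_add_le _ _).trans ?_
    rw [abs_mul, abs_mul, abs_pow, abs_pow, abs_neg, abs_of_pos ha0, abs_of_nonneg (by linarith : 0 ≤ 1 - a)]
  refine h1.trans ?_
  have h2 : (1 - a) ^ k ≤ (1 - a) ^ 1 := pow_le_pow_of_le_one (by linarith) (by linarith) (by omega)
  have h3 : a ^ k ≤ a ^ 2 := pow_le_pow_of_le_one ha0.le ha1 hk
  nlinarith [mul_le_mul_of_nonneg_left h2 ha0.le, mul_le_mul_of_nonneg_left h3 (by linarith : 0 ≤ 1 - a)]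

/-- independent values -/
lemma sum_indep {m : ℕ} (hI : Indep ev m) {D : Finset S} (hD : D.card ≤ m) (k : S → ℕ) :
    ∑ t, ∏ x ∈ D, gg (ev x t) ^ k x = Fintype.card V * ∏ x ∈ D, mm F (k x) := by
  classical
  let L : V →+ (D → F) :=
    { toFun := fun t x => ev x.1 t
      map_zero' := by funext x; exact map_zero _
      map_add' := fun a b => by funext x; exact map_add _ _ _ }
  have hL : Function.Surjective L := by
    intro w
    obtain ⟨t, ht⟩ := hI D hD (fun x => if h : x ∈ D then w ⟨x, h⟩ else 0)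
    refine ⟨t, funext fun x => ?_⟩
    show ev x.1 t = w x
    rw [ht x.1 x.2, dif_pos x.2]
  have h1 := sum_surj hL (fun w => ∏ x : D, gg (w x) ^ k x.1)
  have h2 : ∀ t, ∏ x : D, gg (L t x) ^ k x.1 = ∏ x ∈ D, gg (ev x t) ^ k x := by
    intro t
    exact prod_coe_sort D (fun x => gg (ev x t) ^ k x)
  rw [sum_congr rfl fun t _ => h2 t] at h1
  have h3 : ∑ w : D → F, ∏ x : D, gg (w x) ^ k x.1 = ∏ x : D, ∑ z : F, gg z ^ k x.1 := by
    rw [prod_univ_sum, Fintype.piFinset_univ]
  rw [h3] at h1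
  have h4 : ∏ x : D, ∑ z : F, gg z ^ k x.1 = ∏ x ∈ D, ∑ z : F, gg z ^ k x :=
    prod_coe_sort D (fun x => ∑ z : F, gg z ^ k x)
  have h5 : ∏ x ∈ D, mm F (k x) = ((Fintype.card F : ℝ)⁻¹) ^ D.card * ∏ x ∈ D, ∑ z : F, gg z ^ k x := by
    unfold mm
    rw [prod_mul_distrib, prod_const]
  rw [Fintype.card_fun, Fintype.card_coe, h4] at h1
  rw [h5]
  have hq := card_pos' (F := F)
  have hqD : (0 : ℝ) < (Fintype.card F : ℝ) ^ D.card := by positivity
  push_cast at h1
  rw [inv_pow]
  field_simp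
  linarith [h1]

/-- the moment of a family of points -/
noncomputable def EE {k : ℕ} (F : Type) [Field F] [Fintype F] [DecidableEq F] (x : Fin k → S) : ℝ :=
  ∏ v ∈ univ.image x, mm F (univ.filter fun j => x j = v).card

/-- the moments -/
theorem moment_eq {m k : ℕ} (hI : Indep ev m) (hk : k ≤ m) :
    ∑ t, (∑ x, gg (ev x t)) ^ k = Fintype.card V * ∑ x : Fin k → S, EE F x := by
  have h1 : ∀ t, (∑ x, gg (ev x t)) ^ k = ∑ x : Fin k → S, ∏ j, gg (ev (x j) t) := by
    intro t
    exact Fintype.sum_pow _ _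
  rw [sum_congr rfl fun t _ => h1 t, sum_comm, mul_sum]
  refine sum_congr rfl fun x _ => ?_
  have h2 : ∀ t, ∏ j, gg (ev (x j) t) =
      ∏ v ∈ univ.image x, gg (ev v t) ^ (univ.filter fun j => x j = v).card := by
    intro t
    exact prod_comp (fun v => gg (ev v t)) x
  rw [sum_congr rfl fun t _ => h2 t]
  refine sum_indep ev hI ?_ (fun v => (univ.filter fun j => x j = v).card)
  exact (card_image_le.trans (by rw [card_univ, Fintype.card_fin])).trans hk

/-- the sign -/
abbrev one2 (k : ℕ) : Fin k → ZMod 2 := fun _ => 1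

lemma EE_zero {k : ℕ} {x : Fin k → S} {v : S} (hv : v ∈ univ.image x)
    (h : (univ.filter fun j => x j = v).card = 1) : EE F x = 0 := by
  unfold EE
  refine prod_eq_zero hv ?_
  rw [h, mm_one]

lemma EE_le {k : ℕ} (x : Fin k → S) : |EE F x| ≤ ((Fintype.card F : ℝ)⁻¹) ^ (univ.image x).card := by
  by_cases h : ∃ v ∈ univ.image x, (univ.filter fun j => x j = v).card = 1
  · obtain ⟨v, hv, h1⟩ := h
    rw [EE_zero hv h1, abs_zero]
    exact pow_nonneg (inv_nonneg.2 (card_pos' (F := F)).le) _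
  · push Not at h
    unfold EE
    rw [abs_prod, ← prod_const]
    refine prod_le_prod (fun _ _ => abs_nonneg _) fun v hv => ?_
    apply mm_le
    have h1 : 0 < (univ.filter fun j => x j = v).card := by
      obtain ⟨j, -, hj⟩ := mem_image.1 hv
      exact card_pos.2 ⟨j, by rw [mem_filter]; exact ⟨mem_univ _, hj⟩⟩
    have h2 := h v hv
    omega

open Classical in
lemma EE_eq {k : ℕ} (x : Fin k → S) (hx : k ≤ 2 * (univ.image x).card) :
    EE F x = if Triv (one2 k) x then √(mm F 2) ^ k else 0 := by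
  have hsum : k = ∑ v ∈ univ.image x, (univ.filter fun j => x j = v).card := by
    conv_lhs => rw [← Fintype.card_fin k, ← card_univ]
    exact card_eq_sum_card_image x univ
  have hpos : ∀ v ∈ univ.image x, 0 < (univ.filter fun j => x j = v).card := by
    intro v hv
    obtain ⟨j, -, hj⟩ := mem_image.1 hv
    exact card_pos.2 ⟨j, by rw [mem_filter]; exact ⟨mem_univ _, hj⟩⟩
  have htr : ∀ v, ∑ j with x j = v, one2 k j = (((univ.filter fun j => x j = v).card : ℕ) : ZMod 2) := by
    intro v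
    rw [sum_const, nsmul_eq_mul, mul_one]
  by_cases h : ∃ v ∈ univ.image x, (univ.filter fun j => x j = v).card = 1
  · obtain ⟨v, hv, h1⟩ := h
    rw [EE_zero hv h1, if_neg]
    intro hT
    have h2 := hT v
    rw [htr, h1, Nat.cast_one] at h2
    exact one_ne_zero h2
  · push Not at h
    have h2 : ∀ v ∈ univ.image x, 2 ≤ (univ.filter fun j => x j = v).card := by
      intro v hv
      have h3 := hpos v hv
      have h4 := h v hv
      omega
    have h3 : ∀ v ∈ univ.image x, (univ.filter fun j => x j = v).card = 2 := by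
      intro v hv
      by_contra hcon
      have h5 : 2 < (univ.filter fun j => x j = v).card := lt_of_le_of_ne (h2 v hv) (Ne.symm hcon)
      have h6 : ∑ _v ∈ univ.image x, 2 < ∑ v ∈ univ.image x, (univ.filter fun j => x j = v).card :=
        sum_lt_sum h2 ⟨v, hv, h5⟩
      rw [sum_const, smul_eq_mul, ← hsum] at h6
      omega
    have h4 : k = 2 * (univ.image x).card := by
      refine hsum.trans ?_
      rw [sum_congr rfl h3, sum_const, smul_eq_mul, mul_comm]
    rw [if_pos]
    · unfold EE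
      rw [prod_congr rfl fun v hv => by rw [h3 v hv], prod_const]
      have h5 : 0 ≤ mm F 2 := by
        rw [mm_two]
        have hq := card_pos' (F := F)
        have hq2 := two_le_card (F := F)
        have ha1 : (Fintype.card F : ℝ)⁻¹ ≤ 1 := inv_le_one_of_one_le₀ (by linarith)
        exact mul_nonneg (inv_nonneg.2 hq.le) (by linarith)
      conv_rhs => rw [h4]
      rw [pow_mul, Real.sq_sqrt h5]
    · intro v
      rw [htr]
      by_cases hv : v ∈ univ.image x
      · rw [h3 v hv]
        rfl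
      · have h6 : (univ.filter fun j => x j = v) = ∅ := by
          rw [filter_eq_empty_iff]
          intro j _ hj
          exact hv (mem_image.2 ⟨j, mem_univ _, hj⟩)
        rw [h6, card_empty, Nat.cast_zero]

end

end Pool.Agent.L0h11.TF
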