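import Mathlib
import Pool.Agent.L0h11.I.Mo

/-!
# Moments of the numbers of zeros: asymptotics
-/

set_option autoImplicit false
set_option linter.all false

namespace Pool.Agent.L0h11.TF

open Finset
open Pool.Agent.L0h11.CC

section

variable {F : Type} [Field F] [Fintype F] [DecidableEq F] {V S : Type} [AddCommGroup V] [Fintype V]
  [Fintype S] [DecidableEq S] (ev : S → V →+ F)

/-- the constant -/
noncomputable def KM (k : ℕ) : ℝ :=
  ((1 + k.factorial : ℕ) * (k ^ k : ℕ) : ℝ) + 2 * (k ^ k : ℕ) * (k + 1 : ℕ)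

lemma KM_nonneg (k : ℕ) : 0 ≤ KM k := by unfold KM; positivity

lemma mm_two_nonneg : 0 ≤ mm F 2 := by
  rw [mm_two]
  have hq := card_pos' (F := F)
  have hq2 := two_le_card (F := F)
  have ha1 : (Fintype.card F : ℝ)⁻¹ ≤ 1 := inv_le_one_of_one_le₀ (by linarith)
  exact mul_nonneg (inv_nonneg.2 hq.le) (by linarith)

lemma mm_two_le : √(mm F 2) ≤ (√(Fintype.card F : ℝ))⁻¹ := by
  rw [← Real.sqrt_inv]
  apply Real.sqrt_le_sqrt
  exact (le_abs_self _).trans (mm_le le_rfl)

/-- the number of the perfect matchings -/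
lemma card_Mt (k : ℕ) : (Mt (one2 k)).card =
    Nat.card {π : Equiv.Perm (Fin k) // (∀ j, π (π j) = j) ∧ ∀ j, π j ≠ j} := by
  classical
  rw [Nat.card_eq_fintype_card, Fintype.card_subtype]
  congr 1
  ext π
  rw [mem_Mt, mem_filter]
  constructor
  · rintro ⟨h1, h2, -⟩
    exact ⟨mem_univ _, h1, h2⟩
  · rintro ⟨-, h1, h2⟩
    exact ⟨h1, h2, fun j => by show (1 : ZMod 2) + 1 = 0; rfl⟩

/-- few values -/
lemma card_img' {k v : ℕ} (hk : 0 < k) (hvk : v ≤ k) :
    (univ.filter fun x : Fin k → S => (univ.image x).card ≤ v).card ≤ k ^ k * Fintype.card S ^ v := by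
  calc (univ.filter fun x : Fin k → S => (univ.image x).card ≤ v).card
      ≤ ((univ : Finset ((Fin k → Fin v) × (Fin v → S))).image fun z => z.2 ∘ z.1).card := by
        refine card_le_card fun x hx => ?_
        rw [mem_filter] at hx
        have hx2 : (univ.image x).card ≤ v := hx.2
        rw [mem_image]
        let s := univ.image x
        let E := s.equivFin
        refine ⟨(fun j => Fin.castLE hx2 (E ⟨x j, mem_image_of_mem x (mem_univ j)⟩),
          fun i => if h : i.1 < s.card then (E.symm ⟨i.1, h⟩ : S) else x ⟨0, hk⟩), mem_univ _, ?_⟩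
        funext j
        have h2 : (Fin.castLE hx2 (E ⟨x j, mem_image_of_mem x (mem_univ j)⟩)).1 < s.card :=
          (E ⟨x j, mem_image_of_mem x (mem_univ j)⟩).2
        have h3 : E.symm ⟨(Fin.castLE hx2 (E ⟨x j, mem_image_of_mem x (mem_univ j)⟩)).1, h2⟩ =
            ⟨x j, mem_image_of_mem x (mem_univ j)⟩ := by
          rw [Equiv.symm_apply_eq]
          rfl
        exact (dif_pos h2).trans (congrArg Subtype.val h3)
    _ ≤ ((univ : Finset ((Fin k → Fin v) × (Fin v → S)))).card := card_image_le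
    _ = v ^ k * Fintype.card S ^ v := by
        rw [card_univ, Fintype.card_prod, Fintype.card_fun, Fintype.card_fun, Fintype.card_fin,
          Fintype.card_fin]
    _ ≤ k ^ k * Fintype.card S ^ v := Nat.mul_le_mul_right _ (Nat.pow_le_pow_left hvk k)

open Classical in
theorem sum_EE {k n : ℕ} (hn : 1 ≤ n) {C : ℝ} (hC : 1 ≤ C)
    (hz : (Fintype.card S : ℝ) ≤ C * (Fintype.card F : ℝ) ^ (n + 1)) :
    |∑ x : Fin k → S, EE F x -
      ((Mt (one2 k)).card : ℝ) * √((Fintype.card S : ℝ) * mm F 2) ^ k| * √(Fintype.card F : ℝ) ≤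
      KM k * (C ^ k * √((Fintype.card F : ℝ) ^ n) ^ k) := by
  set q : ℝ := (Fintype.card F : ℝ) with hq
  set z : ℝ := (Fintype.card S : ℝ) with hzd
  have hq0 : 0 < q := card_pos' (F := F)
  have hq2 : 2 ≤ q := two_le_card (F := F)
  have hs0 : 0 < √q := Real.sqrt_pos.2 hq0
  have hs1 : 1 ≤ √q := Real.one_le_sqrt.2 (by linarith)
  have hqn : √q ≤ √(q ^ n) := Real.sqrt_le_sqrt (le_self_pow₀ (by linarith) (by omega))
  have hqn1 : 1 ≤ √(q ^ n) := hs1.trans hqn
  have hM0 := mm_two_nonneg (F := F)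
  have hM1 : √(mm F 2) ≤ (√q)⁻¹ := mm_two_le
  have hR0 : 0 ≤ C ^ k * √(q ^ n) ^ k := by positivity
  rcases Nat.eq_zero_or_pos k with hk | hk
  · subst hk
    have h1 : ∑ x : Fin 0 → S, EE F x = 1 := by
      rw [Fintype.sum_unique]
      unfold EE
      rw [univ_eq_empty, image_empty, prod_empty]
    have h2 : (Mt (one2 0)).card = 1 := by
      rw [card_eq_one]
      refine ⟨1, ?_⟩
      ext π
      rw [mem_Mt, mem_singleton]
      constructor
      · intro _
        exact Subsingleton.elim _ _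
      · intro _
        exact ⟨fun j => j.elim0, fun j => j.elim0, fun j => j.elim0⟩
    rw [h1, h2, pow_zero, Nat.cast_one, mul_one, sub_self, abs_zero, zero_mul]
    exact mul_nonneg (KM_nonneg 0) hR0
  rcases isEmpty_or_nonempty S with hS | hS
  · have h1 : IsEmpty (Fin k → S) := ⟨fun x => hS.elim (x ⟨0, hk⟩)⟩
    have h2 : z = 0 := by
      rw [hzd, Fintype.card_eq_zero, Nat.cast_zero]
    rw [univ_eq_empty, sum_empty, h2, zero_mul, Real.sqrt_zero, zero_pow hk.ne', mul_zero, sub_zero,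
      abs_zero, zero_mul]
    exact mul_nonneg (KM_nonneg k) hR0
  have hz1 : 1 ≤ z := Nat.one_le_cast.2 Fintype.card_pos
  have hz0 : 0 < √z := Real.sqrt_pos.2 (by linarith)
  have hy : z / q ≤ C * q ^ n := by
    rw [div_le_iff₀ hq0]
    calc z ≤ C * q ^ (n + 1) := hz
      _ = C * q ^ n * q := by ring
  have hcount := count (F := S) (one2 k) (fun j => one_ne_zero)
  rw [Fintype.card_fin, ← hzd] at hcount
  set C₀ : ℝ := ((1 + k.factorial : ℕ) * (k ^ k : ℕ) : ℝ) with hC₀
  have hC₀0 : 0 ≤ C₀ := by positivity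
  set T := (univ.filter fun x : Fin k → S => Triv (one2 k) x) with hT
  set Sm := (univ.filter fun x : Fin k → S => 2 * (univ.image x).card < k) with hSm
  set μ : ℝ := ((Mt (one2 k)).card : ℝ) with hμ
  set E : (Fin k → S) → ℝ := fun x => if Triv (one2 k) x then √(mm F 2) ^ k else 0 with hE
  have hdec : ∑ x : Fin k → S, EE F x = ∑ x, E x + ∑ x ∈ Sm, (EE F x - E x) := by
    have h1 : ∑ x ∈ Sm, (EE F x - E x) = ∑ x, (EE F x - E x) := by
      rw [hSm, sum_filter]
      refine sum_congr rfl fun x _ => ?_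
      split_ifs with h
      · rfl
      · rw [EE_eq x (not_lt.1 h), sub_self]
    rw [h1, sum_sub_distrib]
    ring
  have hEs : ∑ x, E x = √(mm F 2) ^ k * T.card := by
    rw [hE, hT]
    simp only
    rw [← sum_filter, sum_const, nsmul_eq_mul, mul_comm]
  have hsq : √(z * mm F 2) ^ k = √(mm F 2) ^ k * √z ^ k := by
    rw [Real.sqrt_mul (by linarith), mul_pow, mul_comm]
  have e0 : ∑ x : Fin k → S, EE F x - μ * √(z * mm F 2) ^ k =
      √(mm F 2) ^ k * (T.card - μ * √z ^ k) + ∑ x ∈ Sm, (EE F x - E x) := by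
    rw [hdec, hEs, hsq]
    ring
  rw [e0]
  obtain ⟨k', rfl⟩ : ∃ k', k = k' + 1 := ⟨k - 1, by omega⟩
  have hCk : ∀ a : ℕ, a ≤ k' + 1 → C ^ a ≤ C ^ (k' + 1) := fun a ha => pow_le_pow_right₀ hC ha
  -- the first term
  have b1 : |√(mm F 2) ^ (k' + 1) * (T.card - μ * √z ^ (k' + 1))| * √q ≤
      C₀ * (C ^ (k' + 1) * √(q ^ n) ^ (k' + 1)) := by
    have h1 : |(T.card : ℝ) - μ * √z ^ (k' + 1)| ≤ C₀ * √z ^ k' := by
      have h2 : |(T.card : ℝ) - μ * √z ^ (k' + 1)| * √z ≤ (C₀ * √z ^ k') * √z := by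
        refine hcount.trans (le_of_eq ?_)
        rw [hC₀]
        ring
      exact le_of_mul_le_mul_right h2 hz0
    have h3 : √(mm F 2) ^ (k' + 1) ≤ ((√q)⁻¹) ^ (k' + 1) := pow_le_pow_left₀ (Real.sqrt_nonneg _) hM1 _
    have h4 : ((√q)⁻¹) ^ (k' + 1) * √z ^ k' * √q = √(z / q) ^ k' := by
      rw [Real.sqrt_div (by linarith), div_pow, inv_pow, pow_succ (√q) k']
      field_simp
    have h5 : √(z / q) ^ k' ≤ C ^ (k' + 1) * √(q ^ n) ^ (k' + 1) := by
      calc √(z / q) ^ k' ≤ √(C * q ^ n) ^ k' :=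
            pow_le_pow_left₀ (Real.sqrt_nonneg _) (Real.sqrt_le_sqrt hy) _
        _ = √C ^ k' * √(q ^ n) ^ k' := by rw [Real.sqrt_mul (by linarith), mul_pow]
        _ ≤ C ^ k' * √(q ^ n) ^ k' := by
            refine mul_le_mul_of_nonneg_right ?_ (by positivity)
            refine pow_le_pow_left₀ (Real.sqrt_nonneg _) ?_ _
            exact Real.sqrt_le_iff.2 ⟨by linarith, by nlinarith⟩
        _ ≤ C ^ (k' + 1) * √(q ^ n) ^ (k' + 1) :=
            mul_le_mul (hCk _ (by omega)) (pow_le_pow_right₀ hqn1 (by omega)) (by positivity)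
              (by positivity)
    rw [abs_mul, abs_of_nonneg (pow_nonneg (Real.sqrt_nonneg _) _)]
    calc _ ≤ ((√q)⁻¹) ^ (k' + 1) * (C₀ * √z ^ k') * √q := by
          refine mul_le_mul_of_nonneg_right ?_ hs0.le
          exact mul_le_mul h3 h1 (abs_nonneg _) (by positivity)
      _ = C₀ * (((√q)⁻¹) ^ (k' + 1) * √z ^ k' * √q) := by ring
      _ ≤ _ := by
          rw [h4]
          exact mul_le_mul_of_nonneg_left h5 hC₀0
  -- the few values
  have b2 : |∑ x ∈ Sm, (EE F x - E x)| * √q ≤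
      2 * ((k' + 1) ^ (k' + 1) : ℕ) * ((k' + 1) + 1 : ℕ) * (C ^ (k' + 1) * √(q ^ n) ^ (k' + 1)) := by
    have h1 : ∀ x ∈ Sm, |EE F x - E x| ≤ 2 * (q⁻¹) ^ (univ.image x).card := by
      intro x hx
      have h2 : 2 * (univ.image x).card < k' + 1 := (mem_filter.1 hx).2
      have h3 := EE_le (F := F) x
      have h4 : |E x| ≤ (q⁻¹) ^ (univ.image x).card := by
        have h5 : |E x| ≤ √(mm F 2) ^ (k' + 1) := by
          rw [hE]
          simp only
          split_ifs
          · rw [abs_of_nonneg (pow_nonneg (Real.sqrt_nonneg _) _)]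
          · rw [abs_zero]
            exact pow_nonneg (Real.sqrt_nonneg _) _
        refine h5.trans ?_
        calc √(mm F 2) ^ (k' + 1) ≤ ((√q)⁻¹) ^ (k' + 1) := pow_le_pow_left₀ (Real.sqrt_nonneg _) hM1 _
          _ ≤ ((√q)⁻¹) ^ (2 * (univ.image x).card) :=
              pow_le_pow_of_le_one (inv_nonneg.2 hs0.le) (inv_le_one_of_one_le₀ hs1) h2.le
          _ = (q⁻¹) ^ (univ.image x).card := by
              rw [pow_mul, inv_pow, Real.sq_sqrt hq0.le]
      calc |EE F x - E x| ≤ |EE F x| + |E x| := abs_sub _ _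
        _ ≤ _ := by linarith
    have h2 : ∑ x ∈ Sm, 2 * (q⁻¹) ^ (univ.image x).card =
        ∑ v ∈ range (k' + 2), ∑ x ∈ Sm with (univ.image x).card = v, 2 * (q⁻¹) ^ (univ.image x).card := by
      refine (sum_fiberwise_of_maps_to (fun x hx => ?_) _).symm
      have h3 : 2 * (univ.image x).card < k' + 1 := (mem_filter.1 hx).2
      rw [mem_range]
      omega
    have h3 : ∀ v ∈ range (k' + 2),
        (∑ x ∈ Sm with (univ.image x).card = v, 2 * (q⁻¹) ^ (univ.image x).card) * √q ≤
        2 * ((k' + 1) ^ (k' + 1) : ℕ) * (C ^ (k' + 1) * √(q ^ n) ^ (k' + 1)) := by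
      intro v _
      by_cases hv : 2 * v < k' + 1
      · have h4 : ∑ x ∈ Sm with (univ.image x).card = v, 2 * (q⁻¹) ^ (univ.image x).card ≤
            (((k' + 1) ^ (k' + 1) : ℕ) * z ^ v) * (2 * (q⁻¹) ^ v) := by
          have h5 : ∑ x ∈ Sm with (univ.image x).card = v, 2 * (q⁻¹) ^ (univ.image x).card =
              ((Sm.filter fun x => (univ.image x).card = v).card : ℝ) * (2 * (q⁻¹) ^ v) := by
            rw [sum_congr rfl fun x hx => by rw [(mem_filter.1 hx).2], sum_const, nsmul_eq_mul]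
          rw [h5]
          refine mul_le_mul_of_nonneg_right ?_ (by positivity)
          have h6 := card_img' (S := S) (k := k' + 1) (v := v) (by omega) (by omega)
          have h7 : (Sm.filter fun x => (univ.image x).card = v).card ≤
              (univ.filter fun x : Fin (k' + 1) → S => (univ.image x).card ≤ v).card := by
            refine card_le_card fun x hx => ?_
            rw [mem_filter] at hx ⊢
            exact ⟨mem_univ _, hx.2.le⟩
          have h8 := h7.trans h6
          rw [hzd]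
          exact_mod_cast h8
        have h9 : z ^ v * (q⁻¹) ^ v ≤ C ^ (k' + 1) * √(q ^ n) ^ k' := by
          rw [← mul_pow, ← div_eq_mul_inv]
          calc (z / q) ^ v ≤ (C * q ^ n) ^ v := pow_le_pow_left₀ (by positivity) hy _
            _ = C ^ v * √(q ^ n) ^ (2 * v) := by
                rw [mul_pow, pow_mul (√(q ^ n)), Real.sq_sqrt (by positivity)]
            _ ≤ _ := mul_le_mul (hCk _ (by omega)) (pow_le_pow_right₀ hqn1 (by omega)) (by positivity)
                  (by positivity)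
        calc _ ≤ ((((k' + 1) ^ (k' + 1) : ℕ) * z ^ v) * (2 * (q⁻¹) ^ v)) * √q :=
              mul_le_mul_of_nonneg_right h4 hs0.le
          _ = 2 * ((k' + 1) ^ (k' + 1) : ℕ) * ((z ^ v * (q⁻¹) ^ v) * √q) := by ring
          _ ≤ 2 * ((k' + 1) ^ (k' + 1) : ℕ) * ((C ^ (k' + 1) * √(q ^ n) ^ k') * √(q ^ n)) := by
              refine mul_le_mul_of_nonneg_left ?_ (by positivity)
              exact mul_le_mul h9 hqn hs0.le (by positivity)
          _ = _ := by ring
      · have h4 : (Sm.filter fun x => (univ.image x).card = v) = ∅ := by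
          rw [filter_eq_empty_iff]
          intro x hx hxv
          have h5 : 2 * (univ.image x).card < k' + 1 := (mem_filter.1 hx).2
          omega
        rw [h4, sum_empty, zero_mul]
        positivity
    calc |∑ x ∈ Sm, (EE F x - E x)| * √q ≤ (∑ x ∈ Sm, 2 * (q⁻¹) ^ (univ.image x).card) * √q := by
          refine mul_le_mul_of_nonneg_right ?_ hs0.le
          exact (abs_sum_le_sum_abs _ _).trans (sum_le_sum h1)
      _ = ∑ v ∈ range (k' + 2),
          (∑ x ∈ Sm with (univ.image x).card = v, 2 * (q⁻¹) ^ (univ.image x).card) * √q := by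
          rw [h2, sum_mul]
      _ ≤ ∑ _v ∈ range (k' + 2), 2 * ((k' + 1) ^ (k' + 1) : ℕ) *
          (C ^ (k' + 1) * √(q ^ n) ^ (k' + 1)) := sum_le_sum h3
      _ = _ := by
          rw [sum_const, card_range, nsmul_eq_mul]
          push_cast
          ring
  calc _ ≤ (|√(mm F 2) ^ (k' + 1) * (T.card - μ * √z ^ (k' + 1))| +
        |∑ x ∈ Sm, (EE F x - E x)|) * √q := mul_le_mul_of_nonneg_right (abs_add_le _ _) hs0.le
    _ ≤ _ := by
        rw [add_mul]
        refine (add_le_add b1 b2).trans (le_of_eq ?_)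
        unfold KM
        rw [hC₀]
        ring

end

end Pool.Agent.L0h11.TF
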