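import Mathlib
import Pool.Agent.L0h11.I.Mp

/-!
# Moments of the traces over the smooth members
-/

set_option autoImplicit false
set_option linter.all false

namespace Pool.Agent.L0h11.TF

open Finset
open Pool.Agent.L0h11.CC

lemma Mt_odd {k : ℕ} (hk : ¬ Even k) : (Mt (one2 k)).card = 0 := by
  rw [card_eq_zero, eq_empty_iff_forall_notMem]
  intro π hπ
  obtain ⟨h1, h2, -⟩ := (mem_Mt _).1 hπ
  obtain ⟨m, hm, -⟩ := card_fix (F := Bool) h1 h2
  rw [Fintype.card_fin] at hm
  exact hk (hm ▸ even_two_mul m)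

lemma Mt_le (k : ℕ) : (Mt (one2 k)).card ≤ k.factorial := by
  classical
  have h1 : (Mt (one2 k)).card ≤ Fintype.card (Equiv.Perm (Fin k)) := by
    rw [← card_univ]
    exact card_le_card (subset_univ _)
  rw [Fintype.card_perm, Fintype.card_fin] at h1
  exact h1

lemma pow_le_one_add {y : ℝ} (hy : 0 ≤ y) {e v : ℕ} (h : e ≤ v) : y ^ e ≤ 1 + y ^ v := by
  rcases le_total y 1 with h1 | h1
  · have h2 : y ^ e ≤ 1 := pow_le_one₀ hy h1
    have h3 : 0 ≤ y ^ v := pow_nonneg hy _
    linarith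
  · have h2 : y ^ e ≤ y ^ v := pow_le_pow_right₀ h1 h
    linarith

lemma pow_split {y l : ℝ} (hy : 0 ≤ y) (hl : 1 ≤ l) {e v : ℕ} (h : e ≤ v) :
    y ^ e * l ^ (v - e) ≤ l ^ v + y ^ v := by
  have hv : l ^ v = l ^ e * l ^ (v - e) := by rw [← pow_add]; congr 1; omega
  rcases le_total y l with h1 | h1
  · have h2 : y ^ e ≤ l ^ e := pow_le_pow_left₀ hy h1 _
    have h3 : 0 ≤ y ^ v := pow_nonneg hy _
    have h4 := mul_le_mul_of_nonneg_right h2 (pow_nonneg (by linarith : 0 ≤ l) (v - e))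
    linarith
  · have h2 : l ^ (v - e) ≤ y ^ (v - e) := pow_le_pow_left₀ (by linarith) h1 _
    have h3 : 0 ≤ l ^ v := pow_nonneg (by linarith) _
    have h4 := mul_le_mul_of_nonneg_left h2 (pow_nonneg hy e)
    have h5 : y ^ e * y ^ (v - e) = y ^ v := by rw [← pow_add]; congr 1; omega
    linarith

lemma norm_pow_sub_pow_le' (a b : ℂ) (e : ℕ) :
    ‖(a + b) ^ e - a ^ e‖ ≤ e * ‖b‖ * (‖a‖ + ‖b‖) ^ (e - 1) := by
  induction e with
  | zero => simp
  | succ e ih =>
    rcases Nat.eq_zero_or_pos e with h0 | h0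
    · subst h0
      simp
    have h1 : (a + b) ^ (e + 1) - a ^ (e + 1) = (a + b) * ((a + b) ^ e - a ^ e) + b * a ^ e := by ring
    have h2 : ‖a‖ ^ e ≤ (‖a‖ + ‖b‖) ^ e :=
      pow_le_pow_left₀ (norm_nonneg _) (by linarith [norm_nonneg b]) _
    rw [h1]
    calc _ ≤ ‖a + b‖ * ‖(a + b) ^ e - a ^ e‖ + ‖b‖ * ‖a‖ ^ e := by
          refine (norm_add_le _ _).trans (le_of_eq ?_)
          rw [norm_mul, norm_mul, norm_pow]
      _ ≤ (‖a‖ + ‖b‖) * (e * ‖b‖ * (‖a‖ + ‖b‖) ^ (e - 1)) + ‖b‖ * (‖a‖ + ‖b‖) ^ e :=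
          add_le_add (mul_le_mul (norm_add_le _ _) ih (norm_nonneg _) (by positivity))
            (mul_le_mul_of_nonneg_left h2 (norm_nonneg _))
      _ = _ := by
          have h3 : (‖a‖ + ‖b‖) ^ e = (‖a‖ + ‖b‖) * (‖a‖ + ‖b‖) ^ (e - 1) := by
            rw [← pow_succ', Nat.sub_add_cancel h0]
          rw [Nat.add_sub_cancel]
          push_cast
          rw [h3]
          ring

section

variable {F : Type} [Field F] [Fintype F] [DecidableEq F] {V S : Type} [AddCommGroup V] [Fintype V]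
  [Fintype S] [DecidableEq S] (ev : S → V →+ F)

/-- the constant -/
noncomputable def KN (k : ℕ) (C : ℝ) : ℝ :=
  KM k * (1 + C) ^ k + k.factorial * (k * (1 + 2 * C) * (1 + C) ^ k)

lemma KN_nonneg (k : ℕ) {C : ℝ} (hC : 0 ≤ C) : 0 ≤ KN k C := by
  have := KM_nonneg k
  unfold KN
  positivity

open Classical in
/-- **The moments.** -/
theorem moment_main {m k n : ℕ} (hI : Indep ev m) (hk : k ≤ m) (hn : 1 ≤ n) {C : ℝ} (hC : 0 ≤ C)
    (hz : |(Fintype.card S : ℝ) - (Fintype.card F : ℝ) ^ (n + 1)| * √(Fintype.card F : ℝ) ≤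
      C * (Fintype.card F : ℝ) ^ (n + 1)) :
    |∑ t, (∑ x, gg (ev x t)) ^ k -
      Fintype.card V * (((Mt (one2 k)).card : ℝ) * √((Fintype.card F : ℝ) ^ n) ^ k)| *
        √(Fintype.card F : ℝ) ≤ KN k C * (Fintype.card V * √((Fintype.card F : ℝ) ^ n) ^ k) := by
  set q : ℝ := (Fintype.card F : ℝ) with hq
  set z : ℝ := (Fintype.card S : ℝ) with hzd
  set v : ℝ := (Fintype.card V : ℝ) with hv
  have hv0 : 0 ≤ v := Nat.cast_nonneg _
  have hq0 : 0 < q := card_pos' (F := F)
  have hq2 : 2 ≤ q := two_le_card (F := F)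
  have hs0 : 0 < √q := Real.sqrt_pos.2 hq0
  have hs1 : 1 ≤ √q := Real.one_le_sqrt.2 (by linarith)
  have hsq : √q * √q = q := Real.mul_self_sqrt hq0.le
  have hz1 : z ≤ (1 + C) * q ^ (n + 1) := by
    have h1 : |z - q ^ (n + 1)| ≤ C * q ^ (n + 1) :=
      (le_mul_of_one_le_right (abs_nonneg _) hs1).trans hz
    have h2 := (abs_le.1 h1).2
    linarith
  have h1 := sum_EE (k := k) (F := F) (S := S) hn (C := 1 + C) (by linarith) hz1
  rw [← hq, ← hzd] at h1
  set μ : ℝ := ((Mt (one2 k)).card : ℝ) with hμ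
  have hμ0 : 0 ≤ μ := Nat.cast_nonneg _
  have hμ1 : μ ≤ k.factorial := Nat.cast_le.2 (Mt_le k)
  have h2 : μ * |√(z * mm F 2) ^ k - √(q ^ n) ^ k| * √q ≤
      k.factorial * (k * (1 + 2 * C) * (1 + C) ^ k) * √(q ^ n) ^ k := by
    by_cases hk2 : Even k
    · obtain ⟨f, hf⟩ := hk2
      have hf2 : k = 2 * f := by omega
      rcases Nat.eq_zero_or_pos f with hf0 | hf0
      · have hk0 : k = 0 := by omega
        rw [hk0, pow_zero, pow_zero, sub_self, abs_zero, mul_zero, zero_mul]
        positivity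
      have hz0 : 0 ≤ z := Nat.cast_nonneg _
      have hM0 := mm_two_nonneg (F := F)
      have e1 : √(z * mm F 2) ^ k = (z * mm F 2) ^ f := by
        rw [hf2, pow_mul, Real.sq_sqrt (by positivity)]
      have e2 : √(q ^ n) ^ k = (q ^ n) ^ f := by
        rw [hf2, pow_mul, Real.sq_sqrt (by positivity)]
      rw [e1, e2]
      have h3 : |(z * mm F 2) ^ f - (q ^ n) ^ f| ≤
          |z * mm F 2 - q ^ n| * f * max |z * mm F 2| |q ^ n| ^ (f - 1) := abs_pow_sub_pow_le _ _ _
      have e3 : z * mm F 2 = z / q * (1 - q⁻¹) := by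
        rw [mm_two, ← hq]
        field_simp
      have h4 : |z * mm F 2 - q ^ n| * √q ≤ (1 + 2 * C) * q ^ n := by
        have e4 : z * mm F 2 - q ^ n = (z - q ^ (n + 1)) / q - z / q * q⁻¹ := by
          rw [e3, pow_succ]
          field_simp
          ring
        have h5 : |(z - q ^ (n + 1)) / q| * √q ≤ C * q ^ n := by
          rw [abs_div, abs_of_pos hq0, div_mul_eq_mul_div, div_le_iff₀ hq0]
          calc _ ≤ C * q ^ (n + 1) := hz
            _ = _ := by ring
        have h6 : |z / q * q⁻¹| * √q ≤ (1 + C) * q ^ n := by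
          rw [abs_of_nonneg (by positivity)]
          have h7 : z / q ≤ (1 + C) * q ^ n := by
            rw [div_le_iff₀ hq0]
            calc _ ≤ (1 + C) * q ^ (n + 1) := hz1
              _ = _ := by ring
          have h8 : q⁻¹ * √q ≤ 1 := by
            rw [inv_mul_le_iff₀ hq0]
            nlinarith
          calc z / q * q⁻¹ * √q = z / q * (q⁻¹ * √q) := by ring
            _ ≤ z / q * 1 := mul_le_mul_of_nonneg_left h8 (by positivity)
            _ ≤ _ := by rw [mul_one]; exact h7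
        rw [e4]
        calc _ ≤ (|(z - q ^ (n + 1)) / q| + |z / q * q⁻¹|) * √q :=
              mul_le_mul_of_nonneg_right (abs_sub _ _) hs0.le
          _ ≤ _ := by
              rw [add_mul]
              refine (add_le_add h5 h6).trans (le_of_eq ?_)
              ring
      have h5 : max |z * mm F 2| |q ^ n| ≤ (1 + C) * q ^ n := by
        refine max_le ?_ ?_
        · rw [abs_of_nonneg (by positivity), e3]
          have h7 : z / q ≤ (1 + C) * q ^ n := by
            rw [div_le_iff₀ hq0]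
            calc _ ≤ (1 + C) * q ^ (n + 1) := hz1
              _ = _ := by ring
          have h8 : 1 - q⁻¹ ≤ 1 := by
            have := inv_pos.2 hq0
            linarith
          exact (mul_le_of_le_one_right (by positivity) h8).trans h7
        · rw [abs_of_nonneg (by positivity)]
          exact le_mul_of_one_le_left (by positivity) (by linarith)
      have h6 : max |z * mm F 2| |q ^ n| ^ (f - 1) ≤ ((1 + C) * q ^ n) ^ (f - 1) :=
        pow_le_pow_left₀ (le_max_of_le_left (abs_nonneg _)) h5 _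
      have hfk : (f : ℝ) ≤ k := by
        have : f ≤ k := by omega
        exact_mod_cast this
      calc μ * |(z * mm F 2) ^ f - (q ^ n) ^ f| * √q
          ≤ k.factorial * (|z * mm F 2 - q ^ n| * f * ((1 + C) * q ^ n) ^ (f - 1)) * √q := by
            refine mul_le_mul_of_nonneg_right ?_ hs0.le
            refine mul_le_mul hμ1 (h3.trans ?_) (abs_nonneg _) (Nat.cast_nonneg _)
            exact mul_le_mul_of_nonneg_left h6 (by positivity)
        _ = k.factorial * (f * ((1 + C) * q ^ n) ^ (f - 1)) * (|z * mm F 2 - q ^ n| * √q) := by ring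
        _ ≤ k.factorial * (f * ((1 + C) * q ^ n) ^ (f - 1)) * ((1 + 2 * C) * q ^ n) :=
            mul_le_mul_of_nonneg_left h4 (by positivity)
        _ = k.factorial * (f * (1 + 2 * C) * (1 + C) ^ (f - 1)) * ((q ^ n) ^ (f - 1) * q ^ n) := by
            rw [mul_pow]
            ring
        _ = k.factorial * (f * (1 + 2 * C) * (1 + C) ^ (f - 1)) * (q ^ n) ^ f := by
            rw [← pow_succ, Nat.sub_add_cancel hf0]
        _ ≤ k.factorial * (k * (1 + 2 * C) * (1 + C) ^ k) * (q ^ n) ^ f := by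
            refine mul_le_mul_of_nonneg_right ?_ (by positivity)
            refine mul_le_mul_of_nonneg_left ?_ (Nat.cast_nonneg _)
            refine mul_le_mul (mul_le_mul_of_nonneg_right hfk (by linarith)) ?_ (by positivity)
              (by positivity)
            exact pow_le_pow_right₀ (by linarith) (by omega)
    · have h3 : μ = 0 := by rw [hμ, Mt_odd hk2, Nat.cast_zero]
      rw [h3, zero_mul, zero_mul]
      positivity
  rw [moment_eq ev hI hk, ← hv]
  have e1 : v * ∑ x : Fin k → S, EE F x - v * (μ * √(q ^ n) ^ k) =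
      v * ((∑ x : Fin k → S, EE F x - μ * √(z * mm F 2) ^ k) +
        μ * (√(z * mm F 2) ^ k - √(q ^ n) ^ k)) := by ring
  rw [e1, abs_mul, abs_of_nonneg hv0]
  have h3 : |(∑ x : Fin k → S, EE F x - μ * √(z * mm F 2) ^ k) +
      μ * (√(z * mm F 2) ^ k - √(q ^ n) ^ k)| * √q ≤ KN k C * √(q ^ n) ^ k := by
    calc _ ≤ (|∑ x : Fin k → S, EE F x - μ * √(z * mm F 2) ^ k| +
          μ * |√(z * mm F 2) ^ k - √(q ^ n) ^ k|) * √q := by
          refine mul_le_mul_of_nonneg_right ((abs_add_le _ _).trans ?_) hs0.le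
          rw [abs_mul, abs_of_nonneg hμ0]
      _ ≤ KM k * ((1 + C) ^ k * √(q ^ n) ^ k) +
          k.factorial * (k * (1 + 2 * C) * (1 + C) ^ k) * √(q ^ n) ^ k := by
          rw [add_mul]
          exact add_le_add h1 h2
      _ = _ := by
          unfold KN
          ring
  calc _ = v * (|(∑ x : Fin k → S, EE F x - μ * √(z * mm F 2) ^ k) +
      μ * (√(z * mm F 2) ^ k - √(q ^ n) ^ k)| * √q) := by ring
    _ ≤ v * (KN k C * √(q ^ n) ^ k) := mul_le_mul_of_nonneg_left h3 hv0
    _ = _ := by ring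

end

end Pool.Agent.L0h11.TF
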