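import Mathlib
import Pool.Agent.L0h11.I.Mq

/-!
# Moments of the traces over the smooth members
-/

set_option autoImplicit false
set_option linter.all false

namespace Pool.Agent.L0h11.TF

open Finset
open Pool.Agent.L0h11.CC

section

variable {F : Type} [Field F] [Fintype F] [DecidableEq F] {V S : Type} [AddCommGroup V] [Fintype V]
  [Fintype S] [DecidableEq S] (ev : S → V →+ F)

/-- the sum of the centred indicators -/
noncomputable def WT (t : V) : ℝ := ∑ x, gg (ev x t)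

/-- the constant for the moment of order `v` -/
noncomputable def K1 (v : ℕ) (C : ℝ) : ℝ := v.factorial + KN v C

lemma K1_nonneg (v : ℕ) {C : ℝ} (hC : 0 ≤ C) : 0 ≤ K1 v C := by
  have := KN_nonneg v hC
  unfold K1
  positivity

/-- the even moment -/
lemma even_moment {m u n : ℕ} (hI : Indep ev m) (hk : 2 * u ≤ m) (hn : 1 ≤ n) {C : ℝ} (hC : 0 ≤ C)
    (hz : |(Fintype.card S : ℝ) - (Fintype.card F : ℝ) ^ (n + 1)| * √(Fintype.card F : ℝ) ≤
      C * (Fintype.card F : ℝ) ^ (n + 1)) :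
    ∑ t, (|WT ev t| / √((Fintype.card F : ℝ) ^ n)) ^ (2 * u) ≤ K1 (2 * u) C * Fintype.card V := by
  have h1 := moment_main ev hI hk hn hC hz
  set q : ℝ := (Fintype.card F : ℝ) with hq
  set v : ℝ := (Fintype.card V : ℝ) with hv
  have hv0 : 0 ≤ v := Nat.cast_nonneg _
  have hq0 : 0 < q := card_pos' (F := F)
  have hq2 : 2 ≤ q := two_le_card (F := F)
  have hs1 : 1 ≤ √q := Real.one_le_sqrt.2 (by linarith)
  have hr : 0 < √(q ^ n) := Real.sqrt_pos.2 (by positivity)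
  have hμ : (((Mt (one2 (2 * u))).card : ℕ) : ℝ) ≤ (2 * u).factorial := Nat.cast_le.2 (Mt_le _)
  have h2 : ∑ t, (|WT ev t| / √(q ^ n)) ^ (2 * u) =
      (∑ t, (∑ x, gg (ev x t)) ^ (2 * u)) / √(q ^ n) ^ (2 * u) := by
    rw [sum_div]
    refine sum_congr rfl fun t _ => ?_
    rw [div_pow, pow_mul |WT ev t|, sq_abs, ← pow_mul]
    rfl
  rw [h2, div_le_iff₀ (by positivity)]
  have h3 := (le_mul_of_one_le_right (abs_nonneg _) hs1).trans h1
  have h4 := (abs_le.1 h3).2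
  have h5 : v * ((((Mt (one2 (2 * u))).card : ℕ) : ℝ) * √(q ^ n) ^ (2 * u)) ≤
      v * ((2 * u).factorial * √(q ^ n) ^ (2 * u)) := by
    refine mul_le_mul_of_nonneg_left ?_ hv0
    exact mul_le_mul_of_nonneg_right hμ (by positivity)
  unfold K1
  linarith

/-- the constant -/
noncomputable def K2 (u : ℕ) (C : ℝ) : ℝ := 1 + 2 ^ (2 * u) * (K1 (2 * u) C + C ^ (2 * u))

lemma K2_nonneg (u : ℕ) {C : ℝ} (hC : 0 ≤ C) : 0 ≤ K2 u C := by
  have := K1_nonneg (2 * u) hC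
  unfold K2
  positivity

lemma sum_one_add {m u n : ℕ} (hI : Indep ev m) (hk : 2 * u ≤ m) (hn : 1 ≤ n) {C : ℝ}
    (hC : 0 ≤ C)
    (hz : |(Fintype.card S : ℝ) - (Fintype.card F : ℝ) ^ (n + 1)| * √(Fintype.card F : ℝ) ≤
      C * (Fintype.card F : ℝ) ^ (n + 1)) {e : ℕ} (he : e ≤ 2 * u) :
    ∑ t, (|WT ev t| / √((Fintype.card F : ℝ) ^ n) + C) ^ e ≤ K2 u C * Fintype.card V := by
  have h1 := even_moment ev hI hk hn hC hz
  set v : ℝ := (Fintype.card V : ℝ) with hv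
  have hv0 : 0 ≤ v := Nat.cast_nonneg _
  set y : V → ℝ := fun t => |WT ev t| / √((Fintype.card F : ℝ) ^ n) with hy
  have hy0 : ∀ t, 0 ≤ y t := fun t => by positivity
  have h2 : ∀ t, (y t + C) ^ e ≤ 1 + 2 ^ (2 * u) * (y t ^ (2 * u) + C ^ (2 * u)) := by
    intro t
    have h3 := pow_le_one_add (y := y t + C) (by have := hy0 t; linarith) he
    have h4 : (y t + C) ^ (2 * u) ≤ 2 ^ (2 * u) * (y t ^ (2 * u) + C ^ (2 * u)) := by
      have h5 : (y t + C) ^ (2 * u) ≤ 2 ^ (2 * u - 1) * (y t ^ (2 * u) + C ^ (2 * u)) :=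
        add_pow_le (hy0 t) hC _
      refine h5.trans (mul_le_mul_of_nonneg_right ?_ (by have := hy0 t; positivity))
      exact pow_le_pow_right₀ (by norm_num) (by omega)
    linarith
  calc ∑ t, (y t + C) ^ e ≤ ∑ t, (1 + 2 ^ (2 * u) * (y t ^ (2 * u) + C ^ (2 * u))) :=
        sum_le_sum fun t _ => h2 t
    _ = v + 2 ^ (2 * u) * (∑ t, y t ^ (2 * u) + v * C ^ (2 * u)) := by
        rw [sum_add_distrib, ← mul_sum, sum_add_distrib, sum_const, sum_const, card_univ,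
          nsmul_eq_mul, nsmul_eq_mul, mul_one]
    _ ≤ v + 2 ^ (2 * u) * (K1 (2 * u) C * v + v * C ^ (2 * u)) := by
        gcongr
    _ = _ := by
        unfold K2
        ring

/-- **The moments of the absolute values of the traces.** -/
theorem abs_moment {m u n : ℕ} (hI : Indep ev m) (hk : 2 * u ≤ m) (hn : 1 ≤ n) {C : ℝ}
    (hC : 0 ≤ C)
    (hz : |(Fintype.card S : ℝ) - (Fintype.card F : ℝ) ^ (n + 1)| * √(Fintype.card F : ℝ) ≤
      C * (Fintype.card F : ℝ) ^ (n + 1)) {ρ σ : ℂ}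
    (hρ : ‖ρ‖ * √(Fintype.card F : ℝ) ≤ C * √((Fintype.card F : ℝ) ^ n)) (hσ : ‖σ‖ = 1)
    {e : ℕ} (he : e ≤ 2 * u) :
    ∑ t, ‖σ * ((WT ev t : ℂ) + ρ)‖ ^ e ≤
      K2 u C * (Fintype.card V * √((Fintype.card F : ℝ) ^ n) ^ e) := by
  have h1 := sum_one_add ev hI hk hn hC hz he
  set q : ℝ := (Fintype.card F : ℝ) with hq
  set v : ℝ := (Fintype.card V : ℝ) with hv
  have hq0 : 0 < q := card_pos' (F := F)
  have hq2 : 2 ≤ q := two_le_card (F := F)
  have hs1 : 1 ≤ √q := Real.one_le_sqrt.2 (by linarith)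
  have hr : 0 < √(q ^ n) := Real.sqrt_pos.2 (by positivity)
  have hρ' : ‖ρ‖ ≤ C * √(q ^ n) := (le_mul_of_one_le_right (norm_nonneg _) hs1).trans hρ
  have h2 : ∀ t, ‖σ * ((WT ev t : ℂ) + ρ)‖ ^ e ≤ √(q ^ n) ^ e * (|WT ev t| / √(q ^ n) + C) ^ e := by
    intro t
    rw [norm_mul, hσ, one_mul, ← mul_pow]
    refine pow_le_pow_left₀ (norm_nonneg _) ?_ _
    rw [mul_add, mul_div_cancel₀ _ hr.ne']
    refine (norm_add_le _ _).trans ?_
    rw [Complex.norm_real, Real.norm_eq_abs]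
    linarith
  calc _ ≤ ∑ t, √(q ^ n) ^ e * (|WT ev t| / √(q ^ n) + C) ^ e := sum_le_sum fun t _ => h2 t
    _ = √(q ^ n) ^ e * ∑ t, (|WT ev t| / √(q ^ n) + C) ^ e := by rw [mul_sum]
    _ ≤ √(q ^ n) ^ e * (K2 u C * v) := mul_le_mul_of_nonneg_left h1 (by positivity)
    _ = _ := by ring

/-- the constant -/
noncomputable def K3 (u e : ℕ) (C D : ℝ) : ℝ := KN e C + (D + K1 (2 * u) C) + e * C * K2 u C

lemma K3_nonneg (u e : ℕ) {C D : ℝ} (hC : 0 ≤ C) (hD : 0 ≤ D) : 0 ≤ K3 u e C D := by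
  have := K1_nonneg (2 * u) hC
  have := K2_nonneg u hC
  have := KN_nonneg e hC
  unfold K3
  positivity

open Classical in
/-- **The moments of the traces outside of a small set.** -/
theorem good_moment {m u n : ℕ} (hI : Indep ev m) (hu : 0 < u) (hk : 2 * u ≤ m) (hn : 1 ≤ n)
    {C : ℝ} (hC : 0 ≤ C)
    (hz : |(Fintype.card S : ℝ) - (Fintype.card F : ℝ) ^ (n + 1)| * √(Fintype.card F : ℝ) ≤
      C * (Fintype.card F : ℝ) ^ (n + 1)) {ρ σ : ℂ}
    (hρ : ‖ρ‖ * √(Fintype.card F : ℝ) ≤ C * √((Fintype.card F : ℝ) ^ n)) (hσ : σ = 1 ∨ σ = -1)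
    (P : V → Prop) [DecidablePred P] {D : ℝ}
    (hP : (Nat.card {t // ¬ P t} : ℝ) * Fintype.card F ≤ D * Fintype.card V)
    {lam : ℝ} (hl1 : 1 ≤ lam) (hlu : lam ^ (2 * u) = Fintype.card F) {e : ℕ} (he : e < 2 * u) :
    ‖∑ t with P t, (σ * ((WT ev t : ℂ) + ρ)) ^ e -
      ((Fintype.card V * (((Mt (one2 e)).card : ℝ) * √((Fintype.card F : ℝ) ^ n) ^ e) : ℝ) : ℂ)‖ *
        lam ≤ K3 u e C D * (Fintype.card V * √((Fintype.card F : ℝ) ^ n) ^ e) := by
  have h1 := moment_main ev hI (by omega : e ≤ m) hn hC hz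
  have h2 := even_moment ev hI hk hn hC hz
  have h3 := sum_one_add ev hI hk hn hC hz (e := e - 1) (by omega)
  rw [Nat.card_eq_fintype_card, Fintype.card_subtype] at hP
  set q : ℝ := (Fintype.card F : ℝ) with hq
  set v : ℝ := (Fintype.card V : ℝ) with hv
  set M : ℝ := v * (((Mt (one2 e)).card : ℝ) * √(q ^ n) ^ e) with hM
  have hv0 : 0 ≤ v := Nat.cast_nonneg _
  have hq0 : 0 < q := card_pos' (F := F)
  have hq2 : 2 ≤ q := two_le_card (F := F)
  have hs0 : 0 < √q := Real.sqrt_pos.2 hq0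
  have hs1 : 1 ≤ √q := Real.one_le_sqrt.2 (by linarith)
  have hl0 : 0 ≤ lam := by linarith
  have hr : 0 < √(q ^ n) := Real.sqrt_pos.2 (by positivity)
  have hρ' : ‖ρ‖ ≤ C * √(q ^ n) := (le_mul_of_one_le_right (norm_nonneg _) hs1).trans hρ
  have hls : lam ≤ √q := by
    apply Real.le_sqrt_of_sq_le
    rw [← hlu]
    exact pow_le_pow_right₀ hl1 (by omega)
  -- the sign
  have hσ1 : ‖σ‖ = 1 := by rcases hσ with h | h <;> simp [h]
  have e1 : ∑ t with P t, (σ * ((WT ev t : ℂ) + ρ)) ^ e - ((M : ℝ) : ℂ) =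
      σ ^ e * (∑ t with P t, ((WT ev t : ℂ) + ρ) ^ e - ((M : ℝ) : ℂ)) := by
    rw [mul_sub, mul_sum]
    congr 1
    · exact sum_congr rfl fun t _ => mul_pow _ _ _
    · by_cases he2 : Even e
      · rcases hσ with h | h
        · rw [h, one_pow, one_mul]
        · rw [h, he2.neg_one_pow, one_mul]
      · rw [hM, Mt_odd he2, Nat.cast_zero, zero_mul, mul_zero, Complex.ofReal_zero, mul_zero]
  rw [e1, norm_mul, norm_pow, hσ1, one_pow, one_mul]
  -- the decomposition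
  have e2 : ∑ t with P t, ((WT ev t : ℂ) + ρ) ^ e - ((M : ℝ) : ℂ) =
      ((∑ t, WT ev t ^ e - M : ℝ) : ℂ) - ∑ t with ¬ P t, (WT ev t : ℂ) ^ e +
        ∑ t with P t, (((WT ev t : ℂ) + ρ) ^ e - (WT ev t : ℂ) ^ e) := by
    rw [sum_sub_distrib, Complex.ofReal_sub, Complex.ofReal_sum]
    have h4 := sum_filter_add_sum_filter_not univ P (fun t => (WT ev t : ℂ) ^ e)
    rw [sum_congr rfl fun t _ => Complex.ofReal_pow (WT ev t) e, ← h4]
    ring
  have b1 : ‖((∑ t, WT ev t ^ e - M : ℝ) : ℂ)‖ * lam ≤ KN e C * (v * √(q ^ n) ^ e) := by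
    rw [Complex.norm_real, Real.norm_eq_abs]
    exact (mul_le_mul_of_nonneg_left hls (abs_nonneg _)).trans h1
  have b2 : ‖∑ t with ¬ P t, (WT ev t : ℂ) ^ e‖ * lam ≤
      (D + K1 (2 * u) C) * (v * √(q ^ n) ^ e) := by
    have h4 : ‖∑ t with ¬ P t, (WT ev t : ℂ) ^ e‖ ≤
        √(q ^ n) ^ e * ∑ t with ¬ P t, (|WT ev t| / √(q ^ n)) ^ e := by
      refine (norm_sum_le _ _).trans (le_of_eq ?_)
      rw [mul_sum]
      refine sum_congr rfl fun t _ => ?_
      rw [norm_pow, Complex.norm_real, Real.norm_eq_abs, div_pow, mul_div_cancel₀ _ (by positivity)]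
    have h5 : (∑ t with ¬ P t, (|WT ev t| / √(q ^ n)) ^ e) * lam ≤ (D + K1 (2 * u) C) * v := by
      have h6 : ∀ t, (|WT ev t| / √(q ^ n)) ^ e * lam ≤ q + (|WT ev t| / √(q ^ n)) ^ (2 * u) := by
        intro t
        have h7 := pow_split (y := |WT ev t| / √(q ^ n)) (by positivity) hl1 he.le
        rw [hlu] at h7
        refine le_trans ?_ h7
        refine mul_le_mul_of_nonneg_left ?_ (by positivity)
        exact le_self_pow₀ hl1 (by omega)
      calc _ = ∑ t with ¬ P t, (|WT ev t| / √(q ^ n)) ^ e * lam := by rw [sum_mul]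
        _ ≤ ∑ t with ¬ P t, (q + (|WT ev t| / √(q ^ n)) ^ (2 * u)) := sum_le_sum fun t _ => h6 t
        _ = ((univ.filter fun t => ¬ P t).card : ℝ) * q +
            ∑ t with ¬ P t, (|WT ev t| / √(q ^ n)) ^ (2 * u) := by
            rw [sum_add_distrib, sum_const, nsmul_eq_mul]
        _ ≤ D * v + ∑ t, (|WT ev t| / √(q ^ n)) ^ (2 * u) := by
            refine add_le_add hP ?_
            exact sum_le_sum_of_subset_of_nonneg (filter_subset _ _) fun t _ _ => by positivity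
        _ ≤ D * v + K1 (2 * u) C * v := by linarith
        _ = _ := by ring
    calc _ ≤ (√(q ^ n) ^ e * ∑ t with ¬ P t, (|WT ev t| / √(q ^ n)) ^ e) * lam :=
          mul_le_mul_of_nonneg_right h4 hl0
      _ = √(q ^ n) ^ e * ((∑ t with ¬ P t, (|WT ev t| / √(q ^ n)) ^ e) * lam) := by ring
      _ ≤ √(q ^ n) ^ e * ((D + K1 (2 * u) C) * v) :=
          mul_le_mul_of_nonneg_left h5 (by positivity)
      _ = _ := by ring
  have b3 : ‖∑ t with P t, (((WT ev t : ℂ) + ρ) ^ e - (WT ev t : ℂ) ^ e)‖ * lam ≤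
      e * C * K2 u C * (v * √(q ^ n) ^ e) := by
    rcases Nat.eq_zero_or_pos e with h0 | h0
    · subst h0
      simp only [pow_zero, sub_self, sum_const_zero, norm_zero, zero_mul, Nat.cast_zero]
      exact le_rfl
    have h4 : ∀ t, ‖((WT ev t : ℂ) + ρ) ^ e - (WT ev t : ℂ) ^ e‖ * lam ≤
        e * C * √(q ^ n) ^ e * (|WT ev t| / √(q ^ n) + C) ^ (e - 1) := by
      intro t
      have h5 := norm_pow_sub_pow_le' (WT ev t : ℂ) ρ e
      rw [Complex.norm_real, Real.norm_eq_abs] at h5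
      have h6 : (|WT ev t| + ‖ρ‖) ^ (e - 1) ≤
          √(q ^ n) ^ (e - 1) * (|WT ev t| / √(q ^ n) + C) ^ (e - 1) := by
        rw [← mul_pow]
        refine pow_le_pow_left₀ (by positivity) ?_ _
        rw [mul_add, mul_div_cancel₀ _ hr.ne']
        linarith
      have h7 : ‖ρ‖ * lam ≤ C * √(q ^ n) :=
        (mul_le_mul_of_nonneg_left hls (norm_nonneg _)).trans hρ
      have h8 : √(q ^ n) ^ e = √(q ^ n) * √(q ^ n) ^ (e - 1) := by
        rw [← pow_succ', Nat.sub_add_cancel h0]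
      calc _ ≤ (e * ‖ρ‖ * (|WT ev t| + ‖ρ‖) ^ (e - 1)) * lam := mul_le_mul_of_nonneg_right h5 hl0
        _ = e * (‖ρ‖ * lam) * (|WT ev t| + ‖ρ‖) ^ (e - 1) := by ring
        _ ≤ e * (C * √(q ^ n)) * (√(q ^ n) ^ (e - 1) * (|WT ev t| / √(q ^ n) + C) ^ (e - 1)) := by
            refine mul_le_mul (mul_le_mul_of_nonneg_left h7 (Nat.cast_nonneg _)) h6 (by positivity)
              (by positivity)
        _ = _ := by
            rw [h8]
            ring
    calc _ ≤ (∑ t with P t, ‖((WT ev t : ℂ) + ρ) ^ e - (WT ev t : ℂ) ^ e‖) * lam :=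
          mul_le_mul_of_nonneg_right (norm_sum_le _ _) hl0
      _ = ∑ t with P t, ‖((WT ev t : ℂ) + ρ) ^ e - (WT ev t : ℂ) ^ e‖ * lam := by rw [sum_mul]
      _ ≤ ∑ t with P t, e * C * √(q ^ n) ^ e * (|WT ev t| / √(q ^ n) + C) ^ (e - 1) :=
          sum_le_sum fun t _ => h4 t
      _ ≤ ∑ t, e * C * √(q ^ n) ^ e * (|WT ev t| / √(q ^ n) + C) ^ (e - 1) :=
          sum_le_sum_of_subset_of_nonneg (filter_subset _ _) fun t _ _ => by positivity
      _ = e * C * √(q ^ n) ^ e * ∑ t, (|WT ev t| / √(q ^ n) + C) ^ (e - 1) := by rw [mul_sum]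
      _ ≤ e * C * √(q ^ n) ^ e * (K2 u C * v) := mul_le_mul_of_nonneg_left h3 (by positivity)
      _ = _ := by ring
  rw [e2]
  calc _ ≤ (‖((∑ t, WT ev t ^ e - M : ℝ) : ℂ)‖ + ‖∑ t with ¬ P t, (WT ev t : ℂ) ^ e‖ +
        ‖∑ t with P t, (((WT ev t : ℂ) + ρ) ^ e - (WT ev t : ℂ) ^ e)‖) * lam := by
        refine mul_le_mul_of_nonneg_right ?_ hl0
        refine (norm_add_le _ _).trans (add_le_add ?_ le_rfl)
        exact norm_sub_le _ _
    _ ≤ _ := by
        rw [add_mul, add_mul]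
        refine (add_le_add (add_le_add b1 b2) b3).trans (le_of_eq ?_)
        unfold K3
        ring

end

end Pool.Agent.L0h11.TF
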