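import Mathlib
import Pool.Agent.L0h11.I.Df
import Pool.Agent.L0h11.I.Mr
import Pool.Agent.L0h11.Gj

/-!
# The points of the fibres
-/

set_option autoImplicit false
set_option linter.all false

namespace Pool.Agent.L0h11.TF

open Finset
open Pool.Agent.L0h11.CC
open Pool.Agent.TH958.An
open Pool.Agent.L0h11.RG
open scoped LinearAlgebra.Projectivization

section cone

variable {F ι : Type} [Field F] [Fintype F] [Fintype ι]

/-- the points of a cone and the points of the projective variety -/
theorem card_cone (C : (ι → F) → Prop) (h0 : C 0)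
    (hs : ∀ (a : F) (x : ι → F), a ≠ 0 → C x → C (a • x)) :
    ((Nat.card {x : ι → F // C x} : ℝ) - 1) / ((Fintype.card F : ℝ) - 1) =
      Nat.card {p : ℙ F (ι → F) // C p.rep} := by
  classical
  have hrep : ∀ (x : ι → F) (hx : x ≠ 0), C x → C (Projectivization.mk F x hx).rep := by
    intro x hx h
    obtain ⟨a, ha⟩ := Projectivization.exists_smul_eq_mk_rep F x hx
    rw [← ha, Units.smul_def]
    exact hs _ _ a.ne_zero h
  let T : Option ({p : ℙ F (ι → F) // C p.rep} × Fˣ) → {x : ι → F // C x} := fun z =>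
    z.elim ⟨0, h0⟩ fun w => ⟨(w.2 : F) • w.1.1.rep, hs _ _ w.2.ne_zero w.1.2⟩
  have hne : ∀ w : {p : ℙ F (ι → F) // C p.rep} × Fˣ, ((w.2 : F) • w.1.1.rep : ι → F) ≠ 0 := fun w =>
    smul_ne_zero w.2.ne_zero (Projectivization.rep_nonzero _)
  have hT : Function.Bijective T := by
    constructor
    · rintro (_ | w) (_ | w') h
      · rfl
      · exact absurd (congrArg Subtype.val h).symm (hne w')
      · exact absurd (congrArg Subtype.val h) (hne w)
      · have h1 : ((w.2 : F) • w.1.1.rep : ι → F) = (w'.2 : F) • w'.1.1.rep := congrArg Subtype.val h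
        have h2 : ∀ w : {p : ℙ F (ι → F) // C p.rep} × Fˣ,
            Projectivization.mk F ((w.2 : F) • w.1.1.rep : ι → F) (hne w) = w.1.1 := by
          intro w
          conv_rhs => rw [← Projectivization.mk_rep w.1.1]
          rw [Projectivization.mk_eq_mk_iff]
          exact ⟨w.2, rfl⟩
        have h3 : w.1.1 = w'.1.1 := by
          rw [← h2 w, ← h2 w']
          congr 1
        have h4 : w.1 = w'.1 := Subtype.ext h3
        have h5 : w.2 = w'.2 := by
          apply Units.ext
          rw [h3] at h1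
          exact smul_left_injective F (Projectivization.rep_nonzero _) h1
        congr 1
        exact Prod.ext h4 h5
    · rintro ⟨x, hx⟩
      by_cases h : x = 0
      · subst h
        exact ⟨none, rfl⟩
      · obtain ⟨a, ha⟩ := Projectivization.exists_smul_eq_mk_rep F x h
        refine ⟨some (⟨Projectivization.mk F x h, hrep x h hx⟩, a⁻¹), ?_⟩
        apply Subtype.ext
        show ((a⁻¹ : Fˣ) : F) • (Projectivization.mk F x h).rep = x
        rw [← ha, Units.smul_def, smul_smul, ← Units.val_mul, inv_mul_cancel, Units.val_one, one_smul]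
  have hfin : Finite (ℙ F (ι → F)) := Finite.of_injective (fun p => p.rep) fun p p' h => by
    rw [← Projectivization.mk_rep p, ← Projectivization.mk_rep p']
    congr 1
  have h1 : Nat.card {x : ι → F // C x} =
      Nat.card {p : ℙ F (ι → F) // C p.rep} * (Fintype.card F - 1) + 1 := by
    rw [← Nat.card_congr (Equiv.ofBijective T hT), Finite.card_option, Nat.card_prod,
      Nat.card_eq_fintype_card (α := Fˣ), Fintype.card_units]
  have hq := two_le_card (F := F)
  rw [h1, div_eq_iff (by linarith)]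
  push_cast [Fintype.card_pos (α := F)]
  ring

end cone

section homog

variable {R F ι : Type} [CommRing R] [Field F] [Fintype ι]

lemma eval_smul (φ : R →+* F) {f : MvPolynomial ι R} {e : ℕ} (hf : f.IsHomogeneous e) (a : F)
    (x : ι → F) : MvPolynomial.eval₂ φ (a • x) f = a ^ e * MvPolynomial.eval₂ φ x f := by
  rw [MvPolynomial.eval₂_eq', MvPolynomial.eval₂_eq', mul_sum]
  refine sum_congr rfl fun m hm => ?_
  have h1 : m.degree = e := by
    by_contra h
    exact MvPolynomial.mem_support_iff.1 hm (hf.coeff_eq_zero h)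
  have h2 : ∏ i, (a • x) i ^ m i = a ^ e * ∏ i, x i ^ m i := by
    rw [← h1, Finsupp.degree_eq_sum, ← prod_pow_eq_pow_sum, ← prod_mul_distrib]
    refine prod_congr rfl fun i _ => ?_
    rw [Pi.smul_apply, smul_eq_mul, mul_pow]
  rw [h2]
  ring

end homog

section fibre

variable {R : Type} [CommRing R]

/-- the points of the fibres -/
theorem fibreCount_cone {ι : Type} (E : Set (MvPolynomial ι R))
    {F : Type} [Field F] [Fintype F] (φ : R →+* F) :
    fibreCount (ptOf φ).asIdeal (ptOf φ).isMaximal E (Fintype.card F) =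
      ((Nat.card {x : ι → F // ∀ f ∈ E, MvPolynomial.eval₂ φ x f = 0} : ℝ) - 1) /
        ((Fintype.card F : ℝ) - 1) := by
  classical
  set y := ptOf φ with hy
  let k := Res y
  let σ : k →+* F := fiberEquiv (F := F) y ⟨φ, rfl⟩
  have hσ : ∀ a, σ (Ideal.Quotient.mk y.asIdeal a) = φ a := fun a => rfl
  let _ : Algebra k F := σ.toAlgebra
  have : Finite k := Finite.of_injective σ σ.injective
  have hint : Algebra.IsAlgebraic k F := by
    have : Module.Finite k F := Module.Finite.of_finite
    infer_instance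
  let τ : F →ₐ[k] AlgebraicClosure k := IsAlgClosed.lift
  have hrange : ∀ x : AlgebraicClosure k, x ^ Fintype.card F = x ↔ ∃ z : F, τ z = x := fun x =>
    range_eq (τ : F →+* AlgebraicClosure k) x
  have hτ : ∀ a : k, τ (σ a) = algebraMap k (AlgebraicClosure k) a := fun a => τ.commutes a
  have hev : ∀ (z : ι → F) (f : MvPolynomial ι R), MvPolynomial.aeval (fun i => τ (z i))
      (MvPolynomial.map (Ideal.Quotient.mk y.asIdeal) f) = τ (MvPolynomial.eval₂ φ z f) := by
    intro z f
    have h1 := MvPolynomial.eval₂_comp_left (τ : F →+* AlgebraicClosure k) φ z f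
    refine Eq.trans ?_ h1.symm
    rw [MvPolynomial.aeval_def, MvPolynomial.eval₂_map]
    congr 1
    refine RingHom.ext fun a => ?_
    show algebraMap k (AlgebraicClosure k) (Ideal.Quotient.mk y.asIdeal _) = τ (φ _)
    rw [← hτ, hσ]
  have hcard : Nat.card {x : ι → AlgebraicClosure k // (∀ i, x i ^ Fintype.card F = x i) ∧
      ∀ f ∈ MvPolynomial.map (Ideal.Quotient.mk y.asIdeal) '' E, MvPolynomial.aeval x f = 0} =
      Nat.card {x : ι → F // ∀ f ∈ E, MvPolynomial.eval₂ φ x f = 0} := by
    refine (Nat.card_congr (Equiv.ofBijective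
      (fun P : {x : ι → F // ∀ f ∈ E, MvPolynomial.eval₂ φ x f = 0} =>
      (⟨fun i => τ (P.1 i), fun i => (hrange _).2 ⟨_, rfl⟩, by
        rintro _ ⟨f, hf, rfl⟩
        rw [hev, P.2 f hf, map_zero]⟩ : {x : ι → AlgebraicClosure k //
          (∀ i, x i ^ Fintype.card F = x i) ∧
      ∀ f ∈ MvPolynomial.map (Ideal.Quotient.mk y.asIdeal) '' E,
        MvPolynomial.aeval x f = 0})) ⟨?_, ?_⟩)).symm
    · intro P P' h
      have h1 := congrArg (fun w => w.1) h
      apply Subtype.ext
      funext i
      exact τ.injective (congrFun h1 i)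
    · rintro ⟨x, h1, h2⟩
      choose z hz using fun i => (hrange (x i)).1 (h1 i)
      have hx : x = fun i => τ (z i) := funext fun i => (hz i).symm
      subst hx
      refine ⟨⟨z, fun f hf => ?_⟩, rfl⟩
      apply τ.injective
      show τ (MvPolynomial.eval₂ φ z f) = τ 0
      rw [← hev, h2 _ ⟨f, hf, rfl⟩, map_zero]
  show (((Nat.card {x : ι → AlgebraicClosure k // (∀ i, x i ^ Fintype.card F = x i) ∧
      ∀ f ∈ MvPolynomial.map (Ideal.Quotient.mk y.asIdeal) '' E,
        MvPolynomial.aeval x f = 0} : ℕ) : ℝ) - 1) / ((Fintype.card F : ℝ) - 1) = _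
  rw [hcard]

/-- the points of the fibres, in projective space -/
theorem fibreCount_eq {ι : Type} [Fintype ι] (E : Set (MvPolynomial ι R))
    (hE : ∀ f ∈ E, ∃ e : ℕ, 0 < e ∧ f.IsHomogeneous e)
    {F : Type} [Field F] [Fintype F] (φ : R →+* F) :
    fibreCount (ptOf φ).asIdeal (ptOf φ).isMaximal E (Fintype.card F) =
      Nat.card {p : ℙ F (ι → F) // ∀ f ∈ E, MvPolynomial.eval₂ φ p.rep f = 0} := by
  rw [fibreCount_cone, card_cone (fun x => ∀ f ∈ E, MvPolynomial.eval₂ φ x f = 0)]
  · intro f hf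
    obtain ⟨e, he, h⟩ := hE f hf
    have h1 := eval_smul φ h 0 0
    rw [zero_smul, zero_pow he.ne', zero_mul] at h1
    exact h1
  · intro a x ha h f hf
    obtain ⟨e, he, h'⟩ := hE f hf
    rw [eval_smul φ h', h f hf, mul_zero]

end fibre

section forms

variable {F : Type} [Field F] {M d : ℕ}

/-- the values of the forms of degree `d` -/
noncomputable def evf (x : Fin (M + 1) → F) : (Monomials M d → F) →+ F where
  toFun t := ∑ α, t α * ∏ i, x i ^ (α.1 i : ℕ)
  map_zero' := by simp
  map_add' t t' := by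
    rw [← sum_add_distrib]
    refine sum_congr rfl fun α _ => ?_
    rw [Pi.add_apply, add_mul]

lemma evf_apply (x : Fin (M + 1) → F) (t : Monomials M d → F) :
    evf x t = ∑ α, t α * ∏ i, x i ^ (α.1 i : ℕ) := rfl

/-- the type of a sequence of variables -/
def typ (f : Fin d → Fin (M + 1)) : Monomials M d :=
  ⟨fun i => ⟨(univ.filter fun s => f s = i).card, by
    have h1 : (univ.filter fun s => f s = i).card ≤ (univ : Finset (Fin d)).card :=
      card_le_card (filter_subset _ _)
    rw [card_univ, Fintype.card_fin] at h1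
    omega⟩, by
    have h1 := card_eq_sum_card_fiberwise (f := f) (s := univ) (t := univ) (fun x _ => mem_univ _)
    rw [card_univ, Fintype.card_fin] at h1
    exact h1.symm⟩

/-- products of linear forms -/
lemma exists_form (L : Fin d → Fin (M + 1) → F) :
    ∃ t : Monomials M d → F, ∀ x : Fin (M + 1) → F, evf x t = ∏ s, ∑ i, L s i * x i := by
  classical
  refine ⟨fun α => ∑ f : Fin d → Fin (M + 1) with typ f = α, ∏ s, L s (f s), fun x => ?_⟩
  rw [prod_univ_sum, Fintype.piFinset_univ, evf_apply]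
  rw [← sum_fiberwise_of_maps_to (s := univ) (t := univ) (g := fun f => typ (M := M) (d := d) f)
    (fun _ _ => mem_univ _)]
  refine sum_congr rfl fun α _ => ?_
  rw [sum_mul]
  refine sum_congr rfl fun f hf => ?_
  rw [prod_mul_distrib]
  congr 1
  have h1 : typ f = α := (mem_filter.1 hf).2
  rw [← h1]
  have h2 := prod_fiberwise_of_maps_to (s := univ) (t := univ) (g := f) (fun _ _ => mem_univ _)
    (fun s => x (f s))
  rw [← h2]
  refine prod_congr rfl fun i _ => ?_
  rw [prod_congr rfl fun s hs => by rw [(mem_filter.1 hs).2], prod_const]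
  rfl

lemma evf_smul (a : F) (x : Fin (M + 1) → F) (t : Monomials M d → F) :
    evf x (a • t) = a * evf x t := by
  rw [evf_apply, evf_apply, mul_sum]
  refine sum_congr rfl fun α _ => ?_
  rw [Pi.smul_apply, smul_eq_mul, mul_assoc]

/-- a linear form that vanishes at one of two points -/
lemma exists_linear {a b : ℙ F (Fin (M + 1) → F)} (hab : a ≠ b) :
    ∃ L : Fin (M + 1) → F, ∑ i, L i * b.rep i = 0 ∧ ∑ i, L i * a.rep i ≠ 0 := by
  classical
  by_contra hcon
  push Not at hcon
  apply hab
  have h1 : ∀ i j, b.rep j * a.rep i = b.rep i * a.rep j := by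
    intro i j
    have h2 := hcon (fun l => (if l = i then b.rep j else 0) - (if l = j then b.rep i else 0)) (by
      simp only [sub_mul, sum_sub_distrib, ite_mul, zero_mul, sum_ite_eq', mem_univ, if_true]
      ring)
    simp only [sub_mul, sum_sub_distrib, ite_mul, zero_mul, sum_ite_eq', mem_univ, if_true] at h2
    exact sub_eq_zero.1 h2
  obtain ⟨j, hj⟩ : ∃ j, b.rep j ≠ 0 := by
    by_contra h
    push Not at h
    exact b.rep_nonzero (funext h)
  have haj : a.rep j ≠ 0 := by
    intro h0
    apply a.rep_nonzero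
    funext i
    have h2 := h1 i j
    rw [h0, mul_zero] at h2
    exact (mul_eq_zero.1 h2).resolve_left hj
  rw [← Projectivization.mk_rep a, ← Projectivization.mk_rep b, Projectivization.mk_eq_mk_iff']
  refine ⟨a.rep j / b.rep j, ?_⟩
  funext i
  rw [Pi.smul_apply, smul_eq_mul, div_mul_eq_mul_div, div_eq_iff hj]
  rw [mul_comm (a.rep j), ← h1 i j, mul_comm]

lemma exists_linear' (a : ℙ F (Fin (M + 1) → F)) :
    ∃ L : Fin (M + 1) → F, ∑ i, L i * a.rep i ≠ 0 := by
  classical
  obtain ⟨j, hj⟩ : ∃ j, a.rep j ≠ 0 := by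
    by_contra h
    push Not at h
    exact a.rep_nonzero (funext h)
  refine ⟨fun l => if l = j then 1 else 0, ?_⟩
  simp only [ite_mul, zero_mul, one_mul, sum_ite_eq', mem_univ, if_true]
  exact hj

/-- **Few points impose independent conditions on the forms.** -/
theorem indep_forms [DecidableEq F] (S : Type) [DecidableEq S] (p : S → ℙ F (Fin (M + 1) → F))
    (hp : Function.Injective p) :
    Indep (fun x : S => evf (d := d) (p x).rep) (d + 1) := by
  classical
  intro D hD w
  have h1 : ∀ a ∈ D, ∃ t : Monomials M d → F, evf (p a).rep t ≠ 0 ∧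
      ∀ b ∈ D, b ≠ a → evf (p b).rep t = 0 := by
    intro a ha
    choose L1 h1 h2 using fun b : {b : S // b ≠ a} =>
      exists_linear (fun h => b.2 (hp h).symm : p a ≠ p b.1)
    obtain ⟨L0, h0⟩ := exists_linear' (p a)
    have hc : (D.erase a).card ≤ d := by
      rw [card_erase_of_mem ha]
      omega
    let e := (D.erase a).equivFin
    let L : Fin d → Fin (M + 1) → F := fun s =>
      if h : s.1 < (D.erase a).card then
        L1 ⟨(e.symm ⟨s.1, h⟩).1, ne_of_mem_erase (e.symm ⟨s.1, h⟩).2⟩ else L0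
    obtain ⟨t, ht⟩ := exists_form L
    refine ⟨t, ?_, ?_⟩
    · rw [ht, prod_ne_zero_iff]
      intro s _
      by_cases h : s.1 < (D.erase a).card
      · have h3 : L s = L1 ⟨(e.symm ⟨s.1, h⟩).1, ne_of_mem_erase (e.symm ⟨s.1, h⟩).2⟩ := dif_pos h
        rw [h3]
        exact h2 _
      · have h3 : L s = L0 := dif_neg h
        rw [h3]
        exact h0
    · intro b hb hba
      rw [ht]
      have hb' : b ∈ D.erase a := mem_erase.2 ⟨hba, hb⟩
      have hs := (e ⟨b, hb'⟩).2
      refine prod_eq_zero (mem_univ (⟨(e ⟨b, hb'⟩).1, lt_of_lt_of_le hs hc⟩ : Fin d)) ?_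
      have h3 : L ⟨(e ⟨b, hb'⟩).1, lt_of_lt_of_le hs hc⟩ =
          L1 ⟨(e.symm ⟨(e ⟨b, hb'⟩).1, hs⟩).1, ne_of_mem_erase (e.symm ⟨(e ⟨b, hb'⟩).1, hs⟩).2⟩ :=
        dif_pos hs
      have h4 : e.symm ⟨(e ⟨b, hb'⟩).1, hs⟩ = ⟨b, hb'⟩ := by
        rw [Equiv.symm_apply_eq]
      rw [h3]
      have h5 : (⟨(e.symm ⟨(e ⟨b, hb'⟩).1, hs⟩).1,
          ne_of_mem_erase (e.symm ⟨(e ⟨b, hb'⟩).1, hs⟩).2⟩ : {b : S // b ≠ a}) = ⟨b, hba⟩ := by
        apply Subtype.ext
        show (e.symm ⟨(e ⟨b, hb'⟩).1, hs⟩).1 = b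
        rw [h4]
      rw [h5]
      exact h1 ⟨b, hba⟩
  choose! t ht1 ht2 using h1
  refine ⟨∑ a ∈ D, (w a / evf (p a).rep (t a)) • t a, fun x hx => ?_⟩
  rw [map_sum, sum_eq_single_of_mem x hx]
  · rw [evf_smul, div_mul_cancel₀ _ (ht1 x hx)]
  · intro b hb hbx
    rw [evf_smul, ht2 b hb x hx (Ne.symm hbx), mul_zero]

end forms

end Pool.Agent.L0h11.TF
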