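import Mathlib
import Pool.Agent.L0h11.I.Ps

/-!
# The traces of Frobenius
-/

set_option autoImplicit false
set_option linter.all false

namespace Pool.Agent.L0h11.FrobVariety

open Finset Polynomial
open Pool.Agent.TH958.An
open Pool.Agent.L0h11.TF

variable {A : Type} [CommRing A] (X : FrobVariety A) {F : Type} [Field F] [Fintype F] (φ : A →+* F)

section wrap

variable (a : ℕ) (I : Ideal A) (hI : I.IsMaximal) (hg : X.good ∉ I)

include hI hg

theorem card_eig : Multiset.card (X.eig a I) = X.betti a := (X.frob I hI hg).card a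

theorem norm_eig : ∀ z ∈ X.eig a I, ‖z‖ = √(Nat.card (A ⧸ I) : ℝ) ^ a := (X.frob I hI hg).norm a

theorem eig_large (ha : 2 * X.dim < a) : X.eig a I = 0 := (X.frob I hI hg).large a ha

end wrap

theorem eig_zero (I : Ideal A) (hI : I.IsMaximal) (hg : X.good ∉ I) : X.eig 0 I = {1} :=
  (X.frob I hI hg).zero

theorem lefschetz (j : ℕ) (I : Ideal A) (hI : I.IsMaximal) (hg : X.good ∉ I) (hj : j ≤ X.dim) :
    X.eig (X.dim + j) I = (X.eig (X.dim - j) I).map fun z => (Nat.card (A ⧸ I) : ℂ) ^ j * z :=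
  (X.frob I hI hg).lefschetz j hj

theorem points (I : Ideal A) (hI : I.IsMaximal) (hg : X.good ∉ I) (l : ℕ) (hl : 0 < l) :
    (fibreCount I hI X.eqs (Nat.card (A ⧸ I) ^ l) : ℂ) =
      ∑ a ∈ Finset.range (2 * X.dim + 1), (-1) ^ a * ((X.eig a I).map fun z => z ^ l).sum :=
  (X.frob I hI hg).points l hl

omit [Fintype F] in
lemma one_le_card' (F : Type) [Field F] [Fintype F] : (1 : ℝ) < Fintype.card F := by
  have := Fintype.one_lt_card (α := F)
  exact_mod_cast this

lemma sqrt_pow' {x : ℝ} (hx : 0 ≤ x) (n : ℕ) : √(x ^ n) = √x ^ n := by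
  induction n with
  | zero => simp
  | succ n ih => rw [pow_succ, pow_succ, Real.sqrt_mul (pow_nonneg hx n), ih]

lemma card_eq_pow : ∃ l : ℕ, 0 < l ∧ 1 < Nat.card (A ⧸ (ptOf φ).asIdeal) ∧
    Fintype.card F = Nat.card (A ⧸ (ptOf φ).asIdeal) ^ l := by
  set y := ptOf φ with hy
  let k := Res y
  let σ : k →+* F := fiberEquiv (F := F) y ⟨φ, rfl⟩
  let _ : Algebra k F := σ.toAlgebra
  have : Finite k := Finite.of_injective σ σ.injective
  have : Module.Finite k F := Module.Finite.of_finite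
  refine ⟨Module.finrank k F, Module.finrank_pos, ?_, ?_⟩
  · show 1 < Nat.card k
    exact Finite.one_lt_card
  · rw [← Nat.card_eq_fintype_card]
    exact Module.natCard_eq_pow_finrank (K := k) (V := F)

/-- the trace -/
noncomputable abbrev tt (a : ℕ) : ℂ := X.tr a (ptOf φ).asIdeal (Fintype.card F)

/-- the sum of the Betti numbers -/
noncomputable def bb : ℝ := ∑ a ∈ range (2 * X.dim + 1), (X.betti a : ℝ)

lemma bb_nonneg : 0 ≤ X.bb := sum_nonneg fun _ _ => Nat.cast_nonneg _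

variable {X φ} (hg : φ X.good ≠ 0)

include hg

lemma good_notMem : X.good ∉ (ptOf φ).asIdeal := fun h => hg ((mem_ptOf φ _).1 h)

lemma norm_tt_le (a : ℕ) : ‖X.tt φ a‖ ≤ X.betti a * √(Fintype.card F : ℝ) ^ a := by
  obtain ⟨l, hl, hk, hF⟩ := card_eq_pow φ
  have h1 : ∀ z ∈ X.eig a (ptOf φ).asIdeal, ‖z ^ l‖ = √(Fintype.card F : ℝ) ^ a := by
    intro z hz
    rw [norm_pow, X.norm_eig a _ (ptOf φ).isMaximal (good_notMem hg) z hz, hF, Nat.cast_pow,
      sqrt_pow' (Nat.cast_nonneg _), ← pow_mul, ← pow_mul, mul_comm]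
  unfold tt tr
  rw [hF, Nat.log_pow hk, ← hF]
  calc _ ≤ ((X.eig a (ptOf φ).asIdeal).map fun z => ‖z ^ l‖).sum := by
        refine (norm_multiset_sum_le _).trans (le_of_eq ?_)
        rw [Multiset.map_map]
        rfl
    _ = ((X.eig a (ptOf φ).asIdeal).map fun _ => √(Fintype.card F : ℝ) ^ a).sum := by
        rw [Multiset.map_congr rfl h1]
    _ = _ := by
        rw [Multiset.map_const', Multiset.sum_replicate, X.card_eig a _ (ptOf φ).isMaximal
          (good_notMem hg), nsmul_eq_mul]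

lemma tt_zero : X.tt φ 0 = 1 := by
  unfold tt tr
  rw [X.eig_zero _ (ptOf φ).isMaximal (good_notMem hg)]
  simp

lemma tt_large {a : ℕ} (ha : 2 * X.dim < a) : X.tt φ a = 0 := by
  unfold tt tr
  rw [X.eig_large a _ (ptOf φ).isMaximal (good_notMem hg) ha]
  simp

lemma tt_lefschetz {j : ℕ} (hj : j ≤ X.dim) :
    X.tt φ (X.dim + j) = (Fintype.card F : ℂ) ^ j * X.tt φ (X.dim - j) := by
  obtain ⟨l, hl, hk, hF⟩ := card_eq_pow φ
  unfold tt tr
  rw [X.lefschetz j _ (ptOf φ).isMaximal (good_notMem hg) hj, hF, Nat.log_pow hk,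
    Multiset.map_map, ← Multiset.sum_map_mul_left]
  congr 1
  refine Multiset.map_congr rfl fun z _ => ?_
  show ((Nat.card (A ⧸ (ptOf φ).asIdeal) : ℂ) ^ j * z) ^ l = _
  rw [mul_pow, Nat.cast_pow, ← pow_mul, ← pow_mul, mul_comm j l]

lemma points_tt : ((fibreCount (ptOf φ).asIdeal (ptOf φ).isMaximal X.eqs (Fintype.card F) : ℝ) : ℂ) =
    ∑ a ∈ range (2 * X.dim + 1), (-1) ^ a * X.tt φ a := by
  obtain ⟨l, hl, hk, hF⟩ := card_eq_pow φ
  have h1 := X.points _ (ptOf φ).isMaximal (good_notMem hg) l hl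
  rw [← hF] at h1
  rw [h1]
  refine sum_congr rfl fun a _ => ?_
  unfold tt tr
  rw [hF, Nat.log_pow hk]

omit hg in
lemma betti_le {a : ℕ} (ha : a ≤ 2 * X.dim) : (X.betti a : ℝ) ≤ X.bb :=
  single_le_sum (f := fun a => (X.betti a : ℝ)) (fun _ _ => Nat.cast_nonneg _)
    (mem_range.2 (by omega))

lemma sum_norm_le {m : ℕ} (hm : m ≤ 2 * X.dim + 1) {b : ℕ} (hb : ∀ a < m, a ≤ b) :
    ‖∑ a ∈ range m, (-1) ^ a * X.tt φ a‖ ≤ X.bb * √(Fintype.card F : ℝ) ^ b := by
  have hs1 : 1 ≤ √(Fintype.card F : ℝ) := Real.one_le_sqrt.2 (by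
    have := one_le_card' F
    linarith)
  calc _ ≤ ∑ a ∈ range m, (X.betti a : ℝ) * √(Fintype.card F : ℝ) ^ b := by
        refine norm_sum_le_of_le _ fun a ha => ?_
        rw [norm_mul, norm_pow, norm_neg, norm_one, one_pow, one_mul]
        refine (norm_tt_le hg a).trans ?_
        refine mul_le_mul_of_nonneg_left ?_ (Nat.cast_nonneg _)
        exact pow_le_pow_right₀ hs1 (hb a (mem_range.1 ha))
    _ = (∑ a ∈ range m, (X.betti a : ℝ)) * √(Fintype.card F : ℝ) ^ b := by rw [sum_mul]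
    _ ≤ _ := by
        refine mul_le_mul_of_nonneg_right ?_ (by positivity)
        exact sum_le_sum_of_subset_of_nonneg (range_subset_range.2 hm) fun _ _ _ => Nat.cast_nonneg _

/-- the number of the points -/
lemma points_bound {n : ℕ} (hd : X.dim = n + 1) :
    |fibreCount (ptOf φ).asIdeal (ptOf φ).isMaximal X.eqs (Fintype.card F) -
      (Fintype.card F : ℝ) ^ (n + 1)| * √(Fintype.card F : ℝ) ≤
      X.bb * (Fintype.card F : ℝ) ^ (n + 1) := by
  have hq0 : 0 ≤ (Fintype.card F : ℝ) := Nat.cast_nonneg _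
  have h1 := points_tt hg
  have h2 : X.tt φ (2 * X.dim) = (Fintype.card F : ℂ) ^ (n + 1) := by
    have h3 := tt_lefschetz hg (le_refl X.dim)
    rw [Nat.sub_self, tt_zero hg, mul_one] at h3
    rw [two_mul, h3, hd]
  rw [sum_range_succ, h2, (even_two_mul X.dim).neg_one_pow, one_mul] at h1
  have h3 : ((fibreCount (ptOf φ).asIdeal (ptOf φ).isMaximal X.eqs (Fintype.card F) -
      (Fintype.card F : ℝ) ^ (n + 1) : ℝ) : ℂ) = ∑ a ∈ range (2 * X.dim), (-1) ^ a * X.tt φ a := by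
    rw [Complex.ofReal_sub, h1]
    push_cast
    ring
  have h4 := sum_norm_le hg (m := 2 * X.dim) (by omega) (b := 2 * X.dim - 1) (by omega)
  rw [← h3, Complex.norm_real, Real.norm_eq_abs] at h4
  calc _ ≤ (X.bb * √(Fintype.card F : ℝ) ^ (2 * X.dim - 1)) * √(Fintype.card F : ℝ) :=
        mul_le_mul_of_nonneg_right h4 (Real.sqrt_nonneg _)
    _ = X.bb * √(Fintype.card F : ℝ) ^ (2 * (n + 1)) := by
        rw [mul_assoc, ← pow_succ]
        congr 2
        omega
    _ = _ := by rw [pow_mul, Real.sq_sqrt hq0]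

omit hg in
lemma ambient_eval {n : ℕ} (hd : X.dim = n + 1) :
    (X.ambient (ptOf φ).asIdeal (Fintype.card F)).eval (-1) =
      ∑ b ∈ range n, (-1) ^ b * X.tt φ b +
        ∑ b ∈ range (n + 1), (-1) ^ b * ((Fintype.card F : ℂ) ^ (n - b) * X.tt φ b) := by
  unfold ambient
  rw [eval_add, eval_finset_sum, sum_range_succ (n := n), Nat.sub_self, pow_zero, one_mul, ← add_assoc,
    ← sum_add_distrib]
  have hd1 : X.dim - 1 = n := by omega
  rw [hd1]
  simp only [eval_mul, eval_C, eval_add, eval_pow, eval_X]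
  congr 1
  · refine sum_congr rfl fun b hb => ?_
    have h1 : ((-1 : ℂ)) ^ (2 * n - b) = (-1) ^ b := by
      have h2 : b ≤ 2 * n := by
        have := mem_range.1 hb
        omega
      have h3 : ((-1 : ℂ)) ^ (2 * n - b) * (-1) ^ b = 1 := by
        rw [← pow_add, Nat.sub_add_cancel h2, (even_two_mul n).neg_one_pow]
      have h4 : ((-1 : ℂ)) ^ b * (-1) ^ b = 1 := by
        rw [← mul_pow]
        norm_num
      calc ((-1 : ℂ)) ^ (2 * n - b) = (-1) ^ (2 * n - b) * ((-1) ^ b * (-1) ^ b) := by rw [h4, mul_one]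
        _ = ((-1) ^ (2 * n - b) * (-1) ^ b) * (-1) ^ b := by ring
        _ = _ := by rw [h3, one_mul]
    rw [h1]
    ring
  · ring

/-- the constant part of the middle trace -/
lemma rho_eq {n : ℕ} (hd : X.dim = n + 1) :
    ((fibreCount (ptOf φ).asIdeal (ptOf φ).isMaximal X.eqs (Fintype.card F) /
      (Fintype.card F : ℝ) : ℝ) : ℂ) - (X.ambient (ptOf φ).asIdeal (Fintype.card F)).eval (-1) =
      (Fintype.card F : ℂ)⁻¹ * ∑ b ∈ range (n + 2), (-1) ^ b * X.tt φ b -
        ∑ b ∈ range n, (-1) ^ b * X.tt φ b := by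
  have hq : (Fintype.card F : ℂ) ≠ 0 := Nat.cast_ne_zero.2 Fintype.card_ne_zero
  rw [Complex.ofReal_div, points_tt hg, ambient_eval hd, hd]
  have h1 : ∑ a ∈ range (2 * (n + 1) + 1), (-1) ^ a * X.tt φ a =
      ∑ a ∈ range (n + 2), (-1) ^ a * X.tt φ a +
        (Fintype.card F : ℂ) * ∑ b ∈ range (n + 1), (-1) ^ b *
          ((Fintype.card F : ℂ) ^ (n - b) * X.tt φ b) := by
    have h2 : 2 * (n + 1) + 1 = (n + 2) + (n + 1) := by ring
    rw [h2, sum_range_add, mul_sum]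
    congr 1
    rw [← sum_range_reflect]
    refine sum_congr rfl fun b hb => ?_
    have hb' := mem_range.1 hb
    have h3 : n + 2 + (n + 1 - 1 - b) = X.dim + (n + 1 - b) := by omega
    have h4 : X.dim - (n + 1 - b) = b := by omega
    rw [h3, tt_lefschetz hg (by omega), h4]
    have h5 : ((-1 : ℂ)) ^ (X.dim + (n + 1 - b)) = (-1) ^ b := by
      have h6 : X.dim + (n + 1 - b) + b = 2 * (n + 1) := by omega
      have h7 : ((-1 : ℂ)) ^ (X.dim + (n + 1 - b)) * (-1) ^ b = 1 := by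
        rw [← pow_add, h6, (even_two_mul (n + 1)).neg_one_pow]
      have h8 : ((-1 : ℂ)) ^ b * (-1) ^ b = 1 := by
        rw [← mul_pow]
        norm_num
      calc ((-1 : ℂ)) ^ (X.dim + (n + 1 - b)) =
          (-1) ^ (X.dim + (n + 1 - b)) * ((-1) ^ b * (-1) ^ b) := by rw [h8, mul_one]
        _ = ((-1) ^ (X.dim + (n + 1 - b)) * (-1) ^ b) * (-1) ^ b := by ring
        _ = _ := by rw [h7, one_mul]
    have h6 : (Fintype.card F : ℂ) ^ (n + 1 - b) = Fintype.card F * (Fintype.card F : ℂ) ^ (n - b) := by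
      rw [← pow_succ']
      congr 1
      omega
    rw [h5, h6]
    ring
  rw [h1, Complex.ofReal_natCast]
  field_simp
  ring

lemma rho_bound {n : ℕ} (hn : 1 ≤ n) (hd : X.dim = n + 1) :
    ‖((fibreCount (ptOf φ).asIdeal (ptOf φ).isMaximal X.eqs (Fintype.card F) /
      (Fintype.card F : ℝ) : ℝ) : ℂ) - (X.ambient (ptOf φ).asIdeal (Fintype.card F)).eval (-1)‖ *
        √(Fintype.card F : ℝ) ≤ 2 * X.bb * √((Fintype.card F : ℝ) ^ n) := by
  have hq0 : 0 < (Fintype.card F : ℝ) := by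
    have := one_le_card' F
    linarith
  have hs0 : 0 < √(Fintype.card F : ℝ) := Real.sqrt_pos.2 hq0
  have hsq : √(Fintype.card F : ℝ) * √(Fintype.card F : ℝ) = Fintype.card F :=
    Real.mul_self_sqrt hq0.le
  rw [rho_eq hg hd, sqrt_pow' hq0.le]
  obtain ⟨n', rfl⟩ : ∃ n', n = n' + 1 := ⟨n - 1, by omega⟩
  have h1 := sum_norm_le hg (m := n' + 1 + 2) (by omega) (b := n' + 2) (by omega)
  have h2 := sum_norm_le hg (m := n' + 1) (by omega) (b := n') (by omega)
  have h3 : ‖(Fintype.card F : ℂ)⁻¹ * ∑ b ∈ range (n' + 1 + 2), (-1) ^ b * X.tt φ b‖ ≤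
      X.bb * √(Fintype.card F : ℝ) ^ n' := by
    rw [norm_mul, norm_inv, Complex.norm_natCast, inv_mul_le_iff₀ hq0]
    refine h1.trans (le_of_eq ?_)
    rw [pow_add, pow_two, hsq]
    ring
  calc _ ≤ (X.bb * √(Fintype.card F : ℝ) ^ n' + X.bb * √(Fintype.card F : ℝ) ^ n') *
        √(Fintype.card F : ℝ) := by
        refine mul_le_mul_of_nonneg_right ?_ hs0.le
        exact (norm_sub_le _ _).trans (add_le_add h3 h2)
    _ = _ := by
        rw [pow_succ]
        ring

end Pool.Agent.L0h11.FrobVariety
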