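import Mathlib
import Pool.Agent.L0h11.I.Fv

/-!
# The expansion of the traces
-/

set_option autoImplicit false
set_option linter.all false

namespace Pool.Agent.L0h11.TF

open Finset Polynomial
open Pool.Agent.TH958.An
open Pool.Agent.L0h11.CC

section poly

/-- `Q` is a majorant of `P` -/
def Maj (P : ℂ[X]) (Q : ℝ[X]) : Prop := ∀ a, ‖P.coeff a‖ ≤ Q.coeff a

lemma Maj.add {P P' : ℂ[X]} {Q Q' : ℝ[X]} (h : Maj P Q) (h' : Maj P' Q') :
    Maj (P + P') (Q + Q') := fun a => by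
  rw [coeff_add, coeff_add]
  exact (norm_add_le _ _).trans (add_le_add (h a) (h' a))

lemma Maj.mul {P P' : ℂ[X]} {Q Q' : ℝ[X]} (h : Maj P Q) (h' : Maj P' Q') :
    Maj (P * P') (Q * Q') := fun a => by
  rw [coeff_mul, coeff_mul]
  refine norm_sum_le_of_le _ fun z _ => ?_
  rw [norm_mul]
  exact mul_le_mul (h _) (h' _) (norm_nonneg _) ((norm_nonneg _).trans (h _))

lemma Maj.sum {ι : Type} (s : Finset ι) {P : ι → ℂ[X]} {Q : ι → ℝ[X]} (h : ∀ j ∈ s, Maj (P j) (Q j)) :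
    Maj (∑ j ∈ s, P j) (∑ j ∈ s, Q j) := fun a => by
  rw [finset_sum_coeff, finset_sum_coeff]
  exact norm_sum_le_of_le _ fun j hj => h j hj a

lemma Maj.C_mul_X_pow {c : ℂ} {c' : ℝ} (h : ‖c‖ ≤ c') (n : ℕ) :
    Maj (C c * X ^ n) (C c' * X ^ n) := fun a => by
  rw [coeff_C_mul_X_pow, coeff_C_mul_X_pow]
  split_ifs
  · exact h
  · rw [norm_zero]

lemma Maj.one : Maj 1 1 := fun a => by
  rw [coeff_one, coeff_one]
  split_ifs
  · rw [norm_one]
  · rw [norm_zero]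

lemma Maj.pow {P : ℂ[X]} {Q : ℝ[X]} (h : Maj P Q) (n : ℕ) : Maj (P ^ n) (Q ^ n) := by
  induction n with
  | zero =>
    rw [pow_zero, pow_zero]
    exact Maj.one
  | succ n ih =>
    rw [pow_succ, pow_succ]
    exact ih.mul h

lemma Maj.coeff_le {P : ℂ[X]} {Q : ℝ[X]} (h : Maj P Q) {x : ℝ} (hx : 0 ≤ x) (a : ℕ) :
    ‖P.coeff a‖ * x ^ a ≤ Q.eval x := by
  have h0 : ∀ b, 0 ≤ Q.coeff b := fun b => (norm_nonneg _).trans (h b)
  refine (mul_le_mul_of_nonneg_right (h a) (pow_nonneg hx a)).trans ?_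
  rw [eval_eq_sum, sum_def]
  by_cases ha : a ∈ Q.support
  · exact single_le_sum (f := fun b => Q.coeff b * x ^ b)
      (fun b _ => mul_nonneg (h0 b) (pow_nonneg hx b)) ha
  · rw [notMem_support_iff.1 ha, zero_mul]
    exact sum_nonneg fun b _ => mul_nonneg (h0 b) (pow_nonneg hx b)

/-- the coefficients of the expansion -/
noncomputable def cc (P Q : ℂ[X]) (n i r e : ℕ) : ℂ :=
  if n * e ≤ 2 * i then (P * Q ^ (r - e)).coeff (2 * i - n * e) else 0

lemma coeff_expand (P Q : ℂ[X]) (τ : ℂ) (n i r : ℕ) :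
    (P * (Q + C τ * X ^ n) ^ r).coeff (2 * i) =
      ∑ e ∈ range (r + 1), (r.choose e : ℂ) * cc P Q n i r e * τ ^ e := by
  rw [add_comm Q, add_pow, mul_sum, finset_sum_coeff]
  refine sum_congr rfl fun e _ => ?_
  have h1 : P * ((C τ * X ^ n) ^ e * Q ^ (r - e) * ((r.choose e : ℕ) : ℂ[X])) =
      C ((r.choose e : ℂ) * τ ^ e) * ((P * Q ^ (r - e)) * X ^ (n * e)) := by
    rw [mul_pow, ← pow_mul, C_mul, C_pow, ← C_eq_natCast]
    ring
  rw [h1, coeff_C_mul, coeff_mul_X_pow']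
  unfold cc
  ring

lemma cc_bound {P Q : ℂ[X]} {P' Q' : ℝ[X]} (hP : Maj P P') (hQ : Maj Q Q') {s b c : ℝ} (hs : 1 ≤ s)
    (hb : P'.eval s⁻¹ ≤ b) (hc : Q'.eval s⁻¹ ≤ c) (hc1 : 1 ≤ c) (n i r e : ℕ) :
    ‖cc P Q n i r e‖ * s ^ (n * e) ≤ b * c ^ r * s ^ (2 * i) := by
  have hs0 : 0 < s := by linarith
  have hb0 : 0 ≤ P'.eval s⁻¹ :=
    (mul_nonneg (norm_nonneg _) (pow_nonneg (inv_nonneg.2 hs0.le) 0)).trans
      (hP.coeff_le (inv_nonneg.2 hs0.le) 0)
  have hc0 : 0 ≤ Q'.eval s⁻¹ :=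
    (mul_nonneg (norm_nonneg _) (pow_nonneg (inv_nonneg.2 hs0.le) 0)).trans
      (hQ.coeff_le (inv_nonneg.2 hs0.le) 0)
  unfold cc
  split_ifs with h
  · have h1 := (hP.mul (hQ.pow (r - e))).coeff_le (inv_nonneg.2 hs0.le) (2 * i - n * e)
    rw [inv_pow, ← div_eq_mul_inv, div_le_iff₀ (by positivity), eval_mul, eval_pow] at h1
    calc _ ≤ (P'.eval s⁻¹ * Q'.eval s⁻¹ ^ (r - e) * s ^ (2 * i - n * e)) * s ^ (n * e) :=
          mul_le_mul_of_nonneg_right h1 (by positivity)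
      _ = (P'.eval s⁻¹ * Q'.eval s⁻¹ ^ (r - e)) * s ^ (2 * i) := by
          rw [mul_assoc, ← pow_add, Nat.sub_add_cancel h]
      _ ≤ (b * c ^ r) * s ^ (2 * i) := by
          refine mul_le_mul_of_nonneg_right ?_ (by positivity)
          refine mul_le_mul hb ?_ (by positivity) (hb0.trans hb)
          exact (pow_le_pow_left₀ hc0 hc _).trans (pow_le_pow_right₀ hc1 (by omega))
  · rw [norm_zero, zero_mul]
    have hb1 := hb0.trans hb
    positivity

/-- sums over the even numbers -/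
lemma sum_even {E : Type} [AddCommMonoid E] (a : ℕ → E) (r : ℕ) (ha : ∀ e, ¬ Even e → a e = 0) :
    ∑ e ∈ range (r + 1), a e = ∑ f ∈ range (r / 2 + 1), a (2 * f) := by
  symm
  refine sum_of_injOn (fun f => 2 * f) (fun f _ f' _ h => ?_) (fun f hf => ?_) (fun e he he' => ?_)
    (fun _ _ => rfl)
  · have h' : 2 * f = 2 * f' := h
    omega
  · have h1 := mem_range.1 (mem_coe.1 hf)
    refine mem_coe.2 (mem_range.2 ?_)
    show 2 * f < r + 1
    omega
  · apply ha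
    intro hev
    obtain ⟨f, hf⟩ := hev
    apply he'
    refine ⟨f, mem_coe.2 (mem_range.2 ?_), ?_⟩
    · have := mem_range.1 he
      omega
    · show 2 * f = e
      omega

end poly

section maj

variable {A : Type} [CommRing A] {X : FrobVariety A} {F : Type} [Field F] [Fintype F] {φ : A →+* F}

lemma maj_poly (hg : φ X.good ≠ 0) : ∃ Q : ℝ[X], Maj (X.poly (ptOf φ).asIdeal (Fintype.card F)) Q ∧
    Q.eval (√(Fintype.card F : ℝ))⁻¹ ≤ X.bb := by
  have hs0 : 0 < √(Fintype.card F : ℝ) := Real.sqrt_pos.2 (by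
    have := FrobVariety.one_le_card' F
    linarith)
  refine ⟨∑ a ∈ range (2 * X.dim + 1), C (X.betti a * √(Fintype.card F : ℝ) ^ a) * Polynomial.X ^ a,
    ?_, ?_⟩
  · exact Maj.sum _ fun a _ => Maj.C_mul_X_pow (FrobVariety.norm_tt_le hg a) a
  · rw [eval_finset_sum]
    refine sum_le_sum fun a _ => le_of_eq ?_
    rw [eval_mul, eval_C, eval_pow, eval_X, mul_assoc, ← mul_pow, mul_inv_cancel₀ hs0.ne', one_pow,
      mul_one]

lemma maj_ambient (hg : φ X.good ≠ 0) {n : ℕ} (hd : X.dim = n + 1) :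
    ∃ Q : ℝ[X], Maj (X.ambient (ptOf φ).asIdeal (Fintype.card F)) Q ∧
      Q.eval (√(Fintype.card F : ℝ))⁻¹ ≤ 2 * X.bb := by
  have hq0 : 0 ≤ (Fintype.card F : ℝ) := Nat.cast_nonneg _
  have hs0 : 0 < √(Fintype.card F : ℝ) := Real.sqrt_pos.2 (by
    have := FrobVariety.one_le_card' F
    linarith)
  have hd1 : X.dim - 1 = n := by omega
  refine ⟨∑ b ∈ range (X.dim - 1), C (X.betti b * √(Fintype.card F : ℝ) ^ b) *
    (C 1 * Polynomial.X ^ b + C ((Fintype.card F : ℝ) ^ (X.dim - 1 - b)) *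
      Polynomial.X ^ (2 * (X.dim - 1) - b)) +
    C (X.betti (X.dim - 1) * √(Fintype.card F : ℝ) ^ (X.dim - 1)) * Polynomial.X ^ (X.dim - 1),
    ?_, ?_⟩
  · refine Maj.add (Maj.sum _ fun b _ => ?_) (Maj.C_mul_X_pow (FrobVariety.norm_tt_le hg _) _)
    have h1 : Maj (C (X.tr b (ptOf φ).asIdeal (Fintype.card F)))
        (C (X.betti b * √(Fintype.card F : ℝ) ^ b)) := by
      have h2 := Maj.C_mul_X_pow (FrobVariety.norm_tt_le hg b) 0
      rw [pow_zero, mul_one, pow_zero, mul_one] at h2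
      exact h2
    refine h1.mul (Maj.add ?_ ?_)
    · have h2 := Maj.C_mul_X_pow (c := 1) (c' := 1) (by rw [norm_one]) b
      rw [map_one, one_mul] at h2
      exact h2
    · refine Maj.C_mul_X_pow ?_ _
      rw [norm_pow, Complex.norm_natCast]
  · rw [eval_add, eval_finset_sum, hd1]
    simp only [eval_mul, eval_C, eval_add, eval_pow, eval_X, one_mul]
    have h1 : ∀ b ∈ range n, (X.betti b * √(Fintype.card F : ℝ) ^ b) *
        ((√(Fintype.card F : ℝ))⁻¹ ^ b + (Fintype.card F : ℝ) ^ (n - b) *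
          (√(Fintype.card F : ℝ))⁻¹ ^ (2 * n - b)) = 2 * (X.betti b : ℝ) := by
      intro b hb
      have hb' := mem_range.1 hb
      have h2 : √(Fintype.card F : ℝ) ^ b * (√(Fintype.card F : ℝ))⁻¹ ^ b = 1 := by
        rw [← mul_pow, mul_inv_cancel₀ hs0.ne', one_pow]
      have h3 : √(Fintype.card F : ℝ) ^ b * ((Fintype.card F : ℝ) ^ (n - b) *
          (√(Fintype.card F : ℝ))⁻¹ ^ (2 * n - b)) = 1 := by
        have h4 : (Fintype.card F : ℝ) ^ (n - b) = √(Fintype.card F : ℝ) ^ (2 * (n - b)) := by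
          rw [pow_mul, Real.sq_sqrt hq0]
        have h5 : 2 * n - b = b + 2 * (n - b) := by omega
        rw [h4, ← mul_assoc, ← pow_add, h5, ← mul_pow, mul_inv_cancel₀ hs0.ne', one_pow]
      rw [mul_assoc, mul_add, h2, h3]
      ring
    rw [sum_congr rfl h1, mul_assoc, ← mul_pow, mul_inv_cancel₀ hs0.ne', one_pow, mul_one,
      ← mul_sum]
    have h2 : ∑ b ∈ range n, (X.betti b : ℝ) + X.betti n ≤ X.bb := by
      rw [← sum_range_succ]
      exact sum_le_sum_of_subset_of_nonneg (range_subset_range.2 (by omega))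
        fun _ _ _ => Nat.cast_nonneg _
    have h3 : (0 : ℝ) ≤ X.betti n := Nat.cast_nonneg _
    linarith

lemma one_le_bb (hg : φ X.good ≠ 0) : 1 ≤ X.bb := by
  have h1 : X.betti 0 = 1 := by
    rw [← X.card_eig 0 _ (ptOf φ).isMaximal (FrobVariety.good_notMem hg),
      X.eig_zero _ (ptOf φ).isMaximal (FrobVariety.good_notMem hg), Multiset.card_singleton]
  have h2 := FrobVariety.betti_le (X := X) (a := 0) (Nat.zero_le _)
  rw [h1, Nat.cast_one] at h2
  exact h2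

end maj

end Pool.Agent.L0h11.TF
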