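import Mathlib
import Pool.Agent.L0h11.I.Ex
import Pool.Agent.L0h11.Hd

/-!
# The traces over the points above a point of the base
-/

set_option autoImplicit false
set_option linter.all false

namespace Pool.Agent.L0h11.SectionPower

open Finset Polynomial
open Pool.Agent.TH958.An
open Pool.Agent.L0h11.TF
open Pool.Agent.L0h11.CC
open scoped LinearAlgebra.Projectivization

variable {A : Type} [CommRing A] (T : SectionPower A) {F : Type} [Field F] [Fintype F]
  (φ : A →+* F)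

/-- the points of `Z` -/
abbrev ST : Type := {p : ℙ F (Fin (T.Z.M + 1) → F) // ∀ g ∈ T.Z.eqs, MvPolynomial.eval₂ φ p.rep g = 0}

instance finST : Finite (T.ST φ) :=
  Finite.of_injective (fun p => p.1.rep) fun p p' h => by
    apply Subtype.ext
    rw [← Projectivization.mk_rep p.1, ← Projectivization.mk_rep p'.1]
    congr 1

/-- the values of the forms -/
noncomputable abbrev ev (x : T.ST φ) : (Monomials T.Z.M T.d → F) →+ F := evf x.1.rep

/-- the point of the parameter space -/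
noncomputable abbrev pt (t : Monomials T.Z.M T.d → F) : T.B →+* F := MvPolynomial.eval₂Hom φ t

lemma comap_pt (t : Monomials T.Z.M T.d → F) :
    (ptOf (T.pt φ t)).asIdeal.comap MvPolynomial.C = (ptOf φ).asIdeal := by
  ext a
  rw [Ideal.mem_comap, mem_ptOf, mem_ptOf, MvPolynomial.coe_eval₂Hom, MvPolynomial.eval₂_C]

lemma u_pos : 0 < T.u := by
  have := T.r_lt
  omega

lemma d_pos : 0 < T.d := by
  have := T.u_pos
  have := T.u_le
  omega

lemma form_homogeneous : T.form.IsHomogeneous T.d := by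
  unfold form
  refine MvPolynomial.IsHomogeneous.sum _ _ _ fun α _ => ?_
  refine MvPolynomial.IsHomogeneous.C_mul ?_ _
  have h1 := MvPolynomial.IsHomogeneous.prod univ
    (fun i => (MvPolynomial.X i ^ (α.1 i : ℕ) : MvPolynomial (Fin (T.Z.M + 1)) T.B))
    (fun i => (α.1 i : ℕ)) (fun i _ => MvPolynomial.isHomogeneous_X_pow i _)
  rw [α.2] at h1
  exact h1

lemma eval_form (t : Monomials T.Z.M T.d → F) (x : Fin (T.Z.M + 1) → F) :
    MvPolynomial.eval₂ (T.pt φ t) x T.form = evf x t := by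
  unfold form
  rw [MvPolynomial.eval₂_sum, evf_apply]
  refine sum_congr rfl fun α _ => ?_
  rw [MvPolynomial.eval₂_mul, MvPolynomial.eval₂_C, MvPolynomial.coe_eval₂Hom, MvPolynomial.eval₂_X,
    MvPolynomial.eval₂_prod]
  congr 1
  refine prod_congr rfl fun i _ => ?_
  rw [MvPolynomial.eval₂_pow, MvPolynomial.eval₂_X]

lemma eval_map (t : Monomials T.Z.M T.d → F) (x : Fin (T.Z.M + 1) → F)
    (g : MvPolynomial (Fin (T.Z.M + 1)) A) :
    MvPolynomial.eval₂ (T.pt φ t) x (MvPolynomial.map (MvPolynomial.C : A →+* T.B) g) =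
      MvPolynomial.eval₂ φ x g := by
  rw [MvPolynomial.eval₂_map]
  congr 1
  refine RingHom.ext fun a => ?_
  rw [RingHom.comp_apply, MvPolynomial.coe_eval₂Hom, MvPolynomial.eval₂_C]

open Classical in
/-- the points of the sections -/
lemma sectionCount_eq [Fintype (T.ST φ)] (t : Monomials T.Z.M T.d → F) :
    T.sectionCount (ptOf (T.pt φ t)) (Fintype.card F) =
      WT (T.ev φ) t + (Fintype.card (T.ST φ) : ℝ) / Fintype.card F := by
  unfold sectionCount
  rw [fibreCount_eq]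
  · have h1 : Nat.card {p : ℙ F (Fin (T.Z.M + 1) → F) // ∀ f ∈ insert T.form
        (MvPolynomial.map (MvPolynomial.C : A →+* T.B) '' T.Z.eqs),
          MvPolynomial.eval₂ (T.pt φ t) p.rep f = 0} =
        Nat.card {x : T.ST φ // T.ev φ x t = 0} := by
      refine Nat.card_congr
        { toFun := fun p => ⟨⟨p.1, fun g hg => ?_⟩, ?_⟩
          invFun := fun x => ⟨x.1.1, ?_⟩
          left_inv := fun _ => rfl
          right_inv := fun _ => rfl }
      · have h2 := p.2 _ (Set.mem_insert_of_mem _ ⟨g, hg, rfl⟩)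
        rw [eval_map] at h2
        exact h2
      · have h2 := p.2 _ (Set.mem_insert _ _)
        rw [eval_form] at h2
        exact h2
      · rintro f (rfl | ⟨g, hg, rfl⟩)
        · rw [eval_form]
          exact x.2
        · rw [eval_map]
          exact x.1.2 g hg
    rw [h1, Nat.card_eq_fintype_card, Fintype.card_subtype]
    unfold WT gg
    rw [sum_sub_distrib, sum_boole, sum_const, card_univ, nsmul_eq_mul, div_eq_mul_inv]
    ring
  · rintro f (rfl | ⟨g, hg, rfl⟩)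
    · exact ⟨T.d, T.d_pos, T.form_homogeneous⟩
    · obtain ⟨e, he, h⟩ := T.Z.homogeneous g hg
      exact ⟨e, he, h.map _⟩

/-- the sign -/
noncomputable abbrev sg : ℂ := (-1) ^ (T.Z.dim - 1)

/-- the constant part -/
noncomputable abbrev rho : ℂ := ((fibreCount (ptOf φ).asIdeal (ptOf φ).isMaximal T.Z.eqs
  (Fintype.card F) / (Fintype.card F : ℝ) : ℝ) : ℂ) -
    (T.Z.ambient (ptOf φ).asIdeal (Fintype.card F)).eval (-1)

/-- the coefficients -/
noncomputable abbrev co (i e : ℕ) : ℂ :=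
  cc (T.X.poly (ptOf φ).asIdeal (Fintype.card F)) (T.Z.ambient (ptOf φ).asIdeal (Fintype.card F))
    (T.Z.dim - 1) i T.r e

lemma card_ST [Fintype (T.ST φ)] :
    fibreCount (ptOf φ).asIdeal (ptOf φ).isMaximal T.Z.eqs (Fintype.card F) =
      Fintype.card (T.ST φ) := by
  rw [fibreCount_eq _ T.Z.homogeneous, Nat.card_eq_fintype_card]

open Classical in
/-- **The traces.** -/
lemma trace_eq [Fintype (T.ST φ)] (i : ℕ) (t : Monomials T.Z.M T.d → F) :
    T.trace i (ptOf (T.pt φ t)) (Fintype.card F) =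
      ∑ e ∈ range (T.r + 1), (T.r.choose e : ℂ) * T.co φ i e *
        (T.sg * ((WT (T.ev φ) t : ℂ) + T.rho φ)) ^ e := by
  unfold trace sectionPoly
  rw [comap_pt, sectionCount_eq]
  refine Eq.trans ?_ (coeff_expand _ _ _ _ _ _)
  congr 4
  unfold sg rho
  rw [card_ST]
  push_cast
  ring_nf

lemma baseTrace_eq (i f : ℕ) : T.baseTrace i f (ptOf φ) (Fintype.card F) = T.co φ i (2 * f) := by
  unfold baseTrace co cc
  have h1 : (T.Z.dim - 1) * (2 * f) = 2 * ((T.Z.dim - 1) * f) := by ring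
  rw [h1]
  by_cases h : (T.Z.dim - 1) * f ≤ i
  · rw [if_pos h, if_pos (by omega), Nat.mul_sub]
  · rw [if_neg h, if_neg (by omega)]

/-- the bound for the coefficients -/
noncomputable def cb : ℝ := T.X.bb * (2 * T.Z.bb) ^ T.r

lemma cb_nonneg : 0 ≤ T.cb := by
  have := T.X.bb_nonneg
  have := T.Z.bb_nonneg
  unfold cb
  positivity

variable {T φ} {n : ℕ} (hn : T.Z.dim = n + 1) (hX : φ T.X.good ≠ 0) (hZ : φ T.Z.good ≠ 0)

include hn hX hZ in
lemma co_bound (i e : ℕ) : ‖T.co φ i e‖ * √(Fintype.card F : ℝ) ^ (n * e) ≤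
    T.cb * (Fintype.card F : ℝ) ^ i := by
  obtain ⟨P', hP, hP'⟩ := maj_poly hX
  obtain ⟨Q', hQ, hQ'⟩ := maj_ambient hZ hn
  have hs1 : 1 ≤ √(Fintype.card F : ℝ) := Real.one_le_sqrt.2 (FrobVariety.one_le_card' F).le
  have h1 := cc_bound hP hQ hs1 hP' hQ' (by have := one_le_bb hZ; linarith) n i T.r e
  have h2 : T.Z.dim - 1 = n := by omega
  rw [pow_mul _ 2, Real.sq_sqrt (Nat.cast_nonneg _)] at h1
  unfold co
  rw [h2]
  exact h1

include hn hX hZ in
lemma base_bound (i f : ℕ) : ‖T.baseTrace i f (ptOf φ) (Fintype.card F)‖ *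
    (Fintype.card F : ℝ) ^ (n * f) ≤ T.cb * (Fintype.card F : ℝ) ^ i := by
  have h1 := co_bound hn hX hZ i (2 * f)
  have h2 : √(Fintype.card F : ℝ) ^ (n * (2 * f)) = (Fintype.card F : ℝ) ^ (n * f) := by
    have h3 : n * (2 * f) = 2 * (n * f) := by ring
    rw [h3, pow_mul, Real.sq_sqrt (Nat.cast_nonneg _)]
  rw [h2] at h1
  rw [baseTrace_eq]
  exact h1

variable (T) in
/-- the constant -/
noncomputable def KL (D : ℝ) : ℝ :=
  (∑ e ∈ range (T.r + 1), (T.r.choose e : ℝ) * K3 T.u e (2 * T.Z.bb) D) * T.cb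

variable (T) in
/-- the constant -/
noncomputable def KA : ℝ :=
  (∑ e ∈ range (T.r + 1), (T.r.choose e : ℝ) * K2 T.u (2 * T.Z.bb)) * T.cb

variable (T) in
lemma KL_nonneg {D : ℝ} (hD : 0 ≤ D) : 0 ≤ T.KL D := by
  have := T.Z.bb_nonneg
  refine mul_nonneg (sum_nonneg fun e _ => ?_) T.cb_nonneg
  exact mul_nonneg (Nat.cast_nonneg _) (K3_nonneg _ _ (by linarith) hD)

variable (T) in
lemma KA_nonneg : 0 ≤ T.KA := by
  have := T.Z.bb_nonneg
  refine mul_nonneg (sum_nonneg fun e _ => ?_) T.cb_nonneg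
  exact mul_nonneg (Nat.cast_nonneg _) (K2_nonneg _ (by linarith))

lemma card_V : (Fintype.card (Monomials T.Z.M T.d → F) : ℝ) = (Fintype.card F : ℝ) ^ T.N := by
  classical
  rw [Fintype.card_fun]
  push_cast
  rfl

include hn hZ in
lemma rho_norm : ‖T.rho φ‖ * √(Fintype.card F : ℝ) ≤
    2 * T.Z.bb * √((Fintype.card F : ℝ) ^ n) := by
  have h1 : 1 ≤ n := by
    have := T.two_le
    omega
  exact FrobVariety.rho_bound hZ h1 hn

include hn hZ in
lemma card_bound [Fintype (T.ST φ)] :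
    |(Fintype.card (T.ST φ) : ℝ) - (Fintype.card F : ℝ) ^ (n + 1)| * √(Fintype.card F : ℝ) ≤
      2 * T.Z.bb * (Fintype.card F : ℝ) ^ (n + 1) := by
  have h1 := FrobVariety.points_bound hZ hn
  rw [card_ST] at h1
  refine h1.trans ?_
  refine mul_le_mul_of_nonneg_right ?_ (by positivity)
  have := T.Z.bb_nonneg
  linarith

variable (T φ) in
lemma indep_ev [DecidableEq F] [DecidableEq (T.ST φ)] [Fintype (T.ST φ)] :
    Indep (T.ev φ) (T.d + 1) :=
  indep_forms (T.ST φ) (fun x => x.1) Subtype.val_injective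

lemma sg_cases : T.sg = 1 ∨ T.sg = -1 := neg_one_pow_eq_or ℂ _

include hn hX hZ in
/-- **The sum of the absolute values of the traces.** -/
theorem local_abs (i : ℕ) :
    ∑ t, ‖T.trace i (ptOf (T.pt φ t)) (Fintype.card F)‖ ≤
      T.KA * (Fintype.card F : ℝ) ^ (T.N + i) := by
  classical
  let _ : Fintype (T.ST φ) := Fintype.ofFinite _
  have hbb := T.Z.bb_nonneg
  have hn1 : 1 ≤ n := by
    have := T.two_le
    omega
  have hsg : ‖T.sg‖ = 1 := by
    rcases sg_cases (T := T) with h | h <;> rw [h] <;> simp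
  have h1 : ∀ t, ‖T.trace i (ptOf (T.pt φ t)) (Fintype.card F)‖ ≤
      ∑ e ∈ range (T.r + 1), (T.r.choose e : ℝ) * ‖T.co φ i e‖ *
        ‖T.sg * ((WT (T.ev φ) t : ℂ) + T.rho φ)‖ ^ e := by
    intro t
    rw [trace_eq]
    refine norm_sum_le_of_le _ fun e _ => le_of_eq ?_
    rw [norm_mul, norm_mul, norm_pow, Complex.norm_natCast]
  have h2 : ∀ e ∈ range (T.r + 1), ∑ t, (T.r.choose e : ℝ) * ‖T.co φ i e‖ *
        ‖T.sg * ((WT (T.ev φ) t : ℂ) + T.rho φ)‖ ^ e ≤
      (T.r.choose e : ℝ) * K2 T.u (2 * T.Z.bb) * (T.cb * (Fintype.card F : ℝ) ^ (T.N + i)) := by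
    intro e he
    have he' : e ≤ 2 * T.u := by
      have := mem_range.1 he
      have := T.r_lt
      omega
    have h3 := abs_moment (T.ev φ) (indep_ev T φ) T.u_le hn1 (C := 2 * T.Z.bb) (by linarith)
      (card_bound hn hZ) (rho_norm hn hZ) hsg he'
    rw [← mul_sum]
    have h4 := co_bound hn hX hZ i e
    have h5 : √((Fintype.card F : ℝ) ^ n) ^ e = √(Fintype.card F : ℝ) ^ (n * e) := by
      rw [FrobVariety.sqrt_pow' (Nat.cast_nonneg _), pow_mul]
    rw [h5, card_V] at h3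
    calc _ ≤ (T.r.choose e : ℝ) * ‖T.co φ i e‖ * (K2 T.u (2 * T.Z.bb) *
          ((Fintype.card F : ℝ) ^ T.N * √(Fintype.card F : ℝ) ^ (n * e))) :=
          mul_le_mul_of_nonneg_left h3 (by positivity)
      _ = (T.r.choose e : ℝ) * K2 T.u (2 * T.Z.bb) * (Fintype.card F : ℝ) ^ T.N *
          (‖T.co φ i e‖ * √(Fintype.card F : ℝ) ^ (n * e)) := by ring
      _ ≤ (T.r.choose e : ℝ) * K2 T.u (2 * T.Z.bb) * (Fintype.card F : ℝ) ^ T.N *
          (T.cb * (Fintype.card F : ℝ) ^ i) := by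
          refine mul_le_mul_of_nonneg_left h4 ?_
          have := K2_nonneg T.u (C := 2 * T.Z.bb) (by linarith)
          positivity
      _ = _ := by
          rw [pow_add]
          ring
  calc _ ≤ ∑ t, ∑ e ∈ range (T.r + 1), (T.r.choose e : ℝ) * ‖T.co φ i e‖ *
        ‖T.sg * ((WT (T.ev φ) t : ℂ) + T.rho φ)‖ ^ e := sum_le_sum fun t _ => h1 t
    _ = ∑ e ∈ range (T.r + 1), ∑ t, (T.r.choose e : ℝ) * ‖T.co φ i e‖ *
        ‖T.sg * ((WT (T.ev φ) t : ℂ) + T.rho φ)‖ ^ e := sum_comm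
    _ ≤ ∑ e ∈ range (T.r + 1), (T.r.choose e : ℝ) * K2 T.u (2 * T.Z.bb) *
        (T.cb * (Fintype.card F : ℝ) ^ (T.N + i)) := sum_le_sum h2
    _ = _ := by
        rw [← sum_mul]
        unfold KA
        ring

include hn hX hZ in
open Classical in
/-- **The sum of the traces.** -/
theorem local_main (i : ℕ) (P : (Monomials T.Z.M T.d → F) → Prop) [DecidablePred P] {D : ℝ}
    (hP : (Nat.card {t // ¬ P t} : ℝ) * Fintype.card F ≤
      D * (Fintype.card F : ℝ) ^ T.N)
    {lam : ℝ} (hl1 : 1 ≤ lam) (hlu : lam ^ (2 * T.u) = Fintype.card F) :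
    ‖∑ t with P t, T.trace i (ptOf (T.pt φ t)) (Fintype.card F) -
      ∑ f ∈ range (T.r / 2 + 1), (T.mult f : ℂ) * (Fintype.card F : ℂ) ^ (T.N + n * f) *
        T.baseTrace i f (ptOf φ) (Fintype.card F)‖ * lam ≤
      T.KL D * (Fintype.card F : ℝ) ^ (T.N + i) := by
  let _ : Fintype (T.ST φ) := Fintype.ofFinite _
  have hbb := T.Z.bb_nonneg
  have hl0 : 0 ≤ lam := by linarith
  have hq0 : (0 : ℝ) ≤ Fintype.card F := Nat.cast_nonneg _
  have hn1 : 1 ≤ n := by
    have := T.two_le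
    omega
  have hKL : ∀ e, ∀ (h : e ∈ range (T.r + 1)),
      ‖∑ t with P t, (T.sg * ((WT (T.ev φ) t : ℂ) + T.rho φ)) ^ e -
      (((Fintype.card F : ℝ) ^ T.N * (((Mt (one2 e)).card : ℝ) *
        √(Fintype.card F : ℝ) ^ (n * e)) : ℝ) : ℂ)‖ * lam ≤
        K3 T.u e (2 * T.Z.bb) D * ((Fintype.card F : ℝ) ^ T.N *
          √(Fintype.card F : ℝ) ^ (n * e)) := by
    intro e he
    have he' : e < 2 * T.u := by
      have := mem_range.1 he
      have := T.r_lt
      omega
    have h3 := good_moment (T.ev φ) (indep_ev T φ) T.u_pos T.u_le hn1 (C := 2 * T.Z.bb) (by linarith)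
      (card_bound hn hZ) (rho_norm hn hZ) (sg_cases (T := T)) P (D := D) (by rw [card_V]; exact hP) hl1 hlu he'
    have h5 : √((Fintype.card F : ℝ) ^ n) ^ e = √(Fintype.card F : ℝ) ^ (n * e) := by
      rw [FrobVariety.sqrt_pow' (Nat.cast_nonneg _), pow_mul]
    rw [h5, card_V] at h3
    exact h3
  have e1 : ∑ t with P t, T.trace i (ptOf (T.pt φ t)) (Fintype.card F) =
      ∑ e ∈ range (T.r + 1), (T.r.choose e : ℂ) * T.co φ i e *
        ∑ t with P t, (T.sg * ((WT (T.ev φ) t : ℂ) + T.rho φ)) ^ e := by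
    rw [sum_congr rfl fun t _ => T.trace_eq φ i t, sum_comm]
    refine sum_congr rfl fun e _ => ?_
    rw [mul_sum]
  have e2 : ∑ f ∈ range (T.r / 2 + 1), (T.mult f : ℂ) * (Fintype.card F : ℂ) ^ (T.N + n * f) *
        T.baseTrace i f (ptOf φ) (Fintype.card F) =
      ∑ e ∈ range (T.r + 1), (T.r.choose e : ℂ) * T.co φ i e *
        (((Fintype.card F : ℝ) ^ T.N * (((Mt (one2 e)).card : ℝ) *
          √(Fintype.card F : ℝ) ^ (n * e)) : ℝ) : ℂ) := by
    rw [sum_even (fun e => (T.r.choose e : ℂ) * T.co φ i e *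
        (((Fintype.card F : ℝ) ^ T.N * (((Mt (one2 e)).card : ℝ) *
          √(Fintype.card F : ℝ) ^ (n * e)) : ℝ) : ℂ)) T.r]
    · refine sum_congr rfl fun f _ => ?_
      rw [baseTrace_eq]
      have h3 : √(Fintype.card F : ℝ) ^ (n * (2 * f)) = (Fintype.card F : ℝ) ^ (n * f) := by
        have h4 : n * (2 * f) = 2 * (n * f) := by ring
        rw [h4, pow_mul, Real.sq_sqrt hq0]
      rw [h3]
      unfold mult
      rw [← card_Mt, pow_add]
      push_cast
      ring
    · intro e he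
      rw [Mt_odd he]
      simp
  rw [e1, e2, ← sum_sub_distrib]
  calc _ ≤ (∑ e ∈ range (T.r + 1), ‖(T.r.choose e : ℂ) * T.co φ i e *
        ∑ t with P t, (T.sg * ((WT (T.ev φ) t : ℂ) + T.rho φ)) ^ e -
      (T.r.choose e : ℂ) * T.co φ i e *
        (((Fintype.card F : ℝ) ^ T.N * (((Mt (one2 e)).card : ℝ) *
          √(Fintype.card F : ℝ) ^ (n * e)) : ℝ) : ℂ)‖) * lam :=
        mul_le_mul_of_nonneg_right (norm_sum_le _ _) hl0
    _ = ∑ e ∈ range (T.r + 1), (T.r.choose e : ℝ) * ‖T.co φ i e‖ *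
        (‖∑ t with P t, (T.sg * ((WT (T.ev φ) t : ℂ) + T.rho φ)) ^ e -
      (((Fintype.card F : ℝ) ^ T.N * (((Mt (one2 e)).card : ℝ) *
        √(Fintype.card F : ℝ) ^ (n * e)) : ℝ) : ℂ)‖ * lam) := by
        rw [sum_mul]
        refine sum_congr rfl fun e _ => ?_
        rw [← mul_sub, norm_mul, norm_mul, Complex.norm_natCast]
        ring
    _ ≤ ∑ e ∈ range (T.r + 1), (T.r.choose e : ℝ) * K3 T.u e (2 * T.Z.bb) D *
        (T.cb * (Fintype.card F : ℝ) ^ (T.N + i)) := by
        refine sum_le_sum fun e he => ?_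
        have hK3 : 0 ≤ K3 T.u e (2 * T.Z.bb) D := by
          refine K3_nonneg _ _ (by linarith) ?_
          have h6 : 0 ≤ D * (Fintype.card F : ℝ) ^ T.N :=
            (mul_nonneg (Nat.cast_nonneg _) (Nat.cast_nonneg _)).trans hP
          have h7 : 0 < (Fintype.card F : ℝ) ^ T.N := by
            have := FrobVariety.one_le_card' F
            positivity
          exact nonneg_of_mul_nonneg_left h6 h7
        calc _ ≤ (T.r.choose e : ℝ) * ‖T.co φ i e‖ * (K3 T.u e (2 * T.Z.bb) D *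
              ((Fintype.card F : ℝ) ^ T.N * √(Fintype.card F : ℝ) ^ (n * e))) :=
              mul_le_mul_of_nonneg_left (hKL e he) (by positivity)
          _ = (T.r.choose e : ℝ) * K3 T.u e (2 * T.Z.bb) D * (Fintype.card F : ℝ) ^ T.N *
              (‖T.co φ i e‖ * √(Fintype.card F : ℝ) ^ (n * e)) := by ring
          _ ≤ (T.r.choose e : ℝ) * K3 T.u e (2 * T.Z.bb) D * (Fintype.card F : ℝ) ^ T.N *
              (T.cb * (Fintype.card F : ℝ) ^ i) := by
              refine mul_le_mul_of_nonneg_left (co_bound hn hX hZ i e) ?_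
              positivity
          _ = _ := by
              rw [pow_add]
              ring
    _ = _ := by
        rw [← sum_mul]
        unfold KL
        ring

end Pool.Agent.L0h11.SectionPower
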