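import Mathlib
import Pool.Agent.L0h11.I.Lc
import Pool.Agent.L0h11.I.Eu

/-!
# The sums of the traces over all points with values in a finite field
-/

set_option autoImplicit false
set_option linter.all false

namespace Pool.Agent.L0h11.SectionPower

open Finset
open Pool.Agent.TH958.An
open Pool.Agent.L0h11.TF
open Pool.Agent.L0h11.CC
open Pool.Agent.H126R3 (Qc Qc_pos exists_F)

section zeros

variable {F σ : Type} [Field F] [Fintype F] [Fintype σ]

lemma totalDegree_map_le' {R S : Type} [CommSemiring R] [CommSemiring S] {σ : Type} (f : R →+* S)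
    (p : MvPolynomial σ R) : (MvPolynomial.map f p).totalDegree ≤ p.totalDegree :=
  Finset.sup_mono (MvPolynomial.support_map_subset f p)

/-- **Schwartz–Zippel.** -/
lemma zeros_le {p : MvPolynomial σ F} (hp : p ≠ 0) :
    (Nat.card {t : σ → F // MvPolynomial.eval t p = 0} : ℝ) * Fintype.card F ≤
      p.totalDegree * (Fintype.card F : ℝ) ^ Fintype.card σ := by
  classical
  rw [Nat.card_eq_fintype_card, Fintype.card_subtype]
  let e := Fintype.equivFin σ
  have h1 := MvPolynomial.schwartz_zippel_totalDegree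
    (p := MvPolynomial.rename e p)
    (fun h => hp (MvPolynomial.rename_injective _ e.injective (by rw [h, map_zero]))) univ
  rw [Fintype.piFinset_univ, card_univ] at h1
  have h2 : (univ.filter fun f : Fin (Fintype.card σ) → F =>
      MvPolynomial.eval f (MvPolynomial.rename e p) = 0).card =
      (univ.filter fun t : σ → F => MvPolynomial.eval t p = 0).card := by
    refine card_bij (fun f _ => f ∘ e) (fun f hf => ?_) (fun f _ f' _ h => ?_) (fun t ht => ?_)
    · rw [mem_filter] at hf ⊢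
      refine ⟨mem_univ _, ?_⟩
      rw [← hf.2, MvPolynomial.eval_rename]
    · funext x
      have h3 := congrFun h (e.symm x)
      simpa using h3
    · refine ⟨t ∘ e.symm, ?_, ?_⟩
      · rw [mem_filter] at ht ⊢
        refine ⟨mem_univ _, ?_⟩
        rw [← ht.2, MvPolynomial.eval_rename]
        congr 2
        funext x
        simp
      · funext x
        simp
  have h4 : (MvPolynomial.rename e p).totalDegree ≤ p.totalDegree :=
    MvPolynomial.totalDegree_rename_le _ _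
  have hq : (0 : ℚ) < Fintype.card F := Nat.cast_pos.2 Fintype.card_pos
  have h5 : (((univ.filter fun t : σ → F => MvPolynomial.eval t p = 0).card : ℚ)) /
      (Fintype.card F : ℚ) ^ Fintype.card σ ≤ (p.totalDegree : ℚ) / Fintype.card F := by
    have h6 : (((univ.filter fun f : Fin (Fintype.card σ) → F =>
      MvPolynomial.eval f (MvPolynomial.rename e p) = 0).card : ℚ)) /
      (Fintype.card F : ℚ) ^ Fintype.card σ ≤
        ((MvPolynomial.rename e p).totalDegree : ℚ) / Fintype.card F := by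
      exact_mod_cast h1
    rw [h2] at h6
    refine h6.trans ?_
    gcongr
  rw [div_le_div_iff₀ (by positivity) hq] at h5
  exact_mod_cast h5

/-- a nonzero polynomial over a field is nonzero at a closed point -/
lemma exists_maximal {k : Type} [Field k] [Finite σ] {p : MvPolynomial σ k} (hp : p ≠ 0) :
    ∃ m : Ideal (MvPolynomial σ k), m.IsMaximal ∧ p ∉ m := by
  by_contra hcon
  push Not at hcon
  apply hp
  have h0 : IsJacobsonRing (MvPolynomial σ k) := inferInstance
  have h1 : (⊥ : Ideal (MvPolynomial σ k)).jacobson = ⊥ :=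
    IsJacobsonRing.out h0 Ideal.bot_prime.isRadical
  have h2 : p ∈ (⊥ : Ideal (MvPolynomial σ k)).jacobson := by
    unfold Ideal.jacobson
    rw [Submodule.mem_sInf]
    rintro m ⟨-, hm⟩
    exact hcon m hm
  rw [h1] at h2
  exact h2

end zeros

variable {A : Type} [CommRing A] (T : SectionPower A)

section

variable {F : Type} [Field F] [Finite F] (φ : A →+* F)

lemma map_ne_iff (N₁ : T.B) : MvPolynomial.map (Ideal.Quotient.mk (ptOf φ).asIdeal) N₁ ≠ 0 ↔
    MvPolynomial.map φ N₁ ≠ 0 := by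
  let σ : Res (ptOf φ) →+* F := fiberEquiv (F := F) (ptOf φ) ⟨φ, rfl⟩
  have h1 : MvPolynomial.map φ N₁ =
      MvPolynomial.map σ (MvPolynomial.map (Ideal.Quotient.mk (ptOf φ).asIdeal) N₁) := by
    rw [MvPolynomial.map_map]
    rfl
  have h2 := MvPolynomial.map_injective (σ := Monomials T.Z.M T.d) σ σ.injective
  rw [h1]
  exact (map_ne_zero_iff (MvPolynomial.map σ) h2).symm

/-- good reduction -/
lemma good_of_model {N₁ : T.B} (hN : T.IsModel N₁) (h : MvPolynomial.map φ N₁ ≠ 0) :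
    φ T.X.good ≠ 0 ∧ φ T.Z.good ≠ 0 := by
  rw [← map_ne_iff] at h
  set I := (ptOf φ).asIdeal with hI
  have hmax : I.IsMaximal := (ptOf φ).isMaximal
  let _ : Field (A ⧸ I) := Ideal.Quotient.field I
  obtain ⟨m, hm, hp⟩ := exists_maximal (k := A ⧸ I) h
  let g : T.B →+* MvPolynomial (Monomials T.Z.M T.d) (A ⧸ I) :=
    MvPolynomial.map (Ideal.Quotient.mk I)
  have hg : Function.Surjective g := MvPolynomial.map_surjective _ Ideal.Quotient.mk_surjective
  have hy : (m.comap g).IsMaximal := Ideal.comap_isMaximal_of_surjective g hg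
  have h1 : (m.comap g).comap MvPolynomial.C = I := by
    symm
    refine hmax.eq_of_le ?_ ?_
    · intro htop
      rw [Ideal.eq_top_iff_one, Ideal.mem_comap, Ideal.mem_comap, map_one, map_one] at htop
      exact hm.ne_top ((Ideal.eq_top_iff_one _).2 htop)
    · intro a ha
      rw [Ideal.mem_comap, Ideal.mem_comap]
      have h2 : g (MvPolynomial.C a) = 0 := by
        show MvPolynomial.map (Ideal.Quotient.mk I) (MvPolynomial.C a) = 0
        rw [MvPolynomial.map_C, Ideal.Quotient.eq_zero_iff_mem.2 ha, map_zero]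
      rw [h2]
      exact m.zero_mem
  have h2 := hN.2 ⟨m.comap g, hy⟩ (fun h3 => hp (Ideal.mem_comap.1 h3))
  have h3 : (⟨m.comap g, hy⟩ : MaximalSpectrum T.B).asIdeal.comap MvPolynomial.C = I := h1
  rw [h3] at h2
  exact ⟨fun h4 => h2.1 ((mem_ptOf φ _).2 h4), fun h4 => h2.2 ((mem_ptOf φ _).2 h4)⟩

end

section

variable [hft : Algebra.FiniteType ℤ A] {F : Type} [Field F] [Fintype F]

open Classical in
/-- the sums over the points of the parameter space -/
lemma sum_fib {E : Type} [AddCommMonoid E] [Fintype (A →+* F)] (N₁ : T.B) (g : (T.B →+* F) → E) :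
    ∑ᶠ Φ : {Φ : T.B →+* F // N₁ ∉ (ptOf Φ).asIdeal}, g Φ.1 =
      ∑ φ : A →+* F, ∑ t with T.pt φ t N₁ ≠ 0, g (T.pt φ t) := by
  let _ : Fintype (T.B →+* F) := Fintype.ofFinite _
  rw [finsum_eq_sum_of_fintype]
  have h1 : ∑ Φ : {Φ : T.B →+* F // N₁ ∉ (ptOf Φ).asIdeal}, g Φ.1 =
      ∑ Φ : T.B →+* F, if Φ N₁ ≠ 0 then g Φ else 0 := by
    rw [← sum_filter, sum_subtype (univ.filter fun Φ : T.B →+* F => Φ N₁ ≠ 0)
      (p := fun Φ => N₁ ∉ (ptOf Φ).asIdeal)]
    intro Φ
    rw [mem_filter, mem_ptOf]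
    simp
  rw [h1, ← (homEquiv F).symm.sum_comp, Fintype.sum_prod_type]
  refine sum_congr rfl fun φ _ => ?_
  rw [sum_filter]
  rfl

open Classical in
lemma sum_base {E : Type} [AddCommMonoid E] [Fintype (A →+* F)] (P : Pt A → Prop)
    (g : (A →+* F) → E) :
    ∑ᶠ φ : {φ : A →+* F // P (ptOf φ)}, g φ.1 = ∑ φ : A →+* F with P (ptOf φ), g φ := by
  rw [finsum_eq_sum_of_fintype, sum_subtype (univ.filter fun φ : A →+* F => P (ptOf φ))
      (p := fun φ => P (ptOf φ))]
  intro φ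
  rw [mem_filter]
  simp

end

variable [hft : Algebra.FiniteType ℤ A] (c : Nat.Primes × ℕ)

/-- the number of the points of the base -/
noncomputable def hh (A : Type) [CommRing A] [Algebra.FiniteType ℤ A] (c : Nat.Primes × ℕ) : ℝ :=
  SG (fun _ _ => (1 : ℝ)) (fun _ : Pt A => True) c

lemma hh_eq {F : Type} [Field F] [Fintype F] (hF : Nat.card F = Qc c) [Fintype (A →+* F)] :
    hh A c = Fintype.card (A →+* F) := by
  classical
  unfold hh
  rw [sg_eq' _ hF, sum_base (fun _ => True) (fun _ => (1 : ℝ))]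
  simp

lemma hh_nonneg : 0 ≤ hh A c := by
  classical
  obtain ⟨F, _, _, hF⟩ := exists_F c
  let _ : Fintype (A →+* F) := Fintype.ofFinite _
  rw [hh_eq c (F := F) (by rw [Nat.card_eq_fintype_card]; exact hF)]
  exact Nat.cast_nonneg _

variable {N₁ : T.B} (hN : T.IsModel N₁) {n : ℕ} (hn : T.Z.dim = n + 1)

/-- the condition on the points of the base -/
abbrev PB (N₁ : T.B) (y : Pt A) : Prop := MvPolynomial.map (Ideal.Quotient.mk y.asIdeal) N₁ ≠ 0

variable {T}

include hN hn in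
/-- **The sums of the absolute values.** -/
theorem abs_c (i : ℕ) : SG (fun y q => ‖T.trace i y q‖) (fun y => N₁ ∉ y.asIdeal) c ≤
    T.KA * hh A c * (Qc c : ℝ) ^ (T.N + i) := by
  classical
  obtain ⟨F, _, _, hF⟩ := exists_F c
  have hF' : Nat.card F = Qc c := by rw [Nat.card_eq_fintype_card]; exact hF
  have hF2 : Fintype.card F = Qc c := hF
  let _ : Fintype (A →+* F) := Fintype.ofFinite _
  rw [sg_eq' _ hF', sum_fib T N₁ (fun Φ => ‖T.trace i (ptOf Φ) (Qc c)‖), hh_eq c hF', ← hF2]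
  have h1 : ∀ φ : A →+* F, ∑ t with T.pt φ t N₁ ≠ 0, ‖T.trace i (ptOf (T.pt φ t)) (Fintype.card F)‖ ≤
      T.KA * (Fintype.card F : ℝ) ^ (T.N + i) := by
    intro φ
    by_cases h : MvPolynomial.map φ N₁ = 0
    · have h2 : ∀ t, T.pt φ t N₁ = 0 := by
        intro t
        rw [MvPolynomial.coe_eval₂Hom, MvPolynomial.eval₂_eq_eval_map, h, map_zero]
      rw [filter_false_of_mem (fun t _ h3 => h3 (h2 t)), sum_empty]
      exact mul_nonneg T.KA_nonneg (by positivity)
    · obtain ⟨hX, hZ⟩ := T.good_of_model φ hN h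
      refine le_trans ?_ (local_abs hn hX hZ i)
      exact sum_le_sum_of_subset_of_nonneg (filter_subset _ _) fun _ _ _ => norm_nonneg _
  calc _ ≤ ∑ _φ : A →+* F, T.KA * (Fintype.card F : ℝ) ^ (T.N + i) := sum_le_sum fun φ _ => h1 φ
    _ = _ := by
        rw [sum_const, card_univ, nsmul_eq_mul]
        ring

include hN hn in
/-- **The base.** -/
theorem base_c (i f : ℕ) : SG (fun y q => ‖T.baseTrace i f y q‖) (T.PB N₁) c *
    (Qc c : ℝ) ^ (n * f) ≤ T.cb * hh A c * (Qc c : ℝ) ^ i := by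
  classical
  obtain ⟨F, _, _, hF⟩ := exists_F c
  have hF' : Nat.card F = Qc c := by rw [Nat.card_eq_fintype_card]; exact hF
  have hF2 : Fintype.card F = Qc c := hF
  let _ : Fintype (A →+* F) := Fintype.ofFinite _
  have e1 : SG (fun y q => ‖T.baseTrace i f y q‖) (T.PB N₁) c =
      ∑ φ : A →+* F with T.PB N₁ (ptOf φ), ‖T.baseTrace i f (ptOf φ) (Qc c)‖ := by
    rw [sg_eq' _ hF', sum_base (T.PB N₁) (fun φ => ‖T.baseTrace i f (ptOf φ) (Qc c)‖)]
    refine sum_congr ?_ fun _ _ => rfl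
    exact filter_congr_decidable _ _ _
  rw [e1, hh_eq c hF', ← hF2, sum_mul]
  have h1 : ∀ φ ∈ (univ.filter fun φ : A →+* F => T.PB N₁ (ptOf φ)),
      ‖T.baseTrace i f (ptOf φ) (Fintype.card F)‖ * (Fintype.card F : ℝ) ^ (n * f) ≤
        T.cb * (Fintype.card F : ℝ) ^ i := by
    intro φ hφ
    obtain ⟨hX, hZ⟩ := T.good_of_model φ hN ((T.map_ne_iff φ N₁).1 (mem_filter.1 hφ).2)
    exact base_bound hn hX hZ i f
  have h2 : (0 : ℝ) ≤ T.cb * (Fintype.card F : ℝ) ^ i := mul_nonneg T.cb_nonneg (by positivity)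
  calc _ ≤ ∑ φ : A →+* F with T.PB N₁ (ptOf φ), T.cb * (Fintype.card F : ℝ) ^ i := sum_le_sum h1
    _ ≤ ∑ φ : A →+* F, T.cb * (Fintype.card F : ℝ) ^ i :=
        sum_le_sum_of_subset_of_nonneg (filter_subset _ _) fun _ _ _ => h2
    _ = _ := by
        rw [sum_const, card_univ, nsmul_eq_mul]
        ring

include hN hn in
/-- **The sums of the traces.** -/
theorem main_c (i : ℕ) {lam : ℝ} (hl1 : 1 ≤ lam) (hlu : lam ^ (2 * T.u) = Qc c) :
    ‖SG (T.trace i) (fun y => N₁ ∉ y.asIdeal) c -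
      ∑ f ∈ range (T.r / 2 + 1), (T.mult f : ℂ) * (Qc c : ℂ) ^ (T.N + n * f) *
        SG (T.baseTrace i f) (T.PB N₁) c‖ * lam ≤
      T.KL N₁.totalDegree * hh A c * (Qc c : ℝ) ^ (T.N + i) := by
  classical
  obtain ⟨F, _, _, hF⟩ := exists_F c
  have hF' : Nat.card F = Qc c := by rw [Nat.card_eq_fintype_card]; exact hF
  have hF2 : Fintype.card F = Qc c := hF
  have hl0 : 0 ≤ lam := by linarith
  let _ : Fintype (A →+* F) := Fintype.ofFinite _
  have e1 : ∀ f, SG (T.baseTrace i f) (T.PB N₁) c =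
      ∑ φ : A →+* F with T.PB N₁ (ptOf φ), T.baseTrace i f (ptOf φ) (Qc c) := by
    intro f
    rw [sg_eq' _ hF', sum_base (T.PB N₁) (fun φ => T.baseTrace i f (ptOf φ) (Qc c))]
    refine sum_congr ?_ fun _ _ => rfl
    exact filter_congr_decidable _ _ _
  have e2 : SG (T.trace i) (fun y => N₁ ∉ y.asIdeal) c =
      ∑ φ : A →+* F with T.PB N₁ (ptOf φ), ∑ t with T.pt φ t N₁ ≠ 0,
        T.trace i (ptOf (T.pt φ t)) (Qc c) := by
    rw [sg_eq' _ hF', sum_fib T N₁ (fun Φ => T.trace i (ptOf Φ) (Qc c))]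
    symm
    refine sum_subset (filter_subset _ _) fun φ _ hφ => ?_
    have h : MvPolynomial.map φ N₁ = 0 := by
      by_contra h
      exact hφ (mem_filter.2 ⟨mem_univ _, (T.map_ne_iff φ N₁).2 h⟩)
    have h2 : ∀ t, T.pt φ t N₁ = 0 := by
      intro t
      rw [MvPolynomial.coe_eval₂Hom, MvPolynomial.eval₂_eq_eval_map, h, map_zero]
    rw [filter_false_of_mem (fun t _ h3 => h3 (h2 t)), sum_empty]
  have e3 : ∑ f ∈ range (T.r / 2 + 1), (T.mult f : ℂ) * (Qc c : ℂ) ^ (T.N + n * f) *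
        SG (T.baseTrace i f) (T.PB N₁) c = ∑ φ : A →+* F with T.PB N₁ (ptOf φ),
        ∑ f ∈ range (T.r / 2 + 1), (T.mult f : ℂ) * (Qc c : ℂ) ^ (T.N + n * f) *
          T.baseTrace i f (ptOf φ) (Qc c) := by
    rw [sum_comm]
    refine sum_congr rfl fun f _ => ?_
    rw [e1 f, mul_sum]
  rw [e2, e3, ← sum_sub_distrib, hh_eq c hF', ← hF2]
  have h0 : (0 : ℝ) ≤ T.KL N₁.totalDegree * (Fintype.card F : ℝ) ^ (T.N + i) :=
    mul_nonneg (T.KL_nonneg (Nat.cast_nonneg _)) (by positivity)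
  have h1 : ∀ φ ∈ (univ.filter fun φ : A →+* F => T.PB N₁ (ptOf φ)),
      ‖∑ t with T.pt φ t N₁ ≠ 0, T.trace i (ptOf (T.pt φ t)) (Fintype.card F) -
      ∑ f ∈ range (T.r / 2 + 1), (T.mult f : ℂ) * (Fintype.card F : ℂ) ^ (T.N + n * f) *
        T.baseTrace i f (ptOf φ) (Fintype.card F)‖ * lam ≤
        T.KL N₁.totalDegree * (Fintype.card F : ℝ) ^ (T.N + i) := by
    intro φ hφ
    have h2 := (T.map_ne_iff φ N₁).1 (mem_filter.1 hφ).2
    obtain ⟨hX, hZ⟩ := T.good_of_model φ hN h2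
    have h3 := zeros_le h2
    have h4 : (Nat.card {t // ¬ (T.pt φ t N₁ ≠ 0)} : ℝ) * Fintype.card F ≤
        (N₁.totalDegree : ℝ) * (Fintype.card F : ℝ) ^ T.N := by
      have h5 : Nat.card {t // ¬ (T.pt φ t N₁ ≠ 0)} = Nat.card {t : Monomials T.Z.M T.d → F //
            MvPolynomial.eval t (MvPolynomial.map φ N₁) = 0} := by
        refine Nat.card_congr (Equiv.subtypeEquivRight fun t => ?_)
        rw [not_not, MvPolynomial.coe_eval₂Hom, MvPolynomial.eval₂_eq_eval_map]
      rw [h5]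
      refine h3.trans ?_
      refine mul_le_mul_of_nonneg_right ?_ (by positivity)
      exact Nat.cast_le.2 (totalDegree_map_le' φ N₁)
    exact local_main hn hX hZ i (fun t => T.pt φ t N₁ ≠ 0) h4 hl1 (by rw [hlu, hF2])
  calc _ ≤ (∑ φ : A →+* F with T.PB N₁ (ptOf φ),
        ‖∑ t with T.pt φ t N₁ ≠ 0, T.trace i (ptOf (T.pt φ t)) (Fintype.card F) -
      ∑ f ∈ range (T.r / 2 + 1), (T.mult f : ℂ) * (Fintype.card F : ℂ) ^ (T.N + n * f) *
        T.baseTrace i f (ptOf φ) (Fintype.card F)‖) * lam :=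
        mul_le_mul_of_nonneg_right (norm_sum_le _ _) hl0
    _ = ∑ φ : A →+* F with T.PB N₁ (ptOf φ),
        ‖∑ t with T.pt φ t N₁ ≠ 0, T.trace i (ptOf (T.pt φ t)) (Fintype.card F) -
      ∑ f ∈ range (T.r / 2 + 1), (T.mult f : ℂ) * (Fintype.card F : ℂ) ^ (T.N + n * f) *
        T.baseTrace i f (ptOf φ) (Fintype.card F)‖ * lam := by rw [sum_mul]
    _ ≤ ∑ φ : A →+* F with T.PB N₁ (ptOf φ),
        T.KL N₁.totalDegree * (Fintype.card F : ℝ) ^ (T.N + i) := sum_le_sum h1
    _ ≤ ∑ φ : A →+* F, T.KL N₁.totalDegree * (Fintype.card F : ℝ) ^ (T.N + i) :=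
        sum_le_sum_of_subset_of_nonneg (filter_subset _ _) fun _ _ _ => h0
    _ = _ := by
        rw [sum_const, card_univ, nsmul_eq_mul]
        ring

end Pool.Agent.L0h11.SectionPower
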