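import Mathlib
import Pool.Agent.L0h11.I.Gl

/-!
# The factorization of the L-function
-/

set_option autoImplicit false
set_option linter.all false

namespace Pool.Agent.L0h11.TF

open Finset Filter Topology
open Pool.Agent.TH958.An
open Pool.Agent.H126R3 (Qc Qc_pos exists_F)

section

variable {R : Type} [CommRing R] [hR : Algebra.FiniteType ℤ R] (P : Pt R → Prop) (c : Nat.Primes × ℕ)

lemma Q_pos' : (0 : ℝ) < (Qc c : ℝ) := Nat.cast_pos.2 (Qc_pos c)

lemma one_lt_Q : (1 : ℝ) < (Qc c : ℝ) := by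
  have h1 : 1 < Qc c := Nat.one_lt_pow (Nat.succ_ne_zero _) c.1.2.one_lt
  exact_mod_cast h1

lemma norm_SG_le (w : Pt R → ℕ → ℂ) : ‖SG w P c‖ ≤ SG (fun y q => ‖w y q‖) P c := by
  classical
  obtain ⟨F, _, _, hF⟩ := exists_F c
  have hF' : Nat.card F = Qc c := by rw [Nat.card_eq_fintype_card]; exact hF
  let _ : Fintype {φ : R →+* F // P (ptOf φ)} := Fintype.ofFinite _
  rw [sg_eq' _ hF', sg_eq' _ hF', finsum_eq_sum_of_fintype, finsum_eq_sum_of_fintype]
  exact norm_sum_le _ _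

lemma SG_nonneg {w : Pt R → ℕ → ℝ} (hw : ∀ y q, 0 ≤ w y q) : 0 ≤ SG w P c := by
  classical
  obtain ⟨F, _, _, hF⟩ := exists_F c
  have hF' : Nat.card F = Qc c := by rw [Nat.card_eq_fintype_card]; exact hF
  let _ : Fintype {φ : R →+* F // P (ptOf φ)} := Fintype.ofFinite _
  rw [sg_eq' _ hF', finsum_eq_sum_of_fintype]
  exact sum_nonneg fun _ _ => hw _ _

lemma SG_zero {w : Pt R → ℕ → ℂ} (hw : ∀ y q, w y q = 0) : SG w P c = 0 := by
  classical
  obtain ⟨F, _, _, hF⟩ := exists_F c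
  have hF' : Nat.card F = Qc c := by rw [Nat.card_eq_fintype_card]; exact hF
  let _ : Fintype {φ : R →+* F // P (ptOf φ)} := Fintype.ofFinite _
  rw [sg_eq' _ hF', finsum_eq_sum_of_fintype]
  exact sum_eq_zero fun _ _ => hw _ _

end

/-- the terms of a Dirichlet series over the finite fields -/
noncomputable def DT (a : Nat.Primes × ℕ → ℂ) (s : ℂ) (c : Nat.Primes × ℕ) : ℂ :=
  (a c * ((c.2 + 1 : ℕ) : ℂ)⁻¹) * ((Qc c : ℕ) : ℂ) ^ (-s)

lemma norm_DT_le (a : Nat.Primes × ℕ → ℂ) (s : ℂ) (c : Nat.Primes × ℕ) :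
    ‖DT a s c‖ ≤ ‖a c‖ * (Qc c : ℝ) ^ (-s.re) := by
  unfold DT
  rw [norm_mul, norm_mul, norm_inv, Complex.norm_natCast,
    Complex.norm_natCast_cpow_of_pos (Qc_pos c), Complex.neg_re]
  have h4 : ((c.2 + 1 : ℕ) : ℝ)⁻¹ ≤ 1 := inv_le_one_of_one_le₀ (by
    push_cast
    have : (0 : ℝ) ≤ c.2 := Nat.cast_nonneg _
    linarith)
  refine mul_le_mul_of_nonneg_right ?_ (Real.rpow_nonneg (Nat.cast_nonneg _) _)
  exact mul_le_of_le_one_right (norm_nonneg _) h4

lemma summable_DT {a : Nat.Primes × ℕ → ℂ} {b : Nat.Primes × ℕ → ℝ} (hab : ∀ c, ‖a c‖ ≤ b c) {s : ℂ}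
    (hb : Summable fun c : Nat.Primes × ℕ => b c * (Qc c : ℝ) ^ (-s.re)) : Summable (DT a s) := by
  refine Summable.of_norm_bounded hb fun c => ?_
  exact (norm_DT_le a s c).trans
    (mul_le_mul_of_nonneg_right (hab c) (Real.rpow_nonneg (Nat.cast_nonneg _) _))

lemma analytic_DT {a : Nat.Primes × ℕ → ℂ} {b : Nat.Primes × ℕ → ℝ} (hab : ∀ c, ‖a c‖ ≤ b c) {σ₀ : ℝ}
    (hb : ∀ σ : ℝ, σ₀ < σ → Summable fun c : Nat.Primes × ℕ => b c * (Qc c : ℝ) ^ (-σ)) :
    AnalyticOnNhd ℂ (fun s => ∑' c, DT a s c) {s : ℂ | σ₀ < s.re} := by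
  intro s₁ hs₁
  obtain ⟨σ, h1, h2⟩ := exists_between (show σ₀ < s₁.re from hs₁)
  set U : Set ℂ := {s : ℂ | σ < s.re} with hU
  have hopen : IsOpen U := isOpen_lt continuous_const Complex.continuous_re
  have hd : DifferentiableOn ℂ (fun s => ∑' c, DT a s c) U := by
    refine Complex.differentiableOn_tsum_of_summable_norm (hb σ h1) (fun c => ?_) hopen
      (fun c s hs => ?_)
    · intro s _
      unfold DT
      refine DifferentiableAt.differentiableWithinAt ?_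
      refine DifferentiableAt.const_mul ?_ _
      refine DifferentiableAt.const_cpow differentiableAt_id.neg ?_
      left
      exact Nat.cast_ne_zero.2 (Qc_pos c).ne'
    · refine (norm_DT_le a s c).trans ?_
      have hb0 : 0 ≤ b c := (norm_nonneg _).trans (hab c)
      have hs' : σ < s.re := hs
      refine mul_le_mul (hab c) ?_ (Real.rpow_nonneg (Nat.cast_nonneg _) _) hb0
      exact Real.rpow_le_rpow_of_exponent_le (one_lt_Q c).le (by linarith)
  exact hd.analyticAt (hopen.mem_nhds h2)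

end Pool.Agent.L0h11.TF

namespace Pool.Agent.L0h11.SectionPower

open Finset Filter Topology
open Pool.Agent.TH958.An
open Pool.Agent.L0h11.TF
open Pool.Agent.H126R3 (Qc Qc_pos exists_F)

variable {A : Type} [CommRing A] [hft : Algebra.FiniteType ℤ A] {T : SectionPower A} {N₁ : T.B}

/-- the absolute values of the traces -/
noncomputable abbrev aT (T : SectionPower A) (N₁ : T.B) (i : ℕ) (c : Nat.Primes × ℕ) : ℝ :=
  SG (fun y q => ‖T.trace i y q‖) (fun y => N₁ ∉ y.asIdeal) c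

/-- the absolute values of the traces of the base -/
noncomputable abbrev aB (T : SectionPower A) (N₁ : T.B) (i f : ℕ) (c : Nat.Primes × ℕ) : ℝ :=
  SG (fun y q => ‖T.baseTrace i f y q‖) (T.PB N₁) c

/-- the error -/
noncomputable def err (T : SectionPower A) (N₁ : T.B) (i : ℕ) (c : Nat.Primes × ℕ) : ℂ :=
  SG (T.trace i) (fun y => N₁ ∉ y.asIdeal) c -
    ∑ f ∈ T.levels i, (T.mult f : ℂ) * (Qc c : ℂ) ^ (T.N + (T.Z.dim - 1) * f) *
      SG (T.baseTrace i f) (T.PB N₁) c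

variable (hN : T.IsModel N₁) {n : ℕ} (hn : T.Z.dim = n + 1) {δ : ℝ}
  (hS : ∀ σ : ℝ, δ < σ → Summable fun c : Nat.Primes × ℕ => hh A c * (Qc c : ℝ) ^ (-σ))

include hN hn hS in
lemma summable_aT (i : ℕ) {σ : ℝ} (hσ : (T.N : ℝ) + i + δ < σ) :
    Summable fun c : Nat.Primes × ℕ => aT T N₁ i c * (Qc c : ℝ) ^ (-σ) := by
  refine Summable.of_nonneg_of_le (fun c => ?_) (fun c => ?_)
    ((hS (σ - (T.N + i : ℕ)) (by push_cast; linarith)).mul_left T.KA)
  · exact mul_nonneg (SG_nonneg _ c fun _ _ => norm_nonneg _)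
      (Real.rpow_nonneg (Nat.cast_nonneg _) _)
  · refine (mul_le_mul_of_nonneg_right (abs_c c hN hn i)
      (Real.rpow_nonneg (Nat.cast_nonneg _) _)).trans (le_of_eq ?_)
    rw [mul_assoc, mul_assoc, ← Real.rpow_natCast, ← Real.rpow_add (Q_pos' c)]
    congr 3
    push_cast
    ring

include hN hn in
lemma aB_le (i f : ℕ) (hf : n * f ≤ i) (c : Nat.Primes × ℕ) :
    aB T N₁ i f c ≤ T.cb * hh A c * (Qc c : ℝ) ^ (i - n * f) := by
  have h1 := base_c c hN hn i f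
  have h2 : (Qc c : ℝ) ^ i = (Qc c : ℝ) ^ (i - n * f) * (Qc c : ℝ) ^ (n * f) := by
    rw [← pow_add, Nat.sub_add_cancel hf]
  rw [h2, ← mul_assoc] at h1
  exact le_of_mul_le_mul_right h1 (pow_pos (Q_pos' c) _)

include hN hn hS in
lemma summable_aB (i f : ℕ) (hf : n * f ≤ i) {σ : ℝ} (hσ : (i : ℝ) - (n * f : ℕ) + δ < σ) :
    Summable fun c : Nat.Primes × ℕ => aB T N₁ i f c * (Qc c : ℝ) ^ (-σ) := by
  have h0 : ((i - n * f : ℕ) : ℝ) = (i : ℝ) - (n * f : ℕ) := Nat.cast_sub hf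
  refine Summable.of_nonneg_of_le (fun c => ?_) (fun c => ?_)
    ((hS (σ - (i - n * f : ℕ)) (by rw [h0]; linarith)).mul_left T.cb)
  · exact mul_nonneg (SG_nonneg _ c fun _ _ => norm_nonneg _)
      (Real.rpow_nonneg (Nat.cast_nonneg _) _)
  · refine (mul_le_mul_of_nonneg_right (aB_le hN hn i f hf c)
      (Real.rpow_nonneg (Nat.cast_nonneg _) _)).trans (le_of_eq ?_)
    rw [mul_assoc, mul_assoc, ← Real.rpow_natCast, ← Real.rpow_add (Q_pos' c)]
    congr 3
    ring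

include hN hn in
lemma err_le (i : ℕ) (c : Nat.Primes × ℕ) : ‖err T N₁ i c‖ ≤
    T.KL N₁.totalDegree * hh A c * (Qc c : ℝ) ^ (((T.N + i : ℕ) : ℝ) - 1 / (2 * T.u : ℕ)) := by
  have hu := T.u_pos
  have hu2 : ((2 * T.u : ℕ) : ℝ) ≠ 0 := Nat.cast_ne_zero.2 (by omega)
  have hQ := Q_pos' c
  have hl1 : 1 ≤ (Qc c : ℝ) ^ ((1 : ℝ) / (2 * T.u : ℕ)) :=
    Real.one_le_rpow (one_lt_Q c).le (by positivity)
  have hlu : ((Qc c : ℝ) ^ ((1 : ℝ) / (2 * T.u : ℕ))) ^ (2 * T.u) = Qc c := by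
    rw [← Real.rpow_natCast, ← Real.rpow_mul hQ.le, one_div, inv_mul_cancel₀ hu2, Real.rpow_one]
  have h1 := main_c c hN hn i hl1 hlu
  have h2 : err T N₁ i c = SG (T.trace i) (fun y => N₁ ∉ y.asIdeal) c -
      ∑ f ∈ range (T.r / 2 + 1), (T.mult f : ℂ) * (Qc c : ℂ) ^ (T.N + n * f) *
        SG (T.baseTrace i f) (T.PB N₁) c := by
    unfold err levels
    have hd : T.Z.dim - 1 = n := by omega
    rw [hd, sum_filter_of_ne]
    intro f _ hf
    by_contra h
    apply hf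
    rw [SG_zero, mul_zero]
    intro y q
    unfold baseTrace
    rw [hd, if_neg h]
  rw [← h2] at h1
  rw [Real.rpow_sub hQ, Real.rpow_natCast, ← mul_div_assoc, le_div_iff₀ (by positivity)]
  exact h1

include hS in
lemma summable_err (i : ℕ) (K : ℝ) {σ : ℝ} (hσ : (T.N : ℝ) + i + δ - 1 / (2 * T.u : ℕ) < σ) :
    Summable fun c : Nat.Primes × ℕ =>
      (K * hh A c * (Qc c : ℝ) ^ (((T.N + i : ℕ) : ℝ) - 1 / (2 * T.u : ℕ))) * (Qc c : ℝ) ^ (-σ) := by
  refine ((hS (σ - (((T.N + i : ℕ) : ℝ) - 1 / (2 * T.u : ℕ))) (by push_cast at hσ ⊢; linarith)).mul_left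
    K).congr fun c => ?_
  rw [mul_assoc, mul_assoc, ← Real.rpow_add (Q_pos' c)]
  congr 3
  ring

/-- the remaining factor -/
noncomputable def GG (T : SectionPower A) (N₁ : T.B) (i : ℕ) (s : ℂ) : ℂ :=
  Complex.exp (∑' c, DT (err T N₁ i) s c)

include hN hn hS in
lemma GG_analytic (i : ℕ) :
    AnalyticOnNhd ℂ (GG T N₁ i) {s : ℂ | (T.N : ℝ) + i + δ - 1 / (2 * T.u : ℕ) < s.re} := by
  have h1 := analytic_DT (a := err T N₁ i) (err_le hN hn i)
    (fun σ hσ => summable_err hS i _ hσ)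
  exact h1.cexp

include hN hn hS in
/-- the Euler product over the parameter space -/
lemma LFunction_eq (i : ℕ) {s : ℂ} (hs : (T.N : ℝ) + i + δ < s.re) :
    HasProd (fun y : {y : MaximalSpectrum T.B // N₁ ∉ y.asIdeal} => factor (T.trace i) y.1 s)
      (Complex.exp (∑' c, DT (SG (T.trace i) (fun y => N₁ ∉ y.asIdeal)) s c)) :=
  Pool.Agent.L0h11.TF.hasProd_ptsG (T.trace i) (summable_aT hN hn hS i hs)

include hN hn hS in
/-- the Euler products over the base -/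
lemma baseLFunction_eq (i f : ℕ) (hf : n * f ≤ i) {s : ℂ}
    (hs : (i : ℝ) - (n * f : ℕ) + δ < s.re) :
    HasProd (fun y : {y : MaximalSpectrum A // T.PB N₁ y} => factor (T.baseTrace i f) y.1 s)
      (Complex.exp (∑' c, DT (SG (T.baseTrace i f) (T.PB N₁)) s c)) :=
  Pool.Agent.L0h11.TF.hasProd_ptsG (T.baseTrace i f) (summable_aB hN hn hS i f hf hs)

include hN hn hS in
/-- **The factorization.** -/
theorem LFunction_fact (i : ℕ) {s : ℂ} (hs : (T.N : ℝ) + i + δ < s.re) :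
    T.LFunction i N₁ s = GG T N₁ i s *
      ∏ f ∈ T.levels i, T.baseLFunction i f N₁ (s - T.N - ((T.Z.dim - 1) * f : ℕ)) ^ T.mult f := by
  have hd : T.Z.dim - 1 = n := by omega
  have hf : ∀ f ∈ T.levels i, n * f ≤ i := by
    intro f hf
    unfold levels at hf
    rw [mem_filter, hd] at hf
    exact hf.2
  have hre : ∀ f, (i : ℝ) - (n * f : ℕ) + δ < (s - T.N - (n * f : ℕ)).re := by
    intro f
    rw [Complex.sub_re, Complex.sub_re, Complex.natCast_re, Complex.natCast_re]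
    linarith
  have h1 : T.LFunction i N₁ s =
      Complex.exp (∑' c, DT (SG (T.trace i) (fun y => N₁ ∉ y.asIdeal)) s c) :=
    (LFunction_eq hN hn hS i hs).tprod_eq
  have h2 : ∀ f ∈ T.levels i, T.baseLFunction i f N₁ (s - T.N - (n * f : ℕ)) =
      Complex.exp (∑' c, DT (SG (T.baseTrace i f) (T.PB N₁)) (s - T.N - (n * f : ℕ)) c) :=
    fun f hf' => (baseLFunction_eq hN hn hS i f (hf f hf') (hre f)).tprod_eq
  have s1 : Summable (DT (err T N₁ i) s) := by
    refine summable_DT (err_le hN hn i) (summable_err hS i _ ?_)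
    have : (0 : ℝ) ≤ 1 / (2 * T.u : ℕ) := by positivity
    linarith
  have s2 : ∀ f ∈ T.levels i, Summable
      (fun c => (T.mult f : ℂ) * DT (SG (T.baseTrace i f) (T.PB N₁)) (s - T.N - (n * f : ℕ)) c) :=
    fun f hf' => (summable_DT (norm_SG_le _ · _)
      (summable_aB hN hn hS i f (hf f hf') (hre f))).mul_left _
  have h3 : ∀ c, DT (SG (T.trace i) (fun y => N₁ ∉ y.asIdeal)) s c = DT (err T N₁ i) s c +
      ∑ f ∈ T.levels i, (T.mult f : ℂ) *
        DT (SG (T.baseTrace i f) (T.PB N₁)) (s - T.N - (n * f : ℕ)) c := by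
    intro c
    unfold DT err
    have hQ : (Qc c : ℂ) ≠ 0 := Nat.cast_ne_zero.2 (Qc_pos c).ne'
    have h4 : ∀ f, (Qc c : ℂ) ^ (-(s - T.N - (n * f : ℕ))) =
        (Qc c : ℂ) ^ (T.N + n * f) * (Qc c : ℂ) ^ (-s) := by
      intro f
      rw [← Complex.cpow_natCast, ← Complex.cpow_add _ _ hQ]
      congr 1
      push_cast
      ring
    rw [hd, sub_mul, sub_mul, sum_mul, sum_mul, sub_add, sub_eq_self.2]
    rw [sub_eq_zero]
    refine sum_congr rfl fun f _ => ?_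
    rw [h4]
    ring
  rw [h1, hd, tsum_congr h3, s1.tsum_add (summable_sum fun f hf' => s2 f hf'), Complex.exp_add,
    Summable.tsum_finsetSum s2, Complex.exp_sum]
  unfold GG
  congr 1
  refine prod_congr rfl fun f hf' => ?_
  rw [h2 f hf', tsum_mul_left, ← Complex.exp_nat_mul]

end Pool.Agent.L0h11.SectionPower
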