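import Mathlib
import Pool.Agent.L0h11.I.Eu
import Pool.Agent.L0h11.I.Df

/-!
# Statement: the points of a scheme of finite type with values in finite fields
-/

set_option autoImplicit false

namespace Pool.Agent.L0h11.TF

open Pool.Agent.H126R3 (Qc)
open Pool.Agent.TH958.An

/-- The series over the points with values in finite fields converges to the right of the absolute
dimension. (`SG (fun _ _ => 1) (fun _ => True) c` is the number of the homomorphisms from `A` to the
field with `Qc c = p ^ (k + 1)` elements, `c = (p, k)`.) Characteristic zero:
`Pool.Agent.L0h11.RG.hom_R` (file `L0h11/Gb.lean`) gives `#Hom(A, F) ≤ C * |F| ^ n`, and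
`Pool.Agent.H126R3.summable_Q` the convergence. Characteristic `p`: Noether normalization
(`exists_finite_inj_algHom_of_fg`) gives the same bound for the fields of characteristic `p`, and there
are no homomorphisms to the other fields. -/
def S_HOM : Prop :=
  ∀ (A : Type) [CommRing A] [IsDomain A] [Algebra.FiniteType ℤ A] (δ : ℕ), IsArithmeticDim A δ →
    ∀ σ : ℝ, (δ : ℝ) < σ → Summable fun c : Nat.Primes × ℕ =>
      SG (fun _ _ => (1 : ℝ)) (fun _ : Pt A => True) c * (Qc c : ℝ) ^ (-σ)

end Pool.Agent.L0h11.TF
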