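import Mathlib
import Pool.Agent.L0h11.I.Hs
import Pool.Agent.L0h11.Gb

/-!
# The number of the points with values in a finite field
-/

set_option autoImplicit false
set_option linter.all false

namespace Pool.Agent.L0h11.TF

open Finset Polynomial
open Pool.Agent.TH958.An
open Pool.Agent.H126R3 (Qc Qc_pos exists_F summable_Q)

/-- the prime field -/
lemma trdeg_bot {k₀ K : Type} [Field k₀] [Field K] [Algebra k₀ K]
    (h : (⊥ : Subfield K) = (algebraMap k₀ K).fieldRange) :
    Algebra.trdeg (⊥ : Subfield K) K = Algebra.trdeg k₀ K := by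
  let g : k₀ →+* (⊥ : Subfield K) :=
    (algebraMap k₀ K).codRestrict (⊥ : Subfield K) (fun x => by rw [h]; exact ⟨x, rfl⟩)
  letI : Algebra k₀ (⊥ : Subfield K) := g.toAlgebra
  have hT : IsScalarTower k₀ (⊥ : Subfield K) K := IsScalarTower.of_algebraMap_eq fun x => rfl
  have hsurj : Function.Surjective g := by
    rintro ⟨x, hx⟩
    have hx' := hx
    rw [h] at hx'
    obtain ⟨y, hy⟩ := hx'
    exact ⟨y, Subtype.ext hy⟩
  have halg : Algebra.IsAlgebraic k₀ (⊥ : Subfield K) := ⟨fun x => by
    obtain ⟨y, rfl⟩ := hsurj x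
    exact isAlgebraic_algebraMap y⟩
  have h1 := trdeg_add_eq k₀ (⊥ : Subfield K) (A := K)
  rw [trdeg_eq_zero, zero_add] at h1
  exact h1

section count

variable {p : ℕ} [Fact p.Prime] {A : Type} [CommRing A] [IsDomain A] [Algebra (ZMod p) A]
  [Algebra.FiniteType (ZMod p) A]

/-- Noether normalization bounds the number of the points -/
theorem hom_le_p : ∃ (s C : ℕ), (∃ x : Fin s → A, AlgebraicIndependent (ZMod p) x) ∧
    ∀ (F : Type) [Field F] [Finite F], Nat.card (A →+* F) ≤ C * Nat.card F ^ s := by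
  classical
  obtain ⟨s, g, hg, hfin⟩ := exists_finite_inj_algHom_of_fg (ZMod p) A
  letI : Algebra (MvPolynomial (Fin s) (ZMod p)) A := g.toRingHom.toAlgebra
  have hf : Module.Finite (MvPolynomial (Fin s) (ZMod p)) A := hfin
  obtain ⟨S, hS⟩ := hf.fg_top
  have hint : ∀ a : A, IsIntegral (MvPolynomial (Fin s) (ZMod p)) a := fun a =>
    (Algebra.IsIntegral.of_finite (MvPolynomial (Fin s) (ZMod p)) A).isIntegral a
  choose f hf1 hf2 using hint
  refine ⟨s, ∏ a : S, (f a.1).natDegree, ⟨fun i => g (MvPolynomial.X i), ?_⟩, ?_⟩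
  · have h1 : AlgebraicIndependent (ZMod p) (fun i : Fin s => (MvPolynomial.X i : MvPolynomial (Fin s) (ZMod p))) :=
      MvPolynomial.algebraicIndependent_X (Fin s) (ZMod p)
    exact h1.map' hg
  · intro F _ _
    letI : Fintype F := Fintype.ofFinite F
    rcases isEmpty_or_nonempty (A →+* F) with he | ⟨⟨φ₀⟩⟩
    · rw [Nat.card_of_isEmpty]
      exact Nat.zero_le _
    let θ : ZMod p →+* F := φ₀.comp (algebraMap (ZMod p) A)
    let ψ : (Fin s → F) → (MvPolynomial (Fin s) (ZMod p) →+* F) := fun x =>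
      MvPolynomial.eval₂Hom θ x
    let Rt : (Fin s → F) → S → Finset F := fun x a => ((f a.1).map (ψ x)).roots.toFinset
    have hψ : ∀ φ : A →+* F, φ.comp g.toRingHom = ψ (fun i => φ (g (MvPolynomial.X i))) := by
      intro φ
      refine MvPolynomial.ringHom_ext (fun a => ?_) (fun i => ?_)
      · have h1 : (φ.comp g.toRingHom).comp MvPolynomial.C = θ := Subsingleton.elim _ _
        have h2 : (ψ (fun i => φ (g (MvPolynomial.X i)))).comp MvPolynomial.C = θ :=
          Subsingleton.elim _ _
        have h3 := congrArg (fun z : ZMod p →+* F => z a) (h1.trans h2.symm)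
        exact h3
      · show φ (g (MvPolynomial.X i)) = MvPolynomial.eval₂ θ _ (MvPolynomial.X i)
        rw [MvPolynomial.eval₂_X]
    have hroot : ∀ (φ : A →+* F) (a : S), φ a.1 ∈ Rt (fun i => φ (g (MvPolynomial.X i))) a := by
      intro φ a
      rw [Multiset.mem_toFinset, mem_roots ((hf1 a.1).map _).ne_zero, IsRoot, eval_map, ← hψ φ]
      have h1 : eval₂ (φ.comp g.toRingHom) (φ a.1) (f a.1) = φ (eval₂ g.toRingHom a.1 (f a.1)) :=
        (hom_eval₂ _ _ _ _).symm
      rw [h1]
      have h2 : eval₂ g.toRingHom a.1 (f a.1) = 0 := hf2 a.1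
      rw [h2, map_zero]
    let Tg : Finset (Σ _ : Fin s → F, S → F) :=
      (univ : Finset (Fin s → F)).sigma fun x => Fintype.piFinset (Rt x)
    have hinj : Function.Injective (fun φ : A →+* F =>
      ((fun i => φ (g (MvPolynomial.X i)), fun a => φ a.1) : (Fin s → F) × (S → F))) := by
        intro φ φ' h
        have h1 := congrArg Prod.fst h
        have h2 := congrArg Prod.snd h
        have h3 : φ.comp g.toRingHom = φ'.comp g.toRingHom := by
          rw [hψ φ, hψ φ']
          exact congrArg ψ h1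
        refine RingHom.ext fun a => ?_
        have ha : a ∈ Submodule.span (MvPolynomial (Fin s) (ZMod p)) (S : Set A) := by
          rw [hS]
          exact Submodule.mem_top
        induction ha using Submodule.span_induction with
        | mem b hb => exact congrFun h2 ⟨b, hb⟩
        | zero => rw [map_zero, map_zero]
        | add b b' _ _ hb hb' => rw [map_add, map_add, hb, hb']
        | smul r b _ hb =>
          have h4 : r • b = g r * b := Algebra.smul_def r b
          rw [h4, map_mul, map_mul, hb]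
          congr 1
          exact congrArg (fun z : MvPolynomial (Fin s) (ZMod p) →+* F => z r) h3
    letI : Fintype (A →+* F) := Fintype.ofInjective _ hinj
    rw [Nat.card_eq_fintype_card, ← card_univ]
    have h1 : (univ : Finset (A →+* F)).card ≤ Tg.card := by
      refine card_le_card_of_injOn (fun φ => ⟨fun i => φ (g (MvPolynomial.X i)), fun a => φ a.1⟩)
        (fun φ _ => ?_) (fun φ _ φ' _ h => ?_)
      · rw [mem_coe, mem_sigma]
        exact ⟨mem_univ _, Fintype.mem_piFinset.2 fun a => hroot φ a⟩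
      · apply hinj
        rw [Sigma.mk.injEq] at h
        exact Prod.ext h.1 (eq_of_heq h.2)
    refine h1.trans ?_
    rw [card_sigma]
    calc _ ≤ ∑ _x : Fin s → F, ∏ a : S, (f a.1).natDegree := by
          refine sum_le_sum fun x _ => ?_
          rw [Fintype.card_piFinset]
          refine prod_le_prod' fun a _ => ?_
          refine (Multiset.toFinset_card_le _).trans ((card_roots' _).trans ?_)
          exact natDegree_map_le
      _ = _ := by
          rw [sum_const, card_univ, Fintype.card_fun, Fintype.card_fin, smul_eq_mul,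
            Nat.card_eq_fintype_card, mul_comm]

end count

section final

variable {A : Type} [CommRing A] [IsDomain A] [hft : Algebra.FiniteType ℤ A]

lemma SG_one_eq {c : Nat.Primes × ℕ} {F : Type} [Field F] [Finite F] (hF : Nat.card F = Qc c) :
    SG (fun _ _ => (1 : ℝ)) (fun _ : Pt A => True) c = Nat.card (A →+* F) := by
  classical
  let _ : Fintype (A →+* F) := Fintype.ofFinite _
  let _ : Fintype {φ : A →+* F // True} := Fintype.ofFinite _
  rw [sg_eq' _ hF, finsum_eq_sum_of_fintype, sum_const, card_univ, nsmul_eq_mul, mul_one,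
    ← Nat.card_eq_fintype_card]
  congr 1
  exact Nat.card_congr (Equiv.subtypeUnivEquiv fun _ => trivial)

lemma SG_one_nonneg (c : Nat.Primes × ℕ) :
    0 ≤ SG (fun _ _ => (1 : ℝ)) (fun _ : Pt A => True) c := by
  obtain ⟨F, _, _, hF⟩ := exists_F c
  rw [SG_one_eq (F := F) (by rw [Nat.card_eq_fintype_card]; exact hF)]
  exact Nat.cast_nonneg _

/-- characteristic zero -/
lemma hom_zero [CharZero A] {n : ℕ}
    (h : Algebra.trdeg (⊥ : Subfield (FractionRing A)) (FractionRing A) = n) {σ : ℝ}
    (hσ : ((n + 1 : ℕ) : ℝ) < σ) : Summable fun c : Nat.Primes × ℕ =>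
      SG (fun _ _ => (1 : ℝ)) (fun _ : Pt A => True) c * (Qc c : ℝ) ^ (-σ) := by
  have hc : CharZero (FractionRing A) := inferInstance
  have h1 : Algebra.trdeg ℚ (FractionRing A) = n := by
    rw [← trdeg_bot (k₀ := ℚ) Subfield.bot_eq_of_charZero]
    exact h
  obtain ⟨C, hC, hb⟩ := Pool.Agent.L0h11.hom_R (R := A) h1
  have h2 := summable_Q (σ - n) (by push_cast at hσ; linarith) 0 (by push_cast at hσ ⊢; linarith)
  refine Summable.of_nonneg_of_le (fun c => ?_) (fun c => ?_) (h2.mul_left C)
  · exact mul_nonneg (SG_one_nonneg c) (Real.rpow_nonneg (Nat.cast_nonneg _) _)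
  · obtain ⟨F, _, _, hF⟩ := exists_F c
    have hF' : Nat.card F = Qc c := by rw [Nat.card_eq_fintype_card]; exact hF
    have hQ : (0 : ℝ) < (Qc c : ℝ) := Nat.cast_pos.2 (Qc_pos c)
    rw [SG_one_eq hF', if_pos (Nat.zero_le _)]
    have h3 := hb F
    rw [hF'] at h3
    refine (mul_le_mul_of_nonneg_right h3 (Real.rpow_nonneg hQ.le _)).trans (le_of_eq ?_)
    rw [mul_assoc, ← Real.rpow_natCast, ← Real.rpow_add hQ]
    congr 2
    ring

/-- characteristic `p` -/
lemma hom_p (hc : ¬ CharZero A) {n : ℕ}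
    (h : Algebra.trdeg (⊥ : Subfield (FractionRing A)) (FractionRing A) = n) {σ : ℝ}
    (hσ : (n : ℝ) < σ) : Summable fun c : Nat.Primes × ℕ =>
      SG (fun _ _ => (1 : ℝ)) (fun _ : Pt A => True) c * (Qc c : ℝ) ^ (-σ) := by
  obtain ⟨p, hp⟩ := CharP.exists A
  have hp0 : p ≠ 0 := by
    rintro rfl
    exact hc (CharP.charP_to_charZero A)
  have hpp : p.Prime := (CharP.char_is_prime_or_zero A p).resolve_right hp0
  have hfact : Fact p.Prime := ⟨hpp⟩
  letI : Algebra (ZMod p) A := ZMod.algebra A p
  have hft' : Algebra.FiniteType (ZMod p) A := by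
    have hT : IsScalarTower ℤ (ZMod p) A := IsScalarTower.of_algebraMap_eq fun x => by
      simp
    exact Algebra.FiniteType.of_restrictScalars_finiteType ℤ (ZMod p) A
  have h1 : Algebra.trdeg (ZMod p) (FractionRing A) = n := by
    rw [← trdeg_bot (k₀ := ZMod p) (Subfield.bot_eq_of_zMod_algebra p)]
    exact h
  obtain ⟨s, C, ⟨x, hx⟩, hb⟩ := hom_le_p (p := p) (A := A)
  have hs : s ≤ n := by
    have h2 : AlgebraicIndependent (ZMod p)
        (fun i => IsScalarTower.toAlgHom (ZMod p) A (FractionRing A) (x i)) :=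
      hx.map' (IsFractionRing.injective A (FractionRing A))
    have h3 := h2.cardinalMk_le_trdeg
    rw [h1, Cardinal.mk_fin] at h3
    exact_mod_cast h3
  let j : ℕ → Nat.Primes × ℕ := fun k => (⟨p, hpp⟩, k)
  have hj : Function.Injective j := fun k k' h => (Prod.mk.inj h).2
  refine (hj.summable_iff (fun c hcr => ?_)).1 ?_
  · obtain ⟨F, _, _, hF⟩ := exists_F c
    have hF' : Nat.card F = Qc c := by rw [Nat.card_eq_fintype_card]; exact hF
    rw [SG_one_eq hF']
    have he : IsEmpty (A →+* F) := by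
      refine ⟨fun φ => hcr ?_⟩
      have h2 : (p : F) = 0 := by
        have h3 : φ (p : A) = (p : F) := map_natCast φ p
        rw [← h3, CharP.cast_eq_zero, map_zero]
      have h4 : p ∣ Fintype.card F := by
        have h5 : CharP F p := by
          rw [CharP.charP_iff_prime_eq_zero hpp]
          exact h2
        exact (prime_dvd_char_iff_dvd_card p).1 (by rw [CharP.eq F (ringChar.charP F) h5])
      rw [hF] at h4
      have h6 : p ∣ (c.1 : ℕ) := hpp.dvd_of_dvd_pow h4
      have h7 : p = c.1 := (Nat.prime_dvd_prime_iff_eq hpp c.1.2).1 h6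
      refine ⟨c.2, ?_⟩
      exact Prod.ext (Subtype.ext h7) rfl
    rw [Nat.card_of_isEmpty, Nat.cast_zero, zero_mul]
  · have hp1 : (1 : ℝ) < p := by exact_mod_cast hpp.one_lt
    have h2 : Summable fun k : ℕ => (C : ℝ) * (((p : ℝ) ^ ((n : ℝ) - σ)) ^ (k + 1)) := by
      refine Summable.mul_left _ ?_
      have h3 : Summable fun k : ℕ => ((p : ℝ) ^ ((n : ℝ) - σ)) ^ k :=
        summable_geometric_of_lt_one (Real.rpow_nonneg (by linarith) _)
          (Real.rpow_lt_one_of_one_lt_of_neg hp1 (by linarith))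
      exact (summable_nat_add_iff 1).2 h3
    refine Summable.of_nonneg_of_le (fun k => ?_) (fun k => ?_) h2
    · exact mul_nonneg (SG_one_nonneg _) (Real.rpow_nonneg (Nat.cast_nonneg _) _)
    · obtain ⟨F, _, _, hF⟩ := exists_F (j k)
      have hF' : Nat.card F = Qc (j k) := by rw [Nat.card_eq_fintype_card]; exact hF
      have hQ : (0 : ℝ) < (Qc (j k) : ℝ) := Nat.cast_pos.2 (Qc_pos _)
      have hQ1 : (1 : ℝ) ≤ (Qc (j k) : ℝ) := by
        have := Qc_pos (j k)
        exact_mod_cast this
      show SG (fun _ _ => (1 : ℝ)) (fun _ : Pt A => True) (j k) * (Qc (j k) : ℝ) ^ (-σ) ≤ _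
      rw [SG_one_eq hF']
      have h3 := hb F
      rw [hF'] at h3
      have h4 : (Nat.card (A →+* F) : ℝ) ≤ C * (Qc (j k) : ℝ) ^ n := by
        have h5 : (Nat.card (A →+* F) : ℝ) ≤ C * (Qc (j k) : ℝ) ^ s := by exact_mod_cast h3
        refine h5.trans (mul_le_mul_of_nonneg_left ?_ (Nat.cast_nonneg _))
        exact pow_le_pow_right₀ hQ1 hs
      refine (mul_le_mul_of_nonneg_right h4 (Real.rpow_nonneg hQ.le _)).trans (le_of_eq ?_)
      have h5 : (Qc (j k) : ℝ) = (p : ℝ) ^ (k + 1) := by
        unfold Qc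
        push_cast
        rfl
      rw [mul_assoc, ← Real.rpow_natCast (Qc (j k) : ℝ) n, ← Real.rpow_add hQ, h5,
        ← Real.rpow_natCast ((p : ℝ) ^ ((n : ℝ) - σ)) (k + 1), ← Real.rpow_natCast (p : ℝ) (k + 1),
        ← Real.rpow_mul (by linarith), ← Real.rpow_mul (by linarith)]
      congr 2
      ring

end final

/-- **The series over the points.** -/
theorem hom : S_HOM := by
  intro A _ _ _ δ hδ σ hσ
  obtain ⟨n, h, ⟨hc, rfl⟩ | ⟨hc, rfl⟩⟩ := hδ
  · exact hom_zero h hσ
  · exact hom_p hc h hσ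

end Pool.Agent.L0h11.TF
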