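import Mathlib
import Pool.Agent.L0h11.I.Fn
import Pool.Agent.L0h11.I.Hp

/-!
# The orders of the poles
-/

set_option autoImplicit false
set_option linter.all false

namespace Pool.Agent.L0h11.SectionPower

open Finset Filter Topology
open Pool.Agent.TH958.An
open Pool.Agent.L0h11.TF
open Pool.Agent.H126R3 (Qc Qc_pos exists_F)

lemma zpow_sum' {x : ℂ} (hx : x ≠ 0) (s : Finset ℕ) (m : ℕ → ℕ) (ρ : ℕ → ℤ) :
    x ^ (∑ f ∈ s, (m f : ℤ) * ρ f) = ∏ f ∈ s, (x ^ (ρ f)) ^ (m f) := by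
  classical
  induction s using Finset.induction_on with
  | empty => simp
  | insert a s ha ih =>
    rw [sum_insert ha, prod_insert ha, zpow_add₀ hx, ih, mul_comm (m a : ℤ), zpow_mul, zpow_natCast]

variable {A : Type} [CommRing A] [hft : Algebra.FiniteType ℤ A] {T : SectionPower A} {N₁ : T.B}

variable (hN : T.IsModel N₁) {n : ℕ} (hn : T.Z.dim = n + 1) {δ : ℝ}
  (hS : ∀ σ : ℝ, δ < σ → Summable fun c : Nat.Primes × ℕ => hh A c * (Qc c : ℝ) ^ (-σ))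

include hN hn hS in
/-- **The order of the pole.** -/
theorem pole_order (i : ℕ) (ρ : ℕ → ℤ)
    (h : ∀ f ∈ T.levels i, HasPoleOrder (T.baseLFunction i f N₁)
      ((i : ℝ) - ((T.Z.dim - 1) * f : ℕ) + δ) (ρ f)) :
    HasPoleOrder (T.LFunction i N₁) ((T.N : ℝ) + i + δ) (∑ f ∈ T.levels i, (T.mult f : ℤ) * ρ f) := by
  choose! c hc0 hc using h
  have hcont : ContinuousAt (GG T N₁ i) (((T.N : ℝ) + i + δ : ℝ) : ℂ) := by
    refine (GG_analytic hN hn hS i _ ?_).continuousAt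
    show (T.N : ℝ) + i + δ - 1 / (2 * T.u : ℕ) < ((((T.N : ℝ) + i + δ : ℝ) : ℂ)).re
    rw [Complex.ofReal_re]
    have h1 : (0 : ℝ) < 1 / (2 * T.u : ℕ) := by
      have := T.u_pos
      have h2 : (0 : ℝ) < (2 * T.u : ℕ) := Nat.cast_pos.2 (by omega)
      positivity
    linarith
  refine ⟨GG T N₁ i (((T.N : ℝ) + i + δ : ℝ) : ℂ) * ∏ f ∈ T.levels i, c f ^ T.mult f, ?_, ?_⟩
  · refine mul_ne_zero (Complex.exp_ne_zero _) (prod_ne_zero_iff.2 fun f hf => ?_)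
    exact pow_ne_zero _ (hc0 f hf)
  · have h1 : Tendsto (fun s : ℝ => GG T N₁ i (s : ℂ)) (𝓝[>] ((T.N : ℝ) + i + δ))
        (𝓝 (GG T N₁ i (((T.N : ℝ) + i + δ : ℝ) : ℂ))) := by
      refine hcont.tendsto.comp ?_
      exact (Complex.continuous_ofReal.tendsto _).mono_left nhdsWithin_le_nhds
    have h2 : ∀ f ∈ T.levels i, Tendsto (fun s : ℝ =>
        (((s : ℂ) - (((T.N : ℝ) + i + δ : ℝ) : ℂ)) ^ (ρ f) *
          T.baseLFunction i f N₁ ((s : ℂ) - T.N - ((T.Z.dim - 1) * f : ℕ))) ^ T.mult f)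
        (𝓝[>] ((T.N : ℝ) + i + δ)) (𝓝 (c f ^ T.mult f)) := by
      intro f hf
      refine Tendsto.pow ?_ _
      have h3 : Tendsto (fun s : ℝ => s - T.N - ((T.Z.dim - 1) * f : ℕ))
          (𝓝[>] ((T.N : ℝ) + i + δ)) (𝓝[>] ((i : ℝ) - ((T.Z.dim - 1) * f : ℕ) + δ)) := by
        refine tendsto_nhdsWithin_iff.2 ⟨?_, ?_⟩
        · have h4 : Continuous (fun s : ℝ => s - T.N - ((T.Z.dim - 1) * f : ℕ)) := by fun_prop
          have h5 := (h4.tendsto ((T.N : ℝ) + i + δ)).mono_left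
            (nhdsWithin_le_nhds (s := Set.Ioi ((T.N : ℝ) + i + δ)))
          have h6 : (T.N : ℝ) + i + δ - T.N - ((T.Z.dim - 1) * f : ℕ) =
              (i : ℝ) - ((T.Z.dim - 1) * f : ℕ) + δ := by ring
          rw [h6] at h5
          exact h5
        · refine eventually_nhdsWithin_of_forall fun s hs => ?_
          have hs' : (T.N : ℝ) + i + δ < s := hs
          show (i : ℝ) - ((T.Z.dim - 1) * f : ℕ) + δ < s - T.N - ((T.Z.dim - 1) * f : ℕ)
          linarith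
      refine ((hc f hf).comp h3).congr fun s => ?_
      show ((((s - T.N - ((T.Z.dim - 1) * f : ℕ) : ℝ)) : ℂ) -
        (((i : ℝ) - ((T.Z.dim - 1) * f : ℕ) + δ : ℝ) : ℂ)) ^ (ρ f) *
          T.baseLFunction i f N₁ ((s - T.N - ((T.Z.dim - 1) * f : ℕ) : ℝ) : ℂ) = _
      have h7 : (((s - T.N - ((T.Z.dim - 1) * f : ℕ) : ℝ)) : ℂ) -
        (((i : ℝ) - ((T.Z.dim - 1) * f : ℕ) + δ : ℝ) : ℂ) =
          (s : ℂ) - (((T.N : ℝ) + i + δ : ℝ) : ℂ) := by
        push_cast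
        ring
      have h8 : (((s - T.N - ((T.Z.dim - 1) * f : ℕ) : ℝ)) : ℂ) =
          (s : ℂ) - T.N - ((T.Z.dim - 1) * f : ℕ) := by
        push_cast
        ring
      rw [h7, h8]
    have h3 := h1.mul (tendsto_finsetProd _ h2)
    refine h3.congr' ?_
    refine eventually_nhdsWithin_of_forall fun s hs => ?_
    have hs' : (T.N : ℝ) + i + δ < s := hs
    have hne : (s : ℂ) - (((T.N : ℝ) + i + δ : ℝ) : ℂ) ≠ 0 := by
      rw [← Complex.ofReal_sub]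
      exact Complex.ofReal_ne_zero.2 (by linarith)
    show GG T N₁ i (s : ℂ) * ∏ f ∈ T.levels i, (((s : ℂ) - (((T.N : ℝ) + i + δ : ℝ) : ℂ)) ^ (ρ f) *
          T.baseLFunction i f N₁ ((s : ℂ) - T.N - ((T.Z.dim - 1) * f : ℕ))) ^ T.mult f =
        ((s : ℂ) - (((T.N : ℝ) + i + δ : ℝ) : ℂ)) ^ (∑ f ∈ T.levels i, (T.mult f : ℤ) * ρ f) *
          T.LFunction i N₁ (s : ℂ)
    rw [LFunction_fact hN hn hS i (s := (s : ℂ)) (by rw [Complex.ofReal_re]; exact hs'),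
      zpow_sum' hne, prod_congr rfl fun f _ => mul_pow _ _ _, prod_mul_distrib]
    ring

end Pool.Agent.L0h11.SectionPower
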