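import Mathlib
import Pool.Agent.L0h11.I.Po

/-!
# The theorem
-/

set_option autoImplicit false
set_option linter.all false

namespace Pool.Agent.L0h11.SectionPower

open Finset Filter Topology
open Pool.Agent.TH958.An
open Pool.Agent.L0h11.TF
open Pool.Agent.H126R3 (Qc Qc_pos exists_F)

variable {A : Type} [CommRing A] [IsDomain A] [hft : Algebra.FiniteType ℤ A] {δ : ℕ}

/-- absolute convergence of the logarithms -/
lemma summable_log {R : Type} [CommRing R] [Algebra.FiniteType ℤ R] (τ : MaximalSpectrum R → ℕ → ℂ)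
    (P : MaximalSpectrum R → Prop) {s : ℂ}
    (h : Summable fun c : Nat.Primes × ℕ => SG (fun y q => ‖τ y q‖) P c * (Qc c : ℝ) ^ (-s.re)) :
    Summable fun x : {y : MaximalSpectrum R // P y} × ℕ => ‖logTerm τ x.1.1 s x.2‖ := by
  refine (summable_tmG τ h).congr fun x => ?_
  rw [tmG_eq]
  rfl

theorem main (hδ : IsArithmeticDim A δ) (T : SectionPower A) (i : ℕ) {N₁ : T.B}
    (hN : T.IsModel N₁) :
    (∀ s : ℂ, T.edge δ i < s.re → Converges (T.trace i) (T.Upper N₁) s) ∧
    (∀ f ∈ T.levels i, ∀ s : ℂ, T.baseEdge δ i f < s.re →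
      Converges (T.baseTrace i f) (T.Lower N₁) s) ∧
    T.Factorizes δ i N₁ ∧
    ∀ ρ : ℕ → ℤ, (∀ f ∈ T.levels i, HasPoleOrder (T.baseLFunction i f N₁) (T.baseEdge δ i f) (ρ f)) →
      HasPoleOrder (T.LFunction i N₁) (T.edge δ i) (∑ f ∈ T.levels i, (T.mult f : ℤ) * ρ f) := by
  obtain ⟨n, hn⟩ : ∃ n, T.Z.dim = n + 1 := ⟨T.Z.dim - 1, by have := T.two_le; omega⟩
  have hd : T.Z.dim - 1 = n := by omega
  have hf : ∀ f ∈ T.levels i, n * f ≤ i := by
    intro f hf
    unfold levels at hf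
    rw [mem_filter, hd] at hf
    exact hf.2
  have hS : ∀ σ : ℝ, (δ : ℝ) < σ →
      Summable fun c : Nat.Primes × ℕ => hh A c * (Qc c : ℝ) ^ (-σ) := hom A δ hδ
  refine ⟨fun s hs => ⟨?_, ?_⟩, fun f hf' s hs => ⟨?_, ?_⟩, ⟨GG T N₁ i, ?_, ?_, ?_⟩, ?_⟩
  · exact summable_log _ _ (summable_aT hN hn hS i hs)
  · exact (LFunction_eq hN hn hS i hs).multipliable
  · unfold baseEdge at hs
    rw [hd] at hs
    exact summable_log _ _ (summable_aB hN hn hS i f (hf f hf') hs)
  · unfold baseEdge at hs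
    rw [hd] at hs
    exact (baseLFunction_eq hN hn hS i f (hf f hf') hs).multipliable
  · exact GG_analytic hN hn hS i
  · exact fun s => Complex.exp_ne_zero _
  · exact fun s hs => LFunction_fact hN hn hS i hs
  · exact fun ρ h => pole_order hN hn hS i ρ h

end Pool.Agent.L0h11.SectionPower
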