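import Mathlib
import Pool.Agent.L0h11.I.Mn

/-!
# Cohomology of Tate type
-/

set_option autoImplicit false
set_option linter.all false

namespace Pool.Agent.L0h11.FrobVariety

open Finset Polynomial
open Pool.Agent.TH958.An
open Pool.Agent.L0h11.TF

variable {A : Type} [CommRing A] {X : FrobVariety A} {F : Type} [Field F] [Fintype F] {φ : A →+* F}

lemma tt_tate (hT : X.IsTateType) (hg : φ X.good ≠ 0) (a : ℕ) :
    X.tt φ a = (X.betti a : ℂ) * ((√(Fintype.card F : ℝ) : ℝ) : ℂ) ^ a := by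
  obtain ⟨l, hl, hk, hF⟩ := card_eq_pow φ
  have hsq : ((√(Fintype.card F : ℝ) : ℝ) : ℂ) ^ 2 = (Fintype.card F : ℂ) := by
    rw [← Complex.ofReal_pow, Real.sq_sqrt (Nat.cast_nonneg _), Complex.ofReal_natCast]
  unfold tt tr
  have h1 : ∀ z ∈ X.eig a (ptOf φ).asIdeal, z ^ l = ((√(Fintype.card F : ℝ) : ℝ) : ℂ) ^ a := by
    intro z hz
    obtain ⟨j, rfl, rfl⟩ := hT a _ (ptOf φ).isMaximal (good_notMem hg) z hz
    rw [pow_mul _ 2 j, hsq, hF, Nat.cast_pow, ← pow_mul, ← pow_mul, mul_comm]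
  rw [hF, Nat.log_pow hk, ← hF, Multiset.map_congr rfl h1, Multiset.map_const',
    Multiset.sum_replicate, X.card_eig a _ (ptOf φ).isMaximal (good_notMem hg), nsmul_eq_mul]

/-- the scaling -/
noncomputable def sc (F : Type) [Fintype F] (P : ℕ[X]) : ℂ[X] :=
  (P.map (Nat.castRingHom ℂ)).comp (C ((√(Fintype.card F : ℝ) : ℝ) : ℂ) * Polynomial.X)

lemma sc_mul (P Q : ℕ[X]) : sc F (P * Q) = sc F P * sc F Q := by
  unfold sc
  rw [Polynomial.map_mul, mul_comp]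

lemma sc_pow (P : ℕ[X]) (k : ℕ) : sc F (P ^ k) = sc F P ^ k := by
  unfold sc
  rw [Polynomial.map_pow, pow_comp]

lemma sc_coeff (P : ℕ[X]) (m : ℕ) :
    (sc F P).coeff m = (P.coeff m : ℂ) * ((√(Fintype.card F : ℝ) : ℝ) : ℂ) ^ m := by
  unfold sc
  rw [comp_C_mul_X_coeff, coeff_map]
  rfl

lemma sc_add (P Q : ℕ[X]) : sc F (P + Q) = sc F P + sc F Q := by
  unfold sc
  rw [Polynomial.map_add, add_comp]

lemma sc_sum {ι : Type} (s : Finset ι) (P : ι → ℕ[X]) : sc F (∑ j ∈ s, P j) = ∑ j ∈ s, sc F (P j) := by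
  classical
  induction s using Finset.induction_on with
  | empty =>
    unfold sc
    simp
  | insert a s ha ih => rw [sum_insert ha, sum_insert ha, sc_add, ih]

lemma sc_X_pow (a : ℕ) : sc F (Polynomial.X ^ a) =
    C (((√(Fintype.card F : ℝ) : ℝ) : ℂ) ^ a) * Polynomial.X ^ a := by
  unfold sc
  rw [Polynomial.map_pow, map_X, pow_comp, X_comp, mul_pow, C_pow]

lemma sc_C (b : ℕ) : sc F (C b) = C (b : ℂ) := by
  unfold sc
  rw [map_C, C_comp]
  rfl

lemma poly_tate (hT : X.IsTateType) (hg : φ X.good ≠ 0) :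
    X.poly (ptOf φ).asIdeal (Fintype.card F) = sc F X.bettiPoly := by
  unfold poly bettiPoly
  rw [sc_sum]
  refine sum_congr rfl fun a _ => ?_
  rw [sc_mul, sc_C, sc_X_pow, ← mul_assoc, ← C_mul]
  congr 2
  exact tt_tate hT hg a

lemma ambient_tate (hT : X.IsTateType) (hg : φ X.good ≠ 0) :
    X.ambient (ptOf φ).asIdeal (Fintype.card F) = sc F X.ambientBetti := by
  have hsq : ((√(Fintype.card F : ℝ) : ℝ) : ℂ) ^ 2 = (Fintype.card F : ℂ) := by
    rw [← Complex.ofReal_pow, Real.sq_sqrt (Nat.cast_nonneg _), Complex.ofReal_natCast]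
  have h0 : ∀ a, X.tr a (ptOf φ).asIdeal (Fintype.card F) =
      (X.betti a : ℂ) * ((√(Fintype.card F : ℝ) : ℝ) : ℂ) ^ a := tt_tate hT hg
  unfold ambient ambientBetti
  rw [sc_add, sc_sum, sc_mul, sc_C, sc_X_pow, ← mul_assoc, ← C_mul, h0]
  congr 1
  refine sum_congr rfl fun b hb => ?_
  have hb' := mem_range.1 hb
  rw [sc_mul, sc_add, sc_C, sc_X_pow, sc_X_pow, h0, C_mul, mul_assoc, mul_add, mul_add, mul_add,
    ← mul_assoc (C (((√(Fintype.card F : ℝ) : ℝ) : ℂ) ^ b)) (C _), ← C_mul, ← hsq, ← pow_mul,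
    ← pow_add]
  have h1 : b + 2 * (X.dim - 1 - b) = 2 * (X.dim - 1) - b := by omega
  rw [h1]

end Pool.Agent.L0h11.FrobVariety

namespace Pool.Agent.L0h11.SectionPower

open Finset Polynomial
open Pool.Agent.TH958.An
open Pool.Agent.L0h11.TF
open Pool.Agent.H126R3 (Qc Qc_pos exists_F)
open NumberField

variable {A : Type} [CommRing A] {T : SectionPower A}

lemma baseTrace_tate {F : Type} [Field F] [Fintype F] {φ : A →+* F} (hX : φ T.X.good ≠ 0)
    (hZ : φ T.Z.good ≠ 0) (hXT : T.X.IsTateType) (hZT : T.Z.IsTateType) {i f : ℕ}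
    (hf : (T.Z.dim - 1) * f ≤ i) : T.baseTrace i f (ptOf φ) (Fintype.card F) =
      (T.tateRank i f : ℂ) * (Fintype.card F : ℂ) ^ (i - (T.Z.dim - 1) * f) := by
  have hsq : ((√(Fintype.card F : ℝ) : ℝ) : ℂ) ^ 2 = (Fintype.card F : ℂ) := by
    rw [← Complex.ofReal_pow, Real.sq_sqrt (Nat.cast_nonneg _), Complex.ofReal_natCast]
  unfold baseTrace tateRank
  rw [if_pos hf, FrobVariety.poly_tate hXT hX, FrobVariety.ambient_tate hZT hZ, ← FrobVariety.sc_pow,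
    ← FrobVariety.sc_mul, FrobVariety.sc_coeff, pow_mul, hsq]

variable [hft : Algebra.FiniteType ℤ A]

/-- the number of the points of the base -/
noncomputable def bc (T : SectionPower A) (N₁ : T.B) (c : Nat.Primes × ℕ) : ℝ :=
  SG (fun _ _ => (1 : ℝ)) (T.PB N₁) c

lemma bc_eq {N₁ : T.B} {c : Nat.Primes × ℕ} {F : Type} [Field F] [Finite F] (hF : Nat.card F = Qc c) :
    bc T N₁ c = Nat.card {φ : A →+* F // T.PB N₁ (ptOf φ)} := by
  classical
  let _ : Fintype {φ : A →+* F // T.PB N₁ (ptOf φ)} := Fintype.ofFinite _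
  unfold bc
  rw [sg_eq' _ hF, finsum_eq_sum_of_fintype, sum_const, card_univ, nsmul_eq_mul, mul_one,
    ← Nat.card_eq_fintype_card]

lemma SG_tate {N₁ : T.B} (hN : T.IsModel N₁) (hXT : T.X.IsTateType) (hZT : T.Z.IsTateType) {i f : ℕ}
    (hf : (T.Z.dim - 1) * f ≤ i) (c : Nat.Primes × ℕ) : SG (T.baseTrace i f) (T.PB N₁) c =
      ((T.tateRank i f * (Qc c : ℝ) ^ (i - (T.Z.dim - 1) * f) * bc T N₁ c : ℝ) : ℂ) := by
  classical
  obtain ⟨F, _, _, hF⟩ := exists_F c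
  have hF' : Nat.card F = Qc c := by rw [Nat.card_eq_fintype_card]; exact hF
  have hF2 : Fintype.card F = Qc c := hF
  let _ : Fintype {φ : A →+* F // T.PB N₁ (ptOf φ)} := Fintype.ofFinite _
  rw [bc_eq hF', sg_eq' _ hF', finsum_eq_sum_of_fintype]
  have h1 : ∀ φ : {φ : A →+* F // T.PB N₁ (ptOf φ)}, T.baseTrace i f (ptOf φ.1) (Qc c) =
      (T.tateRank i f : ℂ) * (Qc c : ℂ) ^ (i - (T.Z.dim - 1) * f) := by
    intro φ
    obtain ⟨hX, hZ⟩ := T.good_of_model φ.1 hN ((T.map_ne_iff φ.1 N₁).1 φ.2)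
    rw [← hF2]
    exact baseTrace_tate hX hZ hXT hZT hf
  rw [sum_congr rfl fun φ _ => h1 φ, sum_const, card_univ, nsmul_eq_mul, ← Nat.card_eq_fintype_card]
  push_cast
  ring

variable [IsDomain A] [CharZero A]

open Pool.Agent.R410.LW (Landau landau) in
/-- the number of the points of the base -/
theorem bc_asymp {N₁ : T.B} (hN₁ : N₁ ≠ 0) {n : ℕ} (htr : Algebra.trdeg ℚ (FractionRing A) = n) :
    ∃ (L : Type) (_ : Field L) (_ : NumberField L) (C : ℝ) (N : ℕ), 0 ≤ C ∧ N ≠ 0 ∧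
      ∀ c : Nat.Primes × ℕ, bc T N₁ c ≤ C * (Qc c : ℝ) ^ n ∧ hh (𝓞 L) c ≤ C ∧
        ((¬ (c.1 : ℕ) ∣ N) → |bc T N₁ c - hh (𝓞 L) c * (Qc c : ℝ) ^ n| * √(Qc c : ℝ) ≤
          C * (Qc c : ℝ) ^ n) := by
  classical
  obtain ⟨L, _, _, hL⟩ := landau n (FractionRing A) (fg_of_ft A _) htr
  obtain ⟨s, hs, hA⟩ := hL A
  -- a nonzero coefficient
  obtain ⟨m, hm⟩ : ∃ m, N₁.coeff m ≠ 0 := by
    by_contra hcon
    push Not at hcon
    exact hN₁ (MvPolynomial.ext _ _ fun m => by rw [hcon m, MvPolynomial.coeff_zero])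
  set t : A := s * N₁.coeff m with ht
  have ht0 : t ≠ 0 := mul_ne_zero hs hm
  obtain ⟨C₁, M₁, hC₁, hM₁, h1⟩ := hA t ht0 (Dvd.intro _ rfl)
  obtain ⟨C₂, M₂, hC₂, hM₂, h2⟩ := zeros_R (R := A) htr ht0
  obtain ⟨C₃, hC₃, h3⟩ := hom_R (R := A) htr
  have htrL : Algebra.trdeg ℚ (FractionRing (𝓞 L)) = (0 : ℕ) := by
    have e1 : Algebra.IsAlgebraic ℚ L := inferInstance
    let e : FractionRing (𝓞 L) ≃ₐ[𝓞 L] L := FractionRing.algEquiv (𝓞 L) L
    let e' : FractionRing (𝓞 L) ≃ₐ[ℚ] L := (e.toRingEquiv : FractionRing (𝓞 L) ≃+* L).toRatAlgEquiv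
    rw [e'.trdeg_eq, trdeg_eq_zero, Nat.cast_zero]
  obtain ⟨C₄, hC₄, h4⟩ := hom_R (R := 𝓞 L) htrL
  refine ⟨L, inferInstance, inferInstance, C₁ + C₂ + C₃ + C₄, M₁ * M₂, by positivity,
    mul_ne_zero hM₁ hM₂, fun c => ?_⟩
  obtain ⟨F, _, _, hF⟩ := exists_F c
  have hF' : Nat.card F = Qc c := by rw [Nat.card_eq_fintype_card]; exact hF
  have hQ : (0 : ℝ) < (Qc c : ℝ) := Nat.cast_pos.2 (Qc_pos c)
  let _ : Fintype (A →+* F) := Fintype.ofFinite _
  let _ : Fintype (𝓞 L →+* F) := Fintype.ofFinite _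
  rw [bc_eq hF', hh_eq c hF', ← Nat.card_eq_fintype_card]
  have hle : (Nat.card {φ : A →+* F // T.PB N₁ (ptOf φ)} : ℝ) ≤ Nat.card (A →+* F) := by
    have h5 : Nat.card {φ : A →+* F // T.PB N₁ (ptOf φ)} ≤ Nat.card (A →+* F) :=
      Nat.card_le_card_of_injective _ Subtype.val_injective
    exact_mod_cast h5
  have h3' := h3 F
  have h4' := h4 F
  rw [hF'] at h3' h4'
  rw [pow_zero, mul_one] at h4'
  refine ⟨?_, ?_, fun hc => ?_⟩
  · refine hle.trans (h3'.trans ?_)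
    refine mul_le_mul_of_nonneg_right ?_ (by positivity)
    linarith
  · linarith
  · have hNF : ∀ M : ℕ, M ∣ M₁ * M₂ → ((M : ℕ) : F) ≠ 0 := by
      intro M hM h0
      apply hc
      refine dvd_trans ?_ hM
      have hchar : CharP F (c.1 : ℕ) := by
        have hp : Fact (c.1 : ℕ).Prime := ⟨c.1.2⟩
        exact charP_of_card_eq_prime_pow (f := c.2 + 1) (by rw [← Nat.card_eq_fintype_card]; exact hF')
      exact (CharP.cast_eq_zero_iff F (c.1 : ℕ) M).1 h0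
    have h1' := h1 F (hNF M₁ (Dvd.intro _ rfl))
    have h2' := h2 F (hNF M₂ (Dvd.intro_left _ rfl))
    rw [hF'] at h1' h2'
    -- comparison
    have hsub1 : (Nat.card {φ : A →+* F // φ t ≠ 0} : ℝ) ≤
        Nat.card {φ : A →+* F // T.PB N₁ (ptOf φ)} := by
      have h5 : Nat.card {φ : A →+* F // φ t ≠ 0} ≤ Nat.card {φ : A →+* F // T.PB N₁ (ptOf φ)} := by
        refine Nat.card_le_card_of_injective
          (fun φ => (⟨φ.1, ?_⟩ : {φ : A →+* F // T.PB N₁ (ptOf φ)})) ?_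
        · refine (T.map_ne_iff φ.1 N₁).2 fun h0 => ?_
          apply φ.2
          have h6 := congrArg (MvPolynomial.coeff m) h0
          rw [MvPolynomial.coeff_map, MvPolynomial.coeff_zero] at h6
          exact ((map_mul φ.1 s (N₁.coeff m)).trans (by rw [h6, mul_zero]))
        · intro φ φ' h
          exact Subtype.ext (congrArg (fun z => z.1) h)
      exact_mod_cast h5
    have hsub2 : (Nat.card {φ : A →+* F // T.PB N₁ (ptOf φ)} : ℝ) ≤
        Nat.card {φ : A →+* F // φ t ≠ 0} + Nat.card {φ : A →+* F // φ t = 0} := by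
      have h5 : Nat.card (A →+* F) = Nat.card {φ : A →+* F // φ t = 0} +
          Nat.card {φ : A →+* F // φ t ≠ 0} := by
        rw [← Nat.card_sum]
        exact Nat.card_congr (Equiv.sumCompl (fun φ : A →+* F => φ t = 0)).symm
      rw [h5] at hle
      push_cast at hle
      linarith
    have hsq : √(Qc c : ℝ) ≤ (Qc c : ℝ) := by
      have h6 : (1 : ℝ) ≤ (Qc c : ℝ) := (one_lt_Q c).le
      rw [Real.sqrt_le_left (by linarith)]
      nlinarith
    have h7 : |(Nat.card {φ : A →+* F // T.PB N₁ (ptOf φ)} : ℝ) -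
        Nat.card (𝓞 L →+* F) * (Qc c : ℝ) ^ n| ≤
        |(Nat.card {φ : A →+* F // φ t ≠ 0} : ℝ) - Nat.card (𝓞 L →+* F) * (Qc c : ℝ) ^ n| +
          Nat.card {φ : A →+* F // φ t = 0} := by
      have h8 : (0 : ℝ) ≤ Nat.card {φ : A →+* F // φ t = 0} := Nat.cast_nonneg _
      rw [abs_le]
      have h9 := abs_le.1 (le_refl |(Nat.card {φ : A →+* F // φ t ≠ 0} : ℝ) -
        Nat.card (𝓞 L →+* F) * (Qc c : ℝ) ^ n|)
      constructor <;> linarith [h9.1, h9.2]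
    calc _ ≤ (|(Nat.card {φ : A →+* F // φ t ≠ 0} : ℝ) - Nat.card (𝓞 L →+* F) * (Qc c : ℝ) ^ n| +
          Nat.card {φ : A →+* F // φ t = 0}) * √(Qc c : ℝ) :=
          mul_le_mul_of_nonneg_right h7 (Real.sqrt_nonneg _)
      _ ≤ C₁ * (Qc c : ℝ) ^ n + C₂ * (Qc c : ℝ) ^ n := by
          rw [add_mul]
          refine add_le_add h1' ((mul_le_mul_of_nonneg_left hsq (Nat.cast_nonneg _)).trans h2')
      _ ≤ _ := by
          rw [← add_mul]
          refine mul_le_mul_of_nonneg_right ?_ (by positivity)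
          linarith

end Pool.Agent.L0h11.SectionPower
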