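import Mathlib
import Pool.Agent.L0h11.I.Tt
import Pool.Agent.L0h11.An
import Pool.Agent.L0h11.Hk

/-!
# The pole of the zeta function
-/

set_option autoImplicit false
set_option linter.all false

namespace Pool.Agent.L0h11.TF

open Finset Filter Topology NumberField IsDedekindDomain
open Pool.Agent.TH958.An
open Pool.Agent.H126R3 (Qc Qc_pos exists_F summable_Q)
open Pool.Agent.L0h11.SectionPower (hh hh_nonneg)
open Pool.Agent.N172.HS (IsHecke)

section nf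

variable {L : Type} [Field L] [NumberField L]

/-- the number of the primes of norm `p` -/
lemma hh_prime (p : Nat.Primes) :
    hh (𝓞 L) (p, 0) = (((ov L p).filter fun 𝔭 => Ideal.absNorm 𝔭 = p).card : ℝ) := by
  classical
  have hfin : Finite (Yc (R := 𝓞 L) (fun _ => True) (p, 0)) := finite_Yc
  let _ := Fintype.ofFinite (Yc (R := 𝓞 L) (fun _ => True) (p, 0))
  have hpk : ∀ y : Yc (R := 𝓞 L) (fun _ => True) (p, 0), (pk y.1).2 = 0 := by
    intro y
    have h1 : (pk y.1).2 + 1 ∣ 0 + 1 := y.2.2.2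
    have h2 := Nat.le_of_dvd (by norm_num) h1
    omega
  have hnorm : ∀ y : Pt (𝓞 L), Ideal.absNorm y.asIdeal = qy y := by
    intro y
    rw [Ideal.absNorm_apply, Submodule.cardQuot_apply]
    rfl
  unfold hh
  rw [sg_eq]
  have h1 : ∑ y : Yc (R := 𝓞 L) (fun _ => True) (p, 0), (((pk y.1).2 + 1 : ℕ) : ℝ) • (1 : ℝ) =
      (univ : Finset (Yc (R := 𝓞 L) (fun _ => True) (p, 0))).card := by
    rw [sum_congr rfl fun y _ => by rw [hpk y, zero_add, Nat.cast_one, one_smul], sum_const,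
      nsmul_eq_mul, mul_one]
  rw [h1]
  congr 1
  refine card_bij (fun y _ => y.1.asIdeal) (fun y _ => ?_) (fun y _ y' _ h => ?_) (fun 𝔭 h𝔭 => ?_)
  · rw [mem_filter, mem_ov, hnorm, qy_eq, hpk y, y.2.2.1]
    refine ⟨⟨y.1.isMaximal.isPrime, ?_⟩, by rw [zero_add, pow_one]⟩
    have h2 := ringChar_eq y.1
    rw [y.2.2.1] at h2
    have h3 : ((p : ℕ) : Res y.1) = 0 := by
      rw [← h2]
      exact ringChar.Nat.cast_ringChar
    rw [← map_natCast (Ideal.Quotient.mk y.1.asIdeal)] at h3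
    exact Ideal.Quotient.eq_zero_iff_mem.1 h3
  · exact Subtype.ext (MaximalSpectrum.ext h)
  · rw [mem_filter] at h𝔭
    have h2 : 𝔭.IsPrime := (mem_ov.1 h𝔭.1).1
    have h3 : 𝔭 ≠ ⊥ := by
      rintro rfl
      have h4 := h𝔭.2
      rw [Ideal.absNorm_bot] at h4
      exact p.2.ne_zero h4.symm
    have h4 : 𝔭.IsMaximal := h2.isMaximal h3
    have h5 : pk (⟨𝔭, h4⟩ : Pt (𝓞 L)) = (p, 0) := by
      refine pk_eq_of _ p 0 ?_
      have h6 := hnorm ⟨𝔭, h4⟩
      rw [h𝔭.2] at h6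
      rw [zero_add, pow_one]
      exact h6.symm
    refine ⟨⟨⟨𝔭, h4⟩, trivial, ?_, ?_⟩, mem_univ _, rfl⟩
    · rw [h5]
    · rw [h5]

lemma hk_one {N : ℕ} (I : Ideal (𝓞 L)) (h : hk (fun _ : Ideal (𝓞 L) => (1 : ℂ)) N I ≠ 0) :
    hk (fun _ : Ideal (𝓞 L) => (1 : ℂ)) N I = 1 := by
  classical
  have hI : I ≠ 0 := by
    rintro rfl
    exact h (map_zero _)
  by_contra hcon
  apply hcon
  revert h
  unfold hk
  refine ind_S (fun _ => True) (fun I => ext (fun P => if (N : 𝓞 L) ∈ P then (0 : ℂ) else 1) I ≠ 0 →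
    ext (fun P => if (N : 𝓞 L) ∈ P then (0 : ℂ) else 1) I = 1) ?_ ?_ ?_ hI (fun _ _ => trivial)
  · intro _
    rw [map_one]
  · intro I J h1 h2 h3
    rw [map_mul] at h3 ⊢
    rw [h1 (left_ne_zero_of_mul h3), h2 (right_ne_zero_of_mul h3), one_mul]
  · intro P _ h3
    rw [ext_prime] at h3 ⊢
    split_ifs at h3 ⊢ with h4
    · exact absurd rfl h3
    · rfl

/-- **The pole of the Dedekind zeta function**, in the form needed here. -/
theorem zeta_L {C : ℝ} (hC : ∀ c, hh (𝓞 L) c ≤ C) (m N : ℕ) (hN : N ≠ 0) :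
    ∃ (S : Finset ℕ) (G : ℂ → ℂ), (∀ p : Nat.Primes, (p : ℕ) ∣ N → (p : ℕ) ∈ S) ∧
      AnalyticAt ℂ G 1 ∧ G 1 ≠ 0 ∧ ∀ᶠ z : ℂ in 𝓝 1, 1 < z.re →
        Complex.exp (∑' c, DT (fun c => if (c.1 : ℕ) ∈ S then 0 else
          ((m * hh (𝓞 L) c : ℝ) : ℂ)) z c) * (z - 1) ^ m = G z := by
  classical
  have hC0 : 0 ≤ C := (hh_nonneg _).trans (hC (⟨2, Nat.prime_two⟩, 0))
  obtain ⟨N', k, hN', -, hH⟩ := (HT.one (K := L)).hecke 1 one_pos
  set ψ := hk (fun _ : Ideal (𝓞 L) => (1 : ℂ)) N' with hψ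
  set S : Finset ℕ := (N * N').primeFactors with hS
  set τ : Nat.Primes → ℕ → ℂ := fun p k => ((m * hh (𝓞 L) (p, k - 1) : ℝ) : ℂ) with hτ
  have hτC : ∀ p : Nat.Primes, ∀ k, 1 ≤ k → ‖τ p k‖ ≤ m * C := by
    intro p k _
    rw [hτ]
    simp only
    rw [Complex.norm_real, Real.norm_eq_abs, abs_of_nonneg (mul_nonneg (Nat.cast_nonneg _)
      (hh_nonneg _))]
    exact mul_le_mul_of_nonneg_left (hC _) (Nat.cast_nonneg _)
  have hτ1 : ∀ p : Nat.Primes, (p : ℕ) ∉ S → τ p 1 = ((0 : ℕ) : ℂ) + ∑ _i : Fin m,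
      ∑ 𝔭 ∈ (ov L p).filter (fun 𝔭 => Ideal.absNorm 𝔭 = p), ψ 𝔭 := by
    intro p hp
    have hpN : ¬ (p : ℕ) ∣ N' := fun h => hp (Nat.mem_primeFactors.2
      ⟨p.2, dvd_mul_of_dvd_right h _, mul_ne_zero hN hN'.ne'⟩)
    have h1 : ∀ 𝔭 ∈ (ov L p).filter (fun 𝔭 => Ideal.absNorm 𝔭 = p), ψ 𝔭 = 1 := by
      intro 𝔭 h𝔭
      rw [mem_filter] at h𝔭
      have h2 : 𝔭.IsPrime := (mem_ov.1 h𝔭.1).1
      have h3 : 𝔭 ≠ ⊥ := by
        rintro rfl
        have h4 := h𝔭.2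
        rw [Ideal.absNorm_bot] at h4
        exact p.2.ne_zero h4.symm
      refine hk_prime (fun _ => 1) N' ⟨𝔭, h2, h3⟩ ?_
      intro h4
      have h5 : (1 : 𝓞 L) ∈ 𝔭 := by
        have h6 : IsCoprime ((p : ℕ) : ℤ) (N' : ℤ) := by
          rw [Nat.isCoprime_iff_coprime]
          exact (Nat.Prime.coprime_iff_not_dvd p.2).2 hpN
        obtain ⟨u, v, huv⟩ := h6
        have h7 : (1 : 𝓞 L) = (u : 𝓞 L) * ((p : ℕ) : 𝓞 L) + (v : 𝓞 L) * (N' : 𝓞 L) := by
          exact_mod_cast (congrArg (fun z : ℤ => (z : 𝓞 L)) huv).symm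
        rw [h7]
        exact 𝔭.add_mem (𝔭.mul_mem_left _ (mem_ov.1 h𝔭.1).2) (𝔭.mul_mem_left _ h4)
      exact h2.ne_top ((Ideal.eq_top_iff_one _).2 h5)
    rw [sum_congr rfl fun _ _ => sum_congr rfl h1, sum_const, sum_const, card_univ, Fintype.card_fin,
      hτ]
    simp only [Nat.sub_self]
    rw [hh_prime]
    push_cast
    simp
  obtain ⟨-, G, hG, hG1, hGL⟩ := core (fun _ : Fin m => L) τ S 0 (ψ := fun _ => ψ) (fun _ => hH)
    (fun _ => 1) (fun _ => Or.inl ⟨fun I hI => hk_one I hI, rfl⟩) (fun p _ => hτC p) hτ1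
  refine ⟨S, G, fun p hp => Nat.mem_primeFactors.2 ⟨p.2, dvd_mul_of_dvd_left hp _,
    mul_ne_zero hN hN'.ne'⟩, hG, hG1, ?_⟩
  filter_upwards [hGL] with z hz hz1
  rw [← hz hz1]
  have hsumm : Summable (DT (fun c => if (c.1 : ℕ) ∈ S then 0 else
      ((m * hh (𝓞 L) c : ℝ) : ℂ)) z) := by
    refine summable_DT (b := fun _ => m * C) (fun c => ?_) ?_
    · split_ifs
      · rw [norm_zero]
        positivity
      · rw [Complex.norm_real, Real.norm_eq_abs, abs_of_nonneg (mul_nonneg (Nat.cast_nonneg _)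
          (hh_nonneg _))]
        exact mul_le_mul_of_nonneg_left (hC _) (Nat.cast_nonneg _)
    · refine Summable.mul_left _ ?_
      refine (summable_Q z.re (by linarith) 0 (by push_cast; linarith)).congr fun c => ?_
      rw [if_pos (Nat.zero_le _)]
  have hprod : HasProd (fun p : Nat.Primes => if (p : ℕ) ∈ S then (1 : ℂ) else
      Complex.exp (TT (τ p) (((p : ℕ) : ℂ) ^ (-z))))
      (Complex.exp (∑' c, DT (fun c => if (c.1 : ℕ) ∈ S then 0 else
          ((m * hh (𝓞 L) c : ℝ) : ℂ)) z c)) := by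
    have h1 : HasSum (fun p : Nat.Primes => ∑' k : ℕ, DT (fun c => if (c.1 : ℕ) ∈ S then 0 else
        ((m * hh (𝓞 L) c : ℝ) : ℂ)) z (p, k)) (∑' c, DT (fun c => if (c.1 : ℕ) ∈ S then 0 else
          ((m * hh (𝓞 L) c : ℝ) : ℂ)) z c) :=
      hsumm.hasSum.prod_fiberwise fun p => (hsumm.prod_factor p).hasSum
    refine h1.cexp.congr_fun fun p => ?_
    simp only [Function.comp_apply]
    by_cases hp : (p : ℕ) ∈ S
    · rw [if_pos hp]
      unfold DT
      simp only [if_pos hp, zero_mul, tsum_zero, Complex.exp_zero]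
    · rw [if_neg hp]
      congr 1
      unfold TT DT
      refine tsum_congr fun k => ?_
      simp only [if_neg hp]
      rw [hτ]
      simp only [Nat.add_sub_cancel]
      have h2 : ((Qc (p, k) : ℕ) : ℂ) ^ (-z) = (((p : ℕ) : ℂ) ^ (-z)) ^ (k + 1) := by
        unfold Qc
        rw [Nat.cast_pow, ← Complex.cpow_nat_mul, ← Complex.natCast_cpow_natCast_mul]
      rw [h2]
      ring
  rw [hprod.tprod_eq]
  congr 2
  simp

end nf

end Pool.Agent.L0h11.TF
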