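import Mathlib
import Pool.Agent.L0h11.I.Tu

/-!
# The orders of the poles for cohomology of Tate type
-/

set_option autoImplicit false
set_option linter.all false

namespace Pool.Agent.L0h11.TF

open Finset Filter Topology NumberField IsDedekindDomain
open Pool.Agent.TH958.An
open Pool.Agent.H126R3 (Qc Qc_pos exists_F summable_Q)
open Pool.Agent.L0h11.SectionPower (hh hh_nonneg)

/-- the finite fields of finitely many characteristics -/
lemma summable_bad (S : Finset ℕ) {σ : ℝ} (hσ : 0 < σ) : Summable fun c : Nat.Primes × ℕ =>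
    if (c.1 : ℕ) ∈ S then (Qc c : ℝ) ^ (-σ) else 0 := by
  classical
  have hnn : ∀ c : Nat.Primes × ℕ, 0 ≤ (if (c.1 : ℕ) ∈ S then (Qc c : ℝ) ^ (-σ) else 0) := by
    intro c
    split_ifs
    · exact Real.rpow_nonneg (Nat.cast_nonneg _) _
    · exact le_rfl
  rw [summable_prod_of_nonneg hnn]
  constructor
  · intro p
    by_cases hp : (p : ℕ) ∈ S
    · simp only [if_pos hp]
      have hp1 : (1 : ℝ) < (p : ℕ) := by exact_mod_cast p.2.one_lt
      have h3 : Summable fun k : ℕ => (((p : ℕ) : ℝ) ^ (-σ)) ^ k :=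
        summable_geometric_of_lt_one (Real.rpow_nonneg (by linarith) _)
          (Real.rpow_lt_one_of_one_lt_of_neg hp1 (by linarith))
      refine ((summable_nat_add_iff 1).2 h3).congr fun k => ?_
      unfold Qc
      rw [Nat.cast_pow, ← Real.rpow_natCast, ← Real.rpow_natCast, ← Real.rpow_mul (by linarith),
        ← Real.rpow_mul (by linarith), mul_comm]
    · simp only [if_neg hp]
      exact summable_zero
  · let f : Nat.Primes → ℕ := fun p => (p : ℕ)
    have hf : Function.Injective f := Subtype.val_injective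
    refine summable_of_ne_finset_zero (s := S.preimage f hf.injOn) fun p hp => ?_
    have hp' : (p : ℕ) ∉ S := fun h => hp (mem_preimage.2 h)
    simp only [if_neg hp', tsum_zero]

/-- **The pole.** -/
theorem pole_of_asymp {L : Type} [Field L] [NumberField L] {b : Nat.Primes × ℕ → ℝ} {C : ℝ}
    {N n : ℕ} (hC : 0 ≤ C) (hN : N ≠ 0) (hb0 : ∀ c, 0 ≤ b c) (hb : ∀ c, b c ≤ C * (Qc c : ℝ) ^ n)
    (hL : ∀ c, hh (𝓞 L) c ≤ C)
    (hbL : ∀ c : Nat.Primes × ℕ, (¬ (c.1 : ℕ) ∣ N) →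
      |b c - hh (𝓞 L) c * (Qc c : ℝ) ^ n| * √(Qc c : ℝ) ≤ C * (Qc c : ℝ) ^ n) (m j : ℕ) :
    ∃ G : ℂ → ℂ, AnalyticAt ℂ G 1 ∧ G 1 ≠ 0 ∧ ∀ᶠ z : ℂ in 𝓝 1, 1 < z.re →
      (z - 1) ^ m * Complex.exp (∑' c, DT (fun c => ((m * (Qc c : ℝ) ^ j * b c : ℝ) : ℂ))
        (z + j + n) c) = G z := by
  classical
  obtain ⟨S, G, hS, hG, hG1, hGL⟩ := zeta_L hL m N hN
  set a₁ : Nat.Primes × ℕ → ℂ := fun c => if (c.1 : ℕ) ∈ S then 0 else
    ((m * hh (𝓞 L) c : ℝ) : ℂ) with ha₁
  set a₂ : Nat.Primes × ℕ → ℂ := fun c => ((m * (b c / (Qc c : ℝ) ^ n) : ℝ) : ℂ) - a₁ c with ha₂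
  set b₂ : Nat.Primes × ℕ → ℝ := fun c => m * C * (if (c.1 : ℕ) ∈ S then 1 else 0) +
    m * C * (Qc c : ℝ) ^ (-(1 / 2) : ℝ) with hb₂
  have hab : ∀ c, ‖a₂ c‖ ≤ b₂ c := by
    intro c
    have hQ := Q_pos' c
    have hm : (0 : ℝ) ≤ m := Nat.cast_nonneg _
    rw [ha₂, hb₂, ha₁]
    simp only
    by_cases hc : (c.1 : ℕ) ∈ S
    · rw [if_pos hc, if_pos hc, sub_zero, Complex.norm_real, Real.norm_eq_abs,
        abs_of_nonneg (mul_nonneg hm (div_nonneg (hb0 c) (by positivity))), mul_one]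
      have h1 : b c / (Qc c : ℝ) ^ n ≤ C := by
        rw [div_le_iff₀ (by positivity)]
        exact hb c
      have h2 : 0 ≤ m * C * (Qc c : ℝ) ^ (-(1 / 2) : ℝ) := by positivity
      have h3 := mul_le_mul_of_nonneg_left h1 hm
      linarith
    · rw [if_neg hc, if_neg hc, mul_zero, zero_add, ← Complex.ofReal_sub, Complex.norm_real,
        Real.norm_eq_abs, ← mul_sub, abs_mul, abs_of_nonneg hm, mul_assoc]
      refine mul_le_mul_of_nonneg_left ?_ hm
      have h1 := hbL c (fun h => hc (hS c.1 h))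
      have h2 : b c / (Qc c : ℝ) ^ n - hh (𝓞 L) c =
          (b c - hh (𝓞 L) c * (Qc c : ℝ) ^ n) / (Qc c : ℝ) ^ n := by
        field_simp
      rw [h2, abs_div, abs_of_pos (by positivity : (0 : ℝ) < (Qc c : ℝ) ^ n),
        div_le_iff₀ (by positivity), Real.rpow_neg hQ.le, ← Real.sqrt_eq_rpow]
      have h3 : 0 < √(Qc c : ℝ) := Real.sqrt_pos.2 hQ
      rw [← div_eq_mul_inv, div_mul_eq_mul_div, le_div_iff₀ h3]
      exact h1
  have hsb : ∀ σ : ℝ, 1 / 2 < σ → Summable fun c : Nat.Primes × ℕ => b₂ c * (Qc c : ℝ) ^ (-σ) := by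
    intro σ hσ
    have h1 := (summable_bad S (σ := σ) (by linarith)).mul_left (m * C)
    have h2 := (summable_Q (σ + 1 / 2) (by linarith) 0 (by push_cast; linarith)).mul_left (m * C)
    refine (h1.add h2).congr fun c => ?_
    rw [hb₂]
    simp only
    have e1 : (Qc c : ℝ) ^ (-(σ + 1 / 2)) = (Qc c : ℝ) ^ (-(1 / 2) : ℝ) * (Qc c : ℝ) ^ (-σ) := by
      rw [← Real.rpow_add (Q_pos' c)]
      congr 1
      ring
    rw [if_pos (Nat.zero_le _), e1]
    split_ifs
    · ring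
    · ring
  have hs₁ : ∀ z : ℂ, 1 < z.re → Summable (DT a₁ z) := by
    intro z hz
    refine summable_DT (b := fun _ => m * C) (fun c => ?_) ?_
    · rw [ha₁]
      simp only
      split_ifs
      · rw [norm_zero]
        positivity
      · rw [Complex.norm_real, Real.norm_eq_abs, abs_of_nonneg (mul_nonneg (Nat.cast_nonneg _)
          (hh_nonneg _))]
        exact mul_le_mul_of_nonneg_left (hL _) (Nat.cast_nonneg _)
    · refine Summable.mul_left _ ?_
      refine (summable_Q z.re (by linarith) 0 (by push_cast; linarith)).congr fun c => ?_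
      rw [if_pos (Nat.zero_le _)]
  have hs₂ : ∀ z : ℂ, 1 < z.re → Summable (DT a₂ z) := fun z hz =>
    summable_DT hab (hsb z.re (by linarith))
  have han := analytic_DT hab hsb
  refine ⟨fun z => G z * Complex.exp (∑' c, DT a₂ z c), ?_, ?_, ?_⟩
  · refine hG.mul (AnalyticAt.cexp (han 1 ?_))
    show (1 / 2 : ℝ) < (1 : ℂ).re
    rw [Complex.one_re]
    norm_num
  · exact mul_ne_zero hG1 (Complex.exp_ne_zero _)
  · filter_upwards [hGL] with z hz hz1
    rw [← hz hz1]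
    have h1 : ∀ c, DT (fun c => ((m * (Qc c : ℝ) ^ j * b c : ℝ) : ℂ)) (z + j + n) c =
        DT a₁ z c + DT a₂ z c := by
      intro c
      have hQ : (Qc c : ℂ) ≠ 0 := Nat.cast_ne_zero.2 (Qc_pos c).ne'
      unfold DT
      rw [ha₂]
      simp only
      have h2 : (Qc c : ℂ) ^ (-(z + j + n)) = (Qc c : ℂ) ^ (-z) / ((Qc c : ℂ) ^ j * (Qc c : ℂ) ^ n) := by
        rw [← pow_add, ← Complex.cpow_natCast, eq_div_iff (by
          rw [Complex.cpow_natCast]
          exact pow_ne_zero _ hQ), ← Complex.cpow_add _ _ hQ]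
        congr 1
        push_cast
        ring
      rw [h2]
      push_cast
      field_simp
      ring
    rw [tsum_congr h1, (hs₁ z hz1).tsum_add (hs₂ z hz1), Complex.exp_add]
    ring

end Pool.Agent.L0h11.TF

namespace Pool.Agent.L0h11.SectionPower

open Finset Filter Topology NumberField
open Pool.Agent.TH958.An
open Pool.Agent.L0h11.TF
open Pool.Agent.H126R3 (Qc Qc_pos exists_F)

variable {A : Type} [CommRing A] [IsDomain A] [CharZero A] [hft : Algebra.FiniteType ℤ A]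
  {T : SectionPower A} {N₁ : T.B}

/-- **The order of the pole of the L-functions of the base.** -/
theorem base_pole {δ : ℕ} (hδ : IsArithmeticDim A δ) (hN : T.IsModel N₁) (hXT : T.X.IsTateType)
    (hZT : T.Z.IsTateType) {i f : ℕ} (hf : (T.Z.dim - 1) * f ≤ i) :
    HasPoleOrder (T.baseLFunction i f N₁) (T.baseEdge δ i f) (T.tateRank i f) := by
  obtain ⟨n, hn⟩ : ∃ n, T.Z.dim = n + 1 := ⟨T.Z.dim - 1, by have := T.two_le; omega⟩
  have hd : T.Z.dim - 1 = n := by omega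
  obtain ⟨e, h, ⟨-, hδe⟩ | ⟨hc, -⟩⟩ := id hδ
  swap
  · exact absurd (inferInstance : CharZero A) hc
  have htr : Algebra.trdeg ℚ (FractionRing A) = e := by
    rw [← trdeg_bot (k₀ := ℚ) Subfield.bot_eq_of_charZero]
    exact h
  obtain ⟨L, _, _, C, N, hC, hN0, hb⟩ := bc_asymp (T := T) hN.1 htr
  obtain ⟨G, hG, hG1, hGL⟩ := pole_of_asymp (L := L) (b := bc T N₁) hC hN0
    (fun c => SG_nonneg _ c fun _ _ => zero_le_one) (fun c => (hb c).1) (fun c => (hb c).2.1)
    (fun c => (hb c).2.2) (T.tateRank i f) (i - (T.Z.dim - 1) * f)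
  have hS : ∀ σ : ℝ, (δ : ℝ) < σ →
      Summable fun c : Nat.Primes × ℕ => hh A c * (Qc c : ℝ) ^ (-σ) := hom A δ hδ
  have hedge : T.baseEdge δ i f = ((i - (T.Z.dim - 1) * f : ℕ) : ℝ) + e + 1 := by
    unfold baseEdge
    rw [hδe, Nat.cast_sub hf]
    push_cast
    ring
  refine ⟨G 1, hG1, ?_⟩
  -- the shift
  let φ : ℝ → ℂ := fun s => (s : ℂ) - ((i - (T.Z.dim - 1) * f : ℕ) : ℂ) - e
  have hφ : Tendsto φ (𝓝[>] (T.baseEdge δ i f)) (𝓝 1) := by
    have h1 : Continuous φ := by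
      show Continuous fun s : ℝ => (s : ℂ) - ((i - (T.Z.dim - 1) * f : ℕ) : ℂ) - e
      fun_prop
    have h2 := (h1.tendsto (T.baseEdge δ i f)).mono_left
      (nhdsWithin_le_nhds (s := Set.Ioi (T.baseEdge δ i f)))
    have h3 : φ (T.baseEdge δ i f) = 1 := by
      show ((T.baseEdge δ i f : ℝ) : ℂ) - ((i - (T.Z.dim - 1) * f : ℕ) : ℂ) - e = 1
      rw [hedge]
      push_cast
      ring
    rw [h3] at h2
    exact h2
  have h1 : Tendsto (fun s => G (φ s)) (𝓝[>] (T.baseEdge δ i f)) (𝓝 (G 1)) :=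
    hG.continuousAt.tendsto.comp hφ
  refine h1.congr' ?_
  filter_upwards [hφ.eventually hGL, self_mem_nhdsWithin] with s hs1 hs2
  have hs2' : T.baseEdge δ i f < s := hs2
  have hre : 1 < (φ s).re := by
    show 1 < ((s : ℂ) - ((i - (T.Z.dim - 1) * f : ℕ) : ℂ) - e).re
    rw [Complex.sub_re, Complex.sub_re, Complex.ofReal_re, Complex.natCast_re, Complex.natCast_re]
    rw [hedge] at hs2'
    linarith
  rw [← hs1 hre]
  have h2 : φ s + ((i - (T.Z.dim - 1) * f : ℕ) : ℂ) + e = (s : ℂ) := by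
    show (s : ℂ) - ((i - (T.Z.dim - 1) * f : ℕ) : ℂ) - e + ((i - (T.Z.dim - 1) * f : ℕ) : ℂ) + e = _
    ring
  have h3 : φ s - 1 = (s : ℂ) - ((T.baseEdge δ i f : ℝ) : ℂ) := by
    show (s : ℂ) - ((i - (T.Z.dim - 1) * f : ℕ) : ℂ) - e - 1 = _
    rw [hedge]
    push_cast
    ring
  have h4 : T.baseLFunction i f N₁ (s : ℂ) =
      Complex.exp (∑' c, DT (SG (T.baseTrace i f) (T.PB N₁)) (s : ℂ) c) := by
    refine (baseLFunction_eq hN hn hS i f (by rw [← hd]; exact hf) ?_).tprod_eq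
    rw [Complex.ofReal_re]
    unfold baseEdge at hs2'
    rw [hd] at hs2'
    exact hs2'
  have h5 : SG (T.baseTrace i f) (T.PB N₁) = fun c =>
      ((T.tateRank i f * (Qc c : ℝ) ^ (i - (T.Z.dim - 1) * f) * bc T N₁ c : ℝ) : ℂ) :=
    funext fun c => SG_tate hN hXT hZT hf c
  rw [h2, h3, h4, h5, zpow_natCast]

end Pool.Agent.L0h11.SectionPower
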