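import Mathlib
import Pool.Agent.L0h11.I.Tv

/-!
# The theorem
-/

set_option autoImplicit false
set_option linter.all false

namespace Pool.Agent.L0h11.SectionPower

open Finset

variable {A : Type} [CommRing A] [IsDomain A] [hft : Algebra.FiniteType ℤ A] {δ : ℕ}

theorem tate_order (hδ : IsArithmeticDim A δ) (T : SectionPower A) (i : ℕ) {N₁ : T.B}
    (hN : T.IsModel N₁) (h0 : CharZero A) (hX : T.X.IsTateType) (hZ : T.Z.IsTateType) :
    HasPoleOrder (T.LFunction i N₁) (T.edge δ i)
      (∑ f ∈ T.levels i, (T.mult f : ℤ) * T.tateRank i f) := by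
  refine (main hδ T i hN).2.2.2 (fun f => (T.tateRank i f : ℤ)) fun f hf => ?_
  unfold levels at hf
  rw [mem_filter] at hf
  exact base_pole hδ hN hX hZ hf.2

end Pool.Agent.L0h11.SectionPower
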